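import Mathlib

/-! The Siegel tube domain over the cone of positive definite matrices. -/

set_option autoImplicit false

open MeasureTheory
open scoped ENNReal

namespace Pool.Agent.Lib.MP_442e5a_an

/-- `ι` is a linear bijection from `E` onto the space of real symmetric `m × m` matrices. -/
def IsParam {E : Type} [AddCommGroup E] [Module ℝ E] {m : ℕ} (ι : E → Fin m → Fin m → ℝ) : Prop :=
  IsLinearMap ℝ ι ∧ Function.Injective ι ∧ Set.range ι = {x | (Matrix.of x).IsSymm}

/-- The cone of positive definite real symmetric matrices. -/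
def cone (m : ℕ) : Set (Fin m → Fin m → ℝ) := {y | (Matrix.of y).PosDef}

/-- The complex matrix `x + i y`. -/
noncomputable def pt {m : ℕ} (x y : Fin m → Fin m → ℝ) : Fin m → Fin m → ℂ :=
  fun i j => (x i j : ℂ) + (y i j : ℂ) * Complex.I

/-- The Siegel tube domain. -/
def tube (m : ℕ) : Set (Fin m → Fin m → ℂ) :=
  {z | ∃ x : Fin m → Fin m → ℝ, (Matrix.of x).IsSymm ∧ ∃ y ∈ cone m, z = pt x y}

/-- `F` is complex differentiable at every point of the tube domain. -/
def Holo {m : ℕ} (F : (Fin m → Fin m → ℂ) → ℂ) : Prop := ∀ z ∈ tube m, DifferentiableAt ℂ F z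

/-- The supremum over the cone of the integrals of `|F (x + i y)| ^ 2` in `x`. -/
noncomputable def hardySq {E : Type} [MeasurableSpace E] (μ : Measure E) {m : ℕ}
    (ι : E → Fin m → Fin m → ℝ) (F : (Fin m → Fin m → ℂ) → ℂ) : ℝ≥0∞ :=
  ⨆ y ∈ cone m, ∫⁻ e, ‖F (pt (ι e) y)‖ₑ ^ 2 ∂μ

/-- The hyper-unrestricted maximal function. -/
noncomputable def maxH {m : ℕ} (F : (Fin m → Fin m → ℂ) → ℂ) (x : Fin m → Fin m → ℝ) : ℝ≥0∞ :=
  ⨆ y ∈ cone m, ‖F (pt x y)‖ₑ

end Pool.Agent.Lib.MP_442e5a_an
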