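import Pool.Agent.Lib.MP_442e5a_an.Bdd
import Pool.Agent.Lib.MP_442e5a_an.Siegel

/-! From `m = 2` to every `m ≥ 2`. -/

set_option autoImplicit false

open MeasureTheory Set Complex Filter
open scoped ENNReal Matrix

namespace Pool.Agent.Lib.MP_442e5a_an

variable {n : ℕ}

/-- Index pairs outside the upper left block. -/
abbrev Oth (n : ℕ) : Type := {p : Fin (2 + n) × Fin (2 + n) // p.1 ≤ p.2 ∧ 2 ≤ p.2.val}

/-- The upper left block. -/
def blk {K : Type} (x : Fin (2 + n) → Fin (2 + n) → K) : Ix → K :=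
  fun k => x (Fin.castAdd n k.1.1) (Fin.castAdd n k.1.2)

/-- The value of the quadratic form at `e i + e j`. -/
def qq {K : Type} [Field K] (x : Fin (2 + n) → Fin (2 + n) → K) : Oth n → K :=
  fun p => x p.1.1 p.1.1 + 2 * x p.1.1 p.1.2 + x p.1.2 p.1.2

lemma coord_injective {x : Fin (2 + n) → Fin (2 + n) → ℝ} (hs : ∀ i j, x i j = x j i)
    (hb : ∀ k, blk x k = 0) (hq : ∀ p, qq x p = 0) : x = 0 := by
  have h1 : ∀ i j : Fin (2 + n), i ≤ j → j.val < 2 → x i j = 0 := fun i j h h2 =>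
    hb ⟨(⟨i, lt_of_le_of_lt h h2⟩, ⟨j, h2⟩), h⟩
  have hd : ∀ i, x i i = 0 := by
    intro i
    rcases lt_or_ge i.val 2 with h | h
    · exact h1 i i le_rfl h
    · have := hq ⟨(i, i), le_rfl, h⟩
      simp only [qq] at this
      linarith
  have h2 : ∀ i j : Fin (2 + n), i ≤ j → x i j = 0 := by
    intro i j hij
    rcases lt_or_ge j.val 2 with h | h
    · exact h1 i j hij h
    · have := hq ⟨(i, j), hij, h⟩
      simp only [qq, hd] at this
      linarith
  funext i j
  rcases le_total i j with h | h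
  · exact h2 i j h
  · rw [hs i j]
    exact h2 j i h

lemma coord_surjective (b : Ix → ℝ) (t : Oth n → ℝ) :
    ∃ x : Fin (2 + n) → Fin (2 + n) → ℝ, (∀ i j, x i j = x j i) ∧ blk x = b ∧ qq x = t := by
  let d : Fin (2 + n) → ℝ := fun i =>
    if h : i.val < 2 then b ⟨(⟨i, h⟩, ⟨i, h⟩), le_rfl⟩ else t ⟨(i, i), le_rfl, not_lt.1 h⟩ / 4
  let f : ∀ i j : Fin (2 + n), i ≤ j → ℝ := fun i j h =>
    if h2 : j.val < 2 then b ⟨(⟨i, lt_of_le_of_lt h h2⟩, ⟨j, h2⟩), h⟩
    else (t ⟨(i, j), h, not_lt.1 h2⟩ - d i - d j) / 2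
  let x : Fin (2 + n) → Fin (2 + n) → ℝ := fun i j =>
    if h : i ≤ j then f i j h else f j i (not_le.1 h).le
  have hx : ∀ i j (h : i ≤ j), x i j = f i j h := fun i j h => dif_pos h
  have hs : ∀ i j, x i j = x j i := by
    intro i j
    rcases lt_trichotomy i j with h | rfl | h
    · rw [hx i j h.le]
      simp only [x, dif_neg (not_le.2 h)]
    · rfl
    · rw [hx j i h.le]
      simp only [x, dif_neg (not_le.2 h)]
  have hd : ∀ i, x i i = d i := by
    intro i
    rw [hx i i le_rfl]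
    by_cases h : i.val < 2
    · simp only [f, d, dif_pos h]
    · simp only [f, d, dif_neg h]
      ring
  refine ⟨x, hs, funext fun k => ?_, funext fun p => ?_⟩
  · obtain ⟨⟨i, j⟩, h⟩ := k
    change x (Fin.castAdd n i) (Fin.castAdd n j) = b ⟨(i, j), h⟩
    rw [hx (Fin.castAdd n i) (Fin.castAdd n j) h]
    exact dif_pos j.2
  · obtain ⟨⟨i, j⟩, h, h2⟩ := p
    change x i i + 2 * x i j + x j j = t ⟨(i, j), h, h2⟩
    rw [hd, hd, hx i j h]
    simp only [f, dif_neg (not_lt.2 h2)]
    ring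

lemma isSymm_of_iff {m : ℕ} {x : Fin m → Fin m → ℝ} :
    (Matrix.of x).IsSymm ↔ ∀ i j, x i j = x j i :=
  ⟨fun h i j => h.apply j i, fun h => Matrix.IsSymm.ext fun i j => h j i⟩

lemma IsParam.symm {E : Type} [AddCommGroup E] [Module ℝ E] {m : ℕ} {ι : E → Fin m → Fin m → ℝ}
    (h : IsParam ι) (e : E) : (Matrix.of (ι e)).IsSymm := by
  have : ι e ∈ Set.range ι := ⟨e, rfl⟩
  rwa [h.2.2] at this

lemma exists_coordE {E : Type} [NormedAddCommGroup E] [NormedSpace ℝ E]
    {ι : E → Fin (2 + n) → Fin (2 + n) → ℝ} (h : IsParam ι) :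
    ∃ Φ : E ≃L[ℝ] (Ix → ℝ) × (Oth n → ℝ), ∀ e, Φ e = (blk (ι e), qq (ι e)) := by
  let L : E →ₗ[ℝ] (Ix → ℝ) × (Oth n → ℝ) :=
    { toFun := fun e => (blk (ι e), qq (ι e))
      map_add' := fun x y => by
        rw [h.1.map_add]
        refine Prod.ext rfl (funext fun p => ?_)
        simp only [qq, Pi.add_apply, Prod.snd_add]
        ring
      map_smul' := fun c x => by
        rw [h.1.map_smul]
        refine Prod.ext rfl (funext fun p => ?_)
        simp only [qq, Pi.smul_apply, Prod.smul_snd, smul_eq_mul, RingHom.id_apply]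
        ring }
  have h1 : Function.Injective L := by
    rw [injective_iff_map_eq_zero]
    intro e he
    apply h.2.1
    rw [h.1.map_zero]
    exact coord_injective (isSymm_of_iff.1 (h.symm e))
      (fun k => congrFun (congrArg Prod.fst he) k) fun p => congrFun (congrArg Prod.snd he) p
  have h2 : Function.Surjective L := by
    rintro ⟨b, t⟩
    obtain ⟨x, hs, hb, ht⟩ := coord_surjective b t
    have : x ∈ Set.range ι := by
      rw [h.2.2]
      exact isSymm_of_iff.2 hs
    obtain ⟨e, rfl⟩ := this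
    exact ⟨e, Prod.ext hb ht⟩
  have : FiniteDimensional ℝ E := FiniteDimensional.of_injective L h1
  exact ⟨(LinearEquiv.ofBijective L ⟨h1, h2⟩).toContinuousLinearEquiv, fun e => rfl⟩

lemma cone_symm {m : ℕ} {y : Fin m → Fin m → ℝ} (hy : y ∈ cone m) (i j : Fin m) :
    y i j = y j i := by
  simpa using (Matrix.PosDef.isHermitian hy).apply j i

lemma blk_posDef {y : Fin (2 + n) → Fin (2 + n) → ℝ} (hy : y ∈ cone (2 + n)) : (SS (blk y)).PosDef := by
  have h := Matrix.PosDef.submatrix hy (e := Fin.castAdd n) (Fin.castAdd_injective _ _)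
  convert h using 1
  ext i j
  simp only [SS, blk, Matrix.of_apply, Matrix.submatrix_apply]
  split_ifs
  · rfl
  · exact cone_symm hy _ _

lemma qq_nonneg {y : Fin (2 + n) → Fin (2 + n) → ℝ} (hy : y ∈ cone (2 + n)) (p : Oth n) : 0 ≤ qq y p := by
  have h := (Matrix.posSemidef_iff_dotProduct_mulVec.1 (Matrix.PosDef.posSemidef hy)).2
    (Pi.single p.1.1 1 + Pi.single p.1.2 1)
  simp only [star_trivial, Matrix.mulVec_add, add_dotProduct, dotProduct_add, Matrix.mulVec_single_one,
    single_one_dotProduct, Matrix.col_apply, Matrix.of_apply] at h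
  have := cone_symm hy p.1.1 p.1.2
  simp only [qq]
  linarith

lemma posDef_fromBlocks {A : Matrix (Fin 2) (Fin 2) ℝ} (hA : A.PosDef) :
    (Matrix.fromBlocks A 0 0 (1 : Matrix (Fin n) (Fin n) ℝ)).PosDef := by
  have hB : (1 : Matrix (Fin n) (Fin n) ℝ).PosDef := Matrix.PosDef.one
  refine Matrix.PosDef.of_dotProduct_mulVec_pos
    (Matrix.IsHermitian.fromBlocks hA.1 (by simp) hB.1) fun x hx => ?_
  rw [← Sum.elim_comp_inl_inr x, Matrix.fromBlocks_mulVec, star_trivial, sumElim_dotProduct_sumElim]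
  simp only [Matrix.zero_mulVec, add_zero, zero_add, Sum.elim_comp_inl, Sum.elim_comp_inr]
  have h1 := (Matrix.posSemidef_iff_dotProduct_mulVec.1 hA.posSemidef).2 (x ∘ Sum.inl)
  have h2 := (Matrix.posSemidef_iff_dotProduct_mulVec.1 hB.posSemidef).2 (x ∘ Sum.inr)
  rw [star_trivial] at h1 h2
  by_cases h : x ∘ Sum.inl = 0
  · have h' : x ∘ Sum.inr ≠ 0 := by
      intro h'
      apply hx
      rw [← Sum.elim_comp_inl_inr x, h, h']
      simp
    have := hB.dotProduct_mulVec_pos h'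
    rw [star_trivial] at this
    linarith
  · have := hA.dotProduct_mulVec_pos h
    rw [star_trivial] at this
    linarith

lemma exists_extension {y' : Ix → ℝ} (h : (SS y').PosDef) (hb : ∀ k, |y' k| ≤ 5) :
    ∃ y ∈ cone (2 + n), blk y = y' ∧ ∀ p : Oth n, qq y p ≤ 20 := by
  have hP := (posDef_fromBlocks (n := n) h).submatrix (e := finSumFinEquiv.symm)
    finSumFinEquiv.symm.injective
  have hS : ∀ i j, |SS y' i j| ≤ 5 := by
    intro i j
    simp only [SS, Matrix.of_apply]
    split_ifs <;> exact hb _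
  have hE : ∀ a b, Matrix.fromBlocks (SS y') 0 0 (1 : Matrix (Fin n) (Fin n) ℝ) a b ≤ 5 := by
    rintro (a | a) (b | b)
    · exact (le_abs_self _).trans (hS a b)
    · simp
    · simp
    · simp only [Matrix.fromBlocks_apply₂₂, Matrix.one_apply]
      split_ifs <;> norm_num
  refine ⟨fun i j => Matrix.fromBlocks (SS y') 0 0 (1 : Matrix (Fin n) (Fin n) ℝ)
    (finSumFinEquiv.symm i) (finSumFinEquiv.symm j), hP, ?_, fun p => ?_⟩
  · funext k
    obtain ⟨⟨i, j⟩, hij⟩ := k
    simp only [blk, finSumFinEquiv_symm_apply_castAdd, Matrix.fromBlocks_apply₁₁, SS,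
      Matrix.of_apply]
    exact dif_pos hij
  · simp only [qq]
    linarith [hE (finSumFinEquiv.symm p.1.1) (finSumFinEquiv.symm p.1.1),
      hE (finSumFinEquiv.symm p.1.1) (finSumFinEquiv.symm p.1.2),
      hE (finSumFinEquiv.symm p.1.2) (finSumFinEquiv.symm p.1.2)]

lemma blk_pt (x y : Fin (2 + n) → Fin (2 + n) → ℝ) :
    blk (pt x y) = fun k => ((blk x k : ℝ) : ℂ) + ((blk y k : ℝ) : ℂ) * I := rfl

lemma qq_pt (x y : Fin (2 + n) → Fin (2 + n) → ℝ) (p : Oth n) :
    qq (pt x y) p + I = ((qq x p : ℝ) : ℂ) + ((qq y p + 1 : ℝ) : ℂ) * I := by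
  simp only [qq, pt]
  push_cast
  ring

lemma isOpen_tube_two : IsOpen {z : Ix → ℂ | (SS (fun k => (z k).im)).PosDef} := by
  simp only [posDef_iff, Pos]
  exact (isOpen_lt (f := fun _ : Ix → ℂ => (0 : ℝ)) (g := fun z => (z i00).im) continuous_const
    (by fun_prop)).inter (isOpen_lt (f := fun z : Ix → ℂ => (z i01).im ^ 2)
      (g := fun z => (z i00).im * (z i11).im) (by fun_prop) (by fun_prop))

theorem exists_counterexample_all (n : ℕ) {E : Type} [NormedAddCommGroup E] [NormedSpace ℝ E]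
    [MeasurableSpace E] [BorelSpace E] (μ : Measure E) [μ.IsAddHaarMeasure]
    {ι : E → Fin (2 + n) → Fin (2 + n) → ℝ} (hι : IsParam ι) :
    ∃ F : (Fin (2 + n) → Fin (2 + n) → ℂ) → ℂ, Holo F ∧ hardySq μ ι F < ⊤ ∧
      ∃ S : Set E, MeasurableSet S ∧ 0 < μ S ∧ ∀ e ∈ S, maxH F (ι e) = ⊤ := by
  obtain ⟨u, hu1, ⟨C, hu2⟩, hu3⟩ := exists_counterexample_bdd
  obtain ⟨Φ, hΦ⟩ := exists_coordE hι
  have : FiniteDimensional ℝ E := FiniteDimensional.of_injective (hι.1.mk' ι) hι.2.1
  have hιc : Continuous ι := (hι.1.mk' ι).continuous_of_finiteDimensional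
  have : (volume : Measure ((Ix → ℝ) × (Oth n → ℝ))).IsAddHaarMeasure :=
    Measure.prod.instIsAddHaarMeasure _ _
  have hne : ∀ (x y : Fin (2 + n) → Fin (2 + n) → ℝ), y ∈ cone (2 + n) →
      ∀ p, qq (pt x y) p + I ≠ 0 := by
    intro x y hy p h
    have h1 := congrArg Complex.im h
    rw [qq_pt] at h1
    have := qq_nonneg hy p
    simp at h1
    linarith
  obtain ⟨F, hFd⟩ : ∃ F : (Fin (2 + n) → Fin (2 + n) → ℂ) → ℂ,
      F = fun z => u (blk z) * ∏ p : Oth n, (qq z p + I)⁻¹ := ⟨_, rfl⟩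
  have hF : Holo F := by
    rintro _ ⟨x, -, y, hy, rfl⟩
    rw [hFd]
    refine DifferentiableAt.mul ((hu1.differentiableAt (isOpen_tube_two.mem_nhds ?_)).comp
      (pt x y) (f := blk) (by unfold blk; fun_prop)) ?_
    · have := blk_posDef hy
      simpa [blk_pt] using this
    · refine (HasFDerivAt.finsetProd (g' := fun p => fderiv ℂ
        (fun z : Fin (2 + n) → Fin (2 + n) → ℂ => (qq z p + I)⁻¹) (pt x y))
          fun p _ => ?_).differentiableAt
      refine DifferentiableAt.hasFDerivAt (DifferentiableAt.inv ?_ (hne x y hy p))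
      unfold qq
      fun_prop
  refine ⟨F, hF, ?_, ?_⟩
  · have hW : ∫⁻ t : Oth n → ℝ, ENNReal.ofReal (∏ p, (1 + t p ^ 2)⁻¹) < ⊤ :=
      (Integrable.fintype_prod (f := fun (_ : Oth n) (s : ℝ) => (1 + s ^ 2)⁻¹)
        fun _ => integrable_inv_one_add_sq).lintegral_lt_top
    obtain ⟨c, hc⟩ : ∃ c : NNReal, μ.map Φ = c • (volume : Measure _) :=
      ⟨_, Measure.isAddLeftInvariant_eq_smul _ _⟩
    refine lt_of_le_of_lt (iSup₂_le fun y hy => ?_) (show (c : ℝ≥0∞) * (ENNReal.ofReal C *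
      ∫⁻ t : Oth n → ℝ, ENNReal.ofReal (∏ p, (1 + t p ^ 2)⁻¹)) < ⊤ by finiteness)
    have hP := blk_posDef hy
    have hm : Measurable fun b : Ix → ℝ =>
        ‖u (fun k => (b k : ℂ) + ((blk y k : ℝ) : ℂ) * I)‖ₑ ^ 2 := by
      have : Continuous fun b : Ix → ℝ => u (fun k => (b k : ℂ) + ((blk y k : ℝ) : ℂ) * I) :=
        hu1.continuousOn.comp_continuous (by fun_prop) fun b => by simpa using hP
      exact this.measurable.enorm.pow_const 2
    have hm2 : Measurable fun t : Oth n → ℝ => ENNReal.ofReal (∏ p, (1 + t p ^ 2)⁻¹) := by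
      fun_prop
    calc _ ≤ ∫⁻ e, (fun w : (Ix → ℝ) × (Oth n → ℝ) =>
          ‖u (fun k => (w.1 k : ℂ) + ((blk y k : ℝ) : ℂ) * I)‖ₑ ^ 2 *
            ENNReal.ofReal (∏ p, (1 + w.2 p ^ 2)⁻¹)) (Φ e) ∂μ := by
          refine lintegral_mono fun e => ?_
          simp only [hΦ, hFd, blk_pt]
          rw [enorm_mul, mul_pow]
          refine mul_le_mul_right ?_ _
          rw [← ofReal_norm, ← ENNReal.ofReal_pow (norm_nonneg _)]
          refine ENNReal.ofReal_le_ofReal ?_
          rw [norm_prod, ← Finset.prod_pow]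
          refine Finset.prod_le_prod (fun p _ => by positivity) fun p _ => ?_
          rw [norm_inv, inv_pow, qq_pt, Complex.sq_norm, Complex.normSq_add_mul_I]
          have := qq_nonneg hy p
          exact inv_anti₀ (by positivity) (by nlinarith)
      _ = ∫⁻ w, ‖u (fun k => (w.1 k : ℂ) + ((blk y k : ℝ) : ℂ) * I)‖ₑ ^ 2 *
            ENNReal.ofReal (∏ p, (1 + w.2 p ^ 2)⁻¹) ∂(μ.map Φ) :=
          (lintegral_map ((hm.comp measurable_fst).mul (hm2.comp measurable_snd))
            Φ.continuous.measurable).symm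
      _ ≤ _ := by
          rw [hc, lintegral_smul_measure, Measure.volume_eq_prod,
            lintegral_prod_mul hm.aemeasurable hm2.aemeasurable]
          exact mul_le_mul_right (mul_le_mul_left (hu2 _ hP) _) _
  · have hls : Measurable fun e : E => maxH F (ι e) := by
      refine LowerSemicontinuous.measurable (lowerSemicontinuous_biSup fun y hy => ?_)
      have h1 : Continuous fun e : E => pt (ι e) y := by
        unfold pt
        fun_prop
      exact (continuous_iff_continuousAt.2 fun e => ContinuousAt.comp (f := fun e => pt (ι e) y)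
        (hF _ ⟨ι e, hι.symm e, y, hy, rfl⟩).continuousAt h1.continuousAt).enorm.lowerSemicontinuous
    have hE := hls (measurableSet_singleton ⊤)
    refine ⟨_, hE, pos_iff_ne_zero.2 fun h0 => hu3 ?_, fun x hx => hx⟩
    have h1 : ∀ᵐ w ∂(μ.map Φ), Φ.symm w ∉ (fun e : E => maxH F (ι e)) ⁻¹' {⊤} := by
      refine (ae_map_iff Φ.continuous.measurable.aemeasurable
        (hE.preimage Φ.symm.continuous.measurable).compl).2 ?_
      simpa only [mem_preimage, ContinuousLinearEquiv.symm_apply_apply] using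
        measure_eq_zero_iff_ae_notMem.1 h0
    have h2 := (Measure.absolutelyContinuous_isAddHaarMeasure
      (volume : Measure ((Ix → ℝ) × (Oth n → ℝ))) (μ.map Φ)).ae_le h1
    rw [Measure.volume_eq_prod] at h2
    filter_upwards [Measure.ae_ae_of_ae_prod h2] with b hb
    obtain ⟨t, ht⟩ := hb.exists
    set x := ι (Φ.symm (b, t)) with hx
    have hxb : (blk x, qq x) = (b, t) := by
      rw [← hΦ, ContinuousLinearEquiv.apply_symm_apply]
    obtain ⟨hx1, hx2⟩ := Prod.ext_iff.1 hxb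
    simp only [mem_preimage, mem_singleton_iff] at ht hx1 hx2
    refine ⟨(maxH F x).toReal * ∏ p, (|t p| + 21), fun y' hy' hb' => ?_⟩
    obtain ⟨y, hy, hy1, hy2⟩ := exists_extension (n := n) hy' hb'
    have h3 : ‖F (pt x y)‖ ≤ (maxH F x).toReal := by
      rw [← toReal_enorm]
      exact ENNReal.toReal_mono ht (le_iSup₂_of_le y hy le_rfl)
    have h4 : ‖∏ p : Oth n, (qq (pt x y) p + I)‖ ≤ ∏ p, (|t p| + 21) := by
      rw [norm_prod]
      refine Finset.prod_le_prod (fun p _ => norm_nonneg _) fun p _ => ?_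
      rw [qq_pt, hx2]
      refine (norm_add_le _ _).trans ?_
      have := qq_nonneg hy p
      have := hy2 p
      rw [norm_mul, Complex.norm_I, mul_one, Complex.norm_real, Complex.norm_real, Real.norm_eq_abs,
        Real.norm_eq_abs, abs_of_nonneg (show 0 ≤ qq y p + 1 by linarith)]
      linarith
    have h5 : u (fun k => (b k : ℂ) + (y' k : ℂ) * I) =
        F (pt x y) * ∏ p : Oth n, (qq (pt x y) p + I) := by
      rw [hFd]
      beta_reduce
      rw [mul_assoc, ← Finset.prod_mul_distrib,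
        Finset.prod_congr rfl fun p _ => inv_mul_cancel₀ (hne x y hy p), Finset.prod_const_one,
        mul_one, blk_pt, hx1, hy1]
    rw [h5, norm_mul]
    exact mul_le_mul h3 h4 (norm_nonneg _) ENNReal.toReal_nonneg

end Pool.Agent.Lib.MP_442e5a_an
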