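import Pool.Agent.Lib.MP_442e5a_an.Final

set_option autoImplicit false

open MeasureTheory Set Complex Filter Metric
open scoped Real ComplexConjugate Topology ENNReal

namespace Pool.Agent.Lib.MP_442e5a_an

/-- The counterexample for `m = 2`; the supremum is already infinite over a bounded set of `y`. -/
theorem exists_counterexample_bdd : ∃ u : (Ix → ℂ) → ℂ,
    DifferentiableOn ℂ u {z : Ix → ℂ | (SS (fun k => (z k).im)).PosDef} ∧
    (∃ C : ℝ, ∀ y : Ix → ℝ, (SS y).PosDef →
      ∫⁻ x : Ix → ℝ, ‖u (fun k => (x k : ℂ) + (y k : ℂ) * I)‖ₑ ^ 2 ≤ ENNReal.ofReal C) ∧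
    ¬ ∀ᵐ x : Ix → ℝ, ∃ M : ℝ, ∀ y : Ix → ℝ, (SS y).PosDef → (∀ k, |y k| ≤ 5) →
      ‖u (fun k => (x k : ℂ) + (y k : ℂ) * I)‖ ≤ M := by
  obtain ⟨H, hH1, hH2, hH3⟩ := exists_H
  refine ⟨fun z => dec (z i00) (z i01) (z i11) * H (z i00) (z i01) (z i11), ?_, ?_, ?_⟩
  · intro z hz
    have hp : Pos (z i00).im (z i01).im (z i11).im := (posDef_iff _).1 hz
    have hc : DifferentiableAt ℂ (fun z : Ix → ℂ => (z i00, z i01, z i11)) z := by fun_prop
    exact (((dec_differentiableAt (p := (z i00, z i01, z i11)) hp).mul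
      (hH1 (z i00, z i01, z i11) hp)).comp z hc).differentiableWithinAt
  · refine ⟨(4 * (16 * (∫⁻ x, wt x) * 4)).toReal, fun y hy => ?_⟩
    have hp : Pos (y i00) (y i01) (y i11) := (posDef_iff _).1 hy
    rw [ENNReal.ofReal_toReal (by have := lintegral_wt.ne; finiteness)]
    let f : (Ix → ℝ) → ℝ≥0∞ := fun x =>
      ‖H (x i00 + y i00 * I) (x i01 + y i01 * I) (x i11 + y i11 * I)‖ₑ ^ 2
    have hf : Measurable f := by
      have : Continuous (fun x : Ix → ℝ =>
          H (x i00 + y i00 * I) (x i01 + y i01 * I) (x i11 + y i11 * I)) := by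
        rw [continuous_iff_continuousAt]
        intro x
        exact ContinuousAt.comp (g := fun p : ℂ × ℂ × ℂ => H p.1 p.2.1 p.2.2)
          (f := fun x : Ix → ℝ => ((x i00 : ℂ) + y i00 * I, (x i01 : ℂ) + y i01 * I,
            (x i11 : ℂ) + y i11 * I)) (hH1 _ (by simpa using hp)).continuousAt (by fun_prop)
      exact this.measurable.enorm.pow_const 2
    have hB : ∀ x, ∫⁻ t in Ioc (0:ℝ) 1, f (x + t • e11) ≤ 4 := by
      intro x
      have := hH2 (x i00 + y i00 * I) (x i01 + y i01 * I) (x i11 + y i11 * I) (by simpa using hp)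
      refine le_trans (le_of_eq ?_) this
      refine lintegral_congr fun t => ?_
      simp only [f, Pi.add_apply, Pi.smul_apply, e11_00, e11_01, e11_11, smul_eq_mul, mul_zero,
        add_zero, mul_one]
      congr 3
      push_cast; ring
    refine le_trans ?_ (mul_le_mul_right (lintegral_wt_mul hf hB) 4)
    rw [← lintegral_const_mul (f := fun x => wt x * f x) _ (measurable_wt.mul hf)]
    refine lintegral_mono fun x => ?_
    simp only [f]
    rw [enorm_mul, mul_pow, ← mul_assoc]
    refine mul_le_mul_left ?_ _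
    have := dec_le (z0 := x i00 + y i00 * I) (z1 := x i01 + y i01 * I) (z2 := x i11 + y i11 * I)
      (by simpa using hp) (norm_nonneg x) (by simpa using norm_cases x)
    unfold wt
    rw [← ofReal_norm, ← ENNReal.ofReal_pow (norm_nonneg _),
      show (4 : ℝ≥0∞) = ENNReal.ofReal 4 by simp, ← ENNReal.ofReal_mul (by norm_num)]
    exact ENNReal.ofReal_le_ofReal this
  · intro hae
    obtain ⟨x, hx0, hx1, hx2, hx⟩ := exists_good_line hae
    set q := x i00
    set r := x i01
    set t := x i11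
    let U : ℕ → Set ℝ := fun M => {s : ℝ | ∃ θ ∈ Icc (0:ℝ) 2, ∃ c ∈ Ioc (0:ℝ) 1,
      (M : ℝ) < ‖H (q + I) (r + θ * I) (s + t + (θ ^ 2 + c) * I)‖} ∩ Ioc 0 1
    have hpos : ∀ θ c s : ℝ, 0 < c → Pos ((q : ℂ) + I).im ((r : ℂ) + θ * I).im
        ((s : ℂ) + t + (θ ^ 2 + c) * I).im := by
      intro θ c s hc
      have i0 : ((q : ℂ) + I).im = 1 := by simp
      have i1 : ((r : ℂ) + θ * I).im = θ := by simp
      have i2 : ((s : ℂ) + t + (θ ^ 2 + c) * I).im = θ ^ 2 + c := by simp [pow_two]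
      rw [i0, i1, i2]; exact ⟨zero_lt_one, by linarith⟩
    have hUm : ∀ M, MeasurableSet (U M) := by
      intro M
      refine MeasurableSet.inter (IsOpen.measurableSet ?_) measurableSet_Ioc
      rw [isOpen_iff_mem_nhds]
      rintro s ⟨θ, hθ, c, hc, hs⟩
      have hca : ContinuousAt (fun s : ℝ => H (q + I) (r + θ * I) (s + t + (θ ^ 2 + c) * I)) s :=
        ContinuousAt.comp (g := fun p : ℂ × ℂ × ℂ => H p.1 p.2.1 p.2.2)
          (f := fun s : ℝ => ((q : ℂ) + I, (r : ℂ) + θ * I, (s : ℂ) + t + (θ ^ 2 + c) * I))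
          (hH1 _ (hpos θ c s hc.1)).continuousAt (by fun_prop)
      filter_upwards [hca.norm.eventually (lt_mem_nhds hs)] with s' hs'
      exact ⟨θ, hθ, c, hc, hs'⟩
    have hanti : Antitone U := by
      intro M M' hMM'
      apply inter_subset_inter_left
      rintro s ⟨θ, hθ, c, hc, hs⟩
      exact ⟨θ, hθ, c, hc, lt_of_le_of_lt (by exact_mod_cast hMM') hs⟩
    have hI : volume (⋂ M, U M) = ⨅ M, volume (U M) :=
      hanti.measure_iInter (fun M => (hUm M).nullMeasurableSet)
        ⟨0, ne_top_of_le_ne_top (by simp) (measure_mono inter_subset_right)⟩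
    have hge : ENNReal.ofReal (1 / 50) ≤ volume (⋂ M, U M) := by
      rw [hI]
      exact le_iInf fun M => hH3 M q ⟨hx0.1.le, hx0.2⟩ r t
    have hnull : volume (⋂ M, U M) = 0 := by
      refine measure_mono_null ?_ (ae_iff.1 hx)
      rintro s hs ⟨M, hM⟩
      obtain ⟨M', hM'⟩ := exists_nat_ge (4000 ^ 2 * M)
      obtain ⟨⟨θ, hθ, c, hc, hlt⟩, hs01⟩ := mem_iInter.1 hs M'
      let y : Ix → ℝ := fun k => if k = i00 then 1 else if k = i01 then θ else θ ^ 2 + c
      have y0 : y i00 = 1 := if_pos rfl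
      have y1 : y i01 = θ := by simp only [y]; rw [if_neg (by decide), if_pos trivial]
      have y2 : y i11 = θ ^ 2 + c := by simp only [y]; rw [if_neg (by decide), if_neg (by decide)]
      have hy : (SS y).PosDef := by
        rw [posDef_iff, y0, y1, y2]
        exact ⟨zero_lt_one, by linarith [hc.1]⟩
      have hyb : ∀ k, |y k| ≤ 5 := by
        intro k
        rcases Ix.cases k with rfl | rfl | rfl
        · rw [y0]; norm_num
        · rw [y1]; exact abs_le.2 ⟨by linarith [hθ.1], by linarith [hθ.2]⟩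
        · rw [y2]; exact abs_le.2 ⟨by nlinarith [hθ.1, hc.1], by nlinarith [hθ.1, hθ.2, hc.2]⟩
      have h1 := hM y hy hyb
      simp only [Pi.add_apply, Pi.smul_apply, e11_00, e11_01, e11_11, smul_eq_mul, mul_zero,
        add_zero, mul_one, y0, y1, y2] at h1
      have e0 : (((x i11 + s : ℝ) : ℂ) + ((θ ^ 2 + c : ℝ) : ℂ) * I) =
          s + t + (θ ^ 2 + c) * I := by push_cast; ring
      rw [e0, Complex.ofReal_one, one_mul, norm_mul] at h1
      have nb : ∀ a b : ℝ, |a| ≤ 3 → |b| ≤ 6 → ‖(a : ℂ) + b * I‖ ≤ 9 := by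
        intro a b ha hb
        refine (norm_add_le _ _).trans ?_
        simp only [Complex.norm_real, Real.norm_eq_abs, norm_mul, Complex.norm_I, mul_one]
        linarith
      have h2 := dec_ge (hpos θ c s hc.1)
        (by simpa using nb q 1 (abs_le.2 ⟨by linarith [hx0.1], by linarith [hx0.2]⟩) (by norm_num))
        (nb r θ (abs_le.2 ⟨by linarith [hx1.1], by linarith [hx1.2]⟩)
          (abs_le.2 ⟨by linarith [hθ.1], by linarith [hθ.2]⟩))
        (by
          have := nb (s + t) (θ ^ 2 + c)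
            (abs_le.2 ⟨by linarith [hx2.1, hs01.1], by linarith [hx2.2, hs01.2]⟩)
            (abs_le.2 ⟨by nlinarith [hθ.1, hc.1], by nlinarith [hθ.1, hθ.2, hc.2]⟩)
          push_cast at this
          exact this)
      have h3 := mul_le_mul_of_nonneg_right h2
        (norm_nonneg (H (q + I) (r + θ * I) (s + t + (θ ^ 2 + c) * I)))
      linarith
    rw [hnull] at hge
    simp at hge

end Pool.Agent.Lib.MP_442e5a_an
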