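import Pool.Agent.Lib.MP_442e5a_an.Tree2

set_option autoImplicit false

open MeasureTheory Set Complex Filter
open scoped Real ComplexConjugate Topology

namespace Pool.Agent.Lib.MP_442e5a_an

variable {K : ℕ} {χ : ℂ → ℂ} {D : ℕ} {δ ε κ η : ℝ} {N : ℕ}

lemma ev_exp (B : ℝ) {c ε : ℝ} (hc : 0 < c) (hε : 0 < ε) :
    ∀ᶠ K : ℕ in atTop, B * Real.exp (-(c * (K : ℝ) ^ 2)) ≤ ε := by
  have h1 : Tendsto (fun K : ℕ => c * (K : ℝ) ^ 2) atTop atTop :=
    Tendsto.const_mul_atTop hc ((tendsto_pow_atTop two_ne_zero).comp tendsto_natCast_atTop_atTop)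
  have h2 := (Real.tendsto_exp_neg_atTop_nhds_zero.comp h1).const_mul B
  rw [mul_zero] at h2
  exact h2.eventually (ge_mem_nhds hε)

lemma ev_div {c : ℝ} (B : ℝ) (hc : 0 < c) : ∀ᶠ K : ℕ in atTop, B / (K : ℝ) ≤ c :=
  (tendsto_const_div_atTop_nhds_zero_nat B).eventually (ge_mem_nhds hc)

/-- The sum of the first `M` trees. -/
noncomputable def forest (K : ℕ) (χ : ℂ → ℂ) (N m : ℕ) (Φ Δ : ℝ) (M : ℕ) (z0 z1 z2 : ℂ) : ℂ :=
  ∑ i ∈ Finset.range M, GG K χ (i / m) N (1 + i * 2 ^ N) (Φ + i * Δ) z0 z1 z2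

lemma forest_L2 (h : Good K χ D δ ε κ η N) (m : ℕ) (Φ Δ : ℝ) {z0 z1 ζ : ℂ} {B : ℝ}
    (hB : ∀ (τ : ℝ) (e : ℕ) (φ : ℝ), ∫ s in (0:ℝ)..1, ‖GG K χ τ N e φ z0 z1 (s + ζ)‖ ^ 2 ≤ B)
    (M : ℕ) :
    (fun s : ℝ => forest K χ N m Φ Δ M z0 z1 (s + ζ)) ∈ TP 0 (lam K (1 + M * 2 ^ N) / 2) ∧
      ∫ s in (0:ℝ)..1, ‖forest K χ N m Φ Δ M z0 z1 (s + ζ)‖ ^ 2 ≤ M * B := by
  induction M with
  | zero => exact ⟨by simpa [forest] using TP.zero_mem _ _, by simp [forest]⟩
  | succ M ih =>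
    obtain ⟨h1, h2⟩ := ih
    have h3 := GG_mem h (M / m) z0 z1 ζ N (1 + M * 2 ^ N) (Φ + M * Δ) (E := 1 + (M + 1) * 2 ^ N)
      (by rw [add_mul]; omega)
    have hl0 : (0:ℝ) < lam K (1 + M * 2 ^ N) := by exact_mod_cast lam_pos h.pos _
    have hl1 : (lam K (1 + M * 2 ^ N) : ℝ) ≤ lam K (1 + (M + 1) * 2 ^ N) := by
      exact_mod_cast lam_mono h.pos (by rw [add_mul]; omega)
    simp only [forest, Finset.sum_range_succ] at h1 h2 ⊢
    refine ⟨TP.add_mem (TP.mono le_rfl (by linarith) h1) (TP.mono hl0.le (by linarith) h3), ?_⟩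
    rw [TP.pythagoras (by linarith) h1 h3]
    push_cast
    linarith [hB (M / m) (1 + M * 2 ^ N) (Φ + M * Δ)]

lemma tree_far (h : Good K χ D δ ε κ η N) (τ : ℝ) {z0 z1 z2 : ℂ}
    (hc : Cone z0.im z1.im z2.im) {e : ℕ} (he : 1 ≤ e) {φ d : ℝ}
    (hd : ∀ φ' ∈ Icc φ (φ + 2 * hh K e), d ^ 2 ≤ QQ z0.im z1.im z2.im φ') :
    ‖GG K χ τ N e φ z0 z1 z2‖ ≤
      Real.exp (2 * π * z0.im) * (6 ^ N * Real.exp (-(π * d ^ 2 * (K : ℝ) ^ 2))) := by
  have hl : Low K e φ z0.im z1.im z2.im ((K : ℝ) ^ 2 * d ^ 2) := by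
    intro φ' hφ'
    have b4 := lam_ge h.pos (e := 0) (e' := e) (by omega)
    simp only [lam, mul_zero, pow_zero, Nat.cast_one, mul_one] at b4
    have : (K : ℝ) ^ 2 * d ^ 2 ≤ lam K e * QQ z0.im z1.im z2.im φ' :=
      mul_le_mul b4 (hd φ' hφ') (by positivity) (Nat.cast_nonneg _)
    linarith [hc.1]
  refine (sup_bound h τ hc le_rfl e φ _ (by positivity) hl).trans ?_
  rw [mul_left_comm (Real.exp _), ← Real.exp_add]
  apply mul_le_mul_of_nonneg_left _ (by positivity)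
  apply Real.exp_le_exp.2
  have := h.Nκ
  have h0 : 0 ≤ (K : ℝ) ^ 2 * d ^ 2 := by positivity
  nlinarith

lemma hh_le_inv (hK : 0 < K) {e : ℕ} (he : 1 ≤ e) : hh K e ≤ 1 / K := by
  have := hh_le hK (e := 0) (e' := e) (by omega)
  have hK' : (0:ℝ) < K := by exact_mod_cast hK
  rw [le_div_iff₀' hK']
  simpa [hh] using this

lemma forest_cover (h : Good K χ D δ ε κ η N) {m R k : ℕ} (hm : 0 < m) (hR : 0 < R)
    (hN : N = m * R) (hKk : K = m * k) (hH : 3 * (R : ℝ) ≤ ∑ l ∈ Finset.range m, (1 / (l + 1) : ℝ))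
    (Φ Δ : ℝ) {q : ℝ} (hq : q ∈ Ico (1:ℝ) 2) (r t : ℝ) :
    ENNReal.ofReal (1 / 50) ≤ volume ({s : ℝ | ∃ i < 2 * m,
      0 < gain K (i / m) q r t N (1 + i * 2 ^ N) (Φ + i * Δ) (N / 4) s} ∩ Ioc 0 1) := by
  have hm' : (0:ℝ) < m := by exact_mod_cast hm
  have hR' : (1:ℝ) ≤ R := by exact_mod_cast hR
  have hN0 : (0:ℝ) < N := by rw [hN]; positivity
  set i0 := ⌊(m : ℝ) * q⌋₊ with hi0
  have hmq : 0 ≤ (m : ℝ) * q := by nlinarith [hq.1]
  have f1 : (i0 : ℝ) ≤ m * q := Nat.floor_le hmq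
  have f2 : m * q < i0 + 1 := Nat.lt_floor_add_one _
  have f3 : m ≤ i0 := Nat.le_floor (by nlinarith [hq.1])
  have f4 : i0 < 2 * m := by
    have : (i0 : ℝ) < 2 * m := by nlinarith [hq.2]
    exact_mod_cast this
  have key := forest_second_moment (Finset.range m)
    (fun l => gain K (((i0 - l : ℕ) : ℝ) / m) q r t N (1 + (i0 - l) * 2 ^ N)
      (Φ + ((i0 - l : ℕ) : ℝ) * Δ) (N / 4))
    (fun l => cnt K (((i0 - l : ℕ) : ℝ) / m) q r t N (1 + (i0 - l) * 2 ^ N)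
      (Φ + ((i0 - l : ℕ) : ℝ) * Δ))
    (fun l => 3 * R * (l + 1)) (y := N / 4) (C := 5 * N / 4) (by positivity) (by positivity)
    (fun l _ => by positivity) (fun l _ => BM_gain _ _ _ _ _ _ _ _ _)
    (fun l _ => BM_cnt _ _ _ _ _ _ _ _)
    (fun l _ => by rw [integral_gain _ _ _ _ h.pos h.two]; ring)
    (fun l _ s => by
      refine (abs_gain_le _ _ _ _ _ _ _ _ _ _).trans_eq ?_
      rw [abs_of_pos (by positivity)]; ring)
    (fun l hl => by
      have hl' := Finset.mem_range.1 hl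
      have hc : ((i0 - l : ℕ) : ℝ) = i0 - l := by rw [Nat.cast_sub (by omega)]
      have hl0 : (0:ℝ) ≤ l := Nat.cast_nonneg l
      have hk : (0:ℝ) < k := by
        have : 0 < k := Nat.pos_of_ne_zero (by rintro rfl; have := h.pos; simp at hKk; omega)
        exact_mod_cast this
      refine (integral_cnt_sq _ q r t h.pos h.two (j := (l + 1) * k * K) (γ := (l + 1) / m)
        ?_ ?_ ?_ ?_ _ _ _).trans ?_
      · rw [sq]
        apply Nat.mul_le_mul_right
        rw [hKk]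
        exact Nat.mul_le_mul_right _ hl'
      · rw [hKk]; push_cast; field_simp
      · rw [hc, sub_nonneg, div_le_iff₀ hm']; linarith
      · rw [hc, sub_le_iff_le_add, ← add_div, le_div_iff₀ hm']; linarith
      · rw [hN]; push_cast
        have : 2 * ((m : ℝ) * R) * ((l + 1) / m) = 2 * R * (l + 1) := by field_simp
        rw [this]; nlinarith)
    (fun l hl l' hl' hne => by
      have a1 := Finset.mem_range.1 hl
      have a2 := Finset.mem_range.1 hl'
      have gen : ∀ i j : ℕ, i < j → ∀ τ τ' φ φ' : ℝ, ∫ s in (0:ℝ)..1,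
          cnt K τ q r t N (1 + i * 2 ^ N) φ s * cnt K τ' q r t N (1 + j * 2 ^ N) φ' s = 1 := by
        intro i j hij τ τ' φ φ'
        rw [integral_cnt_mul τ q r t h.pos h.two N _ φ (E := 1 + j * 2 ^ N) ?_
          (BM_cnt _ _ _ _ _ _ _ _) (Per_cnt _ _ _ _ h.pos _ _ _), integral_cnt _ _ _ _ h.pos h.two]
        have := Nat.mul_le_mul_right (2 ^ N) (show i + 1 ≤ j from hij)
        rw [add_mul] at this
        omega
      rcases lt_or_gt_of_ne hne with hlt | hlt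
      · simp only [mul_comm (cnt K _ q r t N (1 + (i0 - l) * 2 ^ N) _ _)]
        exact (gen _ _ (by omega) _ _ _ _).le
      · exact (gen _ _ (by omega) _ _ _ _).le)
    (by
      have : ∑ l ∈ Finset.range m, (3 * (R : ℝ) * (l + 1))⁻¹ =
          (3 * (R : ℝ))⁻¹ * ∑ l ∈ Finset.range m, (1 / (l + 1) : ℝ) := by
        rw [Finset.mul_sum]
        exact Finset.sum_congr rfl fun l _ => by rw [mul_inv, one_div]
      rw [this, ← div_eq_inv_mul, le_div_iff₀ (by positivity)]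
      linarith)
  have e5 : ((N : ℝ) / 4) ^ 2 / (2 * (5 * N / 4) ^ 2) = 1 / 50 := by field_simp; norm_num
  rw [e5] at key
  refine key.trans (measure_mono (inter_subset_inter_left _ ?_))
  rintro s ⟨l, -, hs⟩
  exact ⟨i0 - l, by omega, hs⟩

theorem exists_block {L κ0 σ ε0 : ℝ} (Φ : ℝ) (hL : 0 < L) (hκ0 : 0 < κ0) (hσ : 0 < σ)
    (hε0 : 0 < ε0) :
    ∃ g : ℂ → ℂ → ℂ → ℂ,
      Differentiable ℂ (fun p : ℂ × ℂ × ℂ => g p.1 p.2.1 p.2.2) ∧
      (∀ z0 z1 ζ : ℂ, Cone z0.im z1.im ζ.im → ∫ s in (0:ℝ)..1, ‖g z0 z1 (s + ζ)‖ ^ 2 ≤ κ0) ∧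
      (∀ z0 z1 z2 : ℂ, Cone z0.im z1.im z2.im →
        (∀ φ' ∈ Icc Φ (Φ + σ), σ ^ 2 ≤ QQ z0.im z1.im z2.im φ') → ‖g z0 z1 z2‖ ≤ ε0) ∧
      (∀ q ∈ Ico (1:ℝ) 2, ∀ r t : ℝ, ENNReal.ofReal (1 / 50) ≤ volume ({s : ℝ |
        ∃ θ ∈ Icc Φ (Φ + σ), L < ‖g (q + I) (r + θ * I) (s + t + θ ^ 2 * I)‖} ∩ Ioc 0 1)) := by
  obtain ⟨R, hRge⟩ := exists_nat_gt (2400 * L ^ 2 * Real.exp (2 * π) ^ 2 * Real.exp 3 / κ0)
  have hR' : (0:ℝ) < R := lt_trans (by positivity) hRge
  have hR : 0 < R := by exact_mod_cast hR'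
  obtain ⟨m, hH, hm⟩ := ((Real.tendsto_sum_range_one_div_nat_succ_atTop.eventually
    (eventually_ge_atTop (3 * (R : ℝ)))).and (eventually_gt_atTop 0)).exists
  have hm' : (0:ℝ) < m := by exact_mod_cast hm
  set N := m * R with hN
  have hNpos : 0 < N := Nat.mul_pos hm hR
  have hN1 : (1:ℝ) ≤ N := by exact_mod_cast hNpos
  have hN0 : (0:ℝ) < N := by linarith
  set δ : ℝ := 1 / (4 * N) with hδ
  set κ : ℝ := π / N with hκ
  have hκpos : 0 < κ := by have := Real.pi_pos; positivity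
  set ε : ℝ := min (1 / (10 * N))
    (1 / 100 / ((1 + Real.exp κ) * (6 ^ N * Real.exp (2 * π)))) with hε
  have hεpos : 0 < ε := by positivity
  have hε1 : ε ≤ 1 / (10 * N) := min_le_left _ _
  have hε2 : ε * N ≤ 1 / 10 := by
    rw [le_div_iff₀ (by positivity)] at hε1; linarith
  have hε3 : ε ≤ 1 / 10 := by nlinarith
  obtain ⟨χ, D, η, hη, hcut⟩ := exists_cut (δ := δ) (ε := ε) (κ := κ) (by positivity) hεpos hκpos
  set Δ : ℝ := σ / (2 * m) with hΔ
  have hΔpos : 0 < Δ := by positivity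
  set A : ℝ := 20 * L * Real.exp (2 * π) / N with hA
  have hApos : 0 < A := by positivity
  have hpi := Real.pi_pos
  have ev : ∀ᶠ K : ℕ in atTop, 1100 ≤ K ∧ 2 * D + 6 ≤ K ∧ 8 / (K : ℝ) ≤ η ∧ 4 / (K : ℝ) ≤ Δ ∧
      (2 * 6 ^ N * Real.exp (2 * π)) * Real.exp (-(π / 4 * (K : ℝ) ^ 2)) ≤ 1 / 100 ∧
      (2 * m * (Real.exp (2 * π) * 6 ^ N)) * Real.exp (-(π * (Δ / 2) ^ 2 * (K : ℝ) ^ 2)) ≤ 1 / 100 ∧
      (A * (2 * m) * 6 ^ N) * Real.exp (-(π * σ ^ 2 * (K : ℝ) ^ 2)) ≤ ε0 :=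
    (eventually_ge_atTop _).and ((eventually_ge_atTop _).and ((ev_div 8 hη).and
      ((ev_div 4 hΔpos).and ((ev_exp _ (by positivity) (by norm_num)).and
      ((ev_exp _ (by positivity) (by norm_num)).and (ev_exp _ (by positivity) hε0))))))
  have ht : Tendsto (fun k : ℕ => 2 * N * k) atTop atTop :=
    tendsto_id.const_mul_atTop' (by omega)
  obtain ⟨k, k1, k2, k3, k4, k5, k6, k7⟩ := (ht.eventually ev).exists
  set K := 2 * N * k with hK
  have hk : 0 < k := Nat.pos_of_ne_zero (by rintro rfl; omega)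
  have hk' : (0:ℝ) < k := by exact_mod_cast hk
  have hgood : Good K χ D δ ε κ η N :=
    { cut := hcut
      hK := k1
      two := ⟨N * k, by rw [hK]; ring⟩
      hD := k2.trans (by nlinarith)
      hη := k3
      ε_pos := hεpos
      ε_le := by linarith
      κ_pos := hκpos
      Nκ := by rw [hκ]; field_simp; exact le_rfl
      h1 := by
        have : ε ≤ 1 / 100 / ((1 + Real.exp κ) * (6 ^ N * Real.exp (2 * π))) := min_le_right _ _
        rw [le_div_iff₀ (by positivity)] at this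
        linarith
      h2 := by
        rw [sub_eq_add_neg, Real.exp_add, ← mul_assoc]
        have e0 : π * ((K : ℝ) ^ 2 / 4) = π / 4 * (K : ℝ) ^ 2 := by ring
        rw [e0]
        exact k5
      hρ := ⟨(N + 1) * k * K, by
        rw [sq]
        apply Nat.mul_le_mul_right
        rw [hK]
        exact Nat.mul_le_mul_right _ (by omega), by
        rw [hK, hδ]; push_cast; field_simp; ring⟩ }
  have hKpos : (0:ℝ) < K := by exact_mod_cast hgood.pos
  have hhΔ : ∀ i : ℕ, 2 * hh K (1 + i * 2 ^ N) ≤ Δ / 2 := by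
    intro i
    have h1 := hh_le_inv hgood.pos (e := 1 + i * 2 ^ N) (by omega)
    have h2 : 4 / (K : ℝ) = 4 * (1 / K) := by ring
    linarith
  have hsec : ∀ i < 2 * m, ∀ φ' ∈ Icc (Φ + i * Δ) (Φ + i * Δ + 2 * hh K (1 + i * 2 ^ N)),
      φ' ∈ Icc Φ (Φ + σ) := by
    intro i hi φ' hφ'
    have h1 : (i : ℝ) + 1 ≤ 2 * m := by exact_mod_cast hi
    have h2 : 2 * m * Δ = σ := by rw [hΔ]; field_simp
    have h3 := hhΔ i
    have h4 : 0 ≤ (i : ℝ) * Δ := by positivity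
    constructor
    · linarith [hφ'.1]
    · nlinarith [hφ'.2]
  refine ⟨fun z0 z1 z2 => A * ee z0 * forest K χ N m Φ Δ (2 * m) z0 z1 z2, ?_, ?_, ?_, ?_⟩
  · refine Differentiable.mul (by fun_prop) ?_
    unfold forest
    exact Differentiable.fun_sum fun i _ =>
      GG_differentiable hcut.diff _ (by fun_prop) (by fun_prop) (by fun_prop) _ _ _
  · intro z0 z1 ζ hc
    have hm2 : 2 * (4 * ε ^ 2 + (1 + 2 * ε) ^ 2 * (1 / 2 + 2 * δ)) ≤ 1 + 3 / N := by
      have e1 : 2 * (4 * ε ^ 2 + (1 + 2 * ε) ^ 2 * (1 / 2 + 2 * δ)) =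
          1 + (N * (12 * ε ^ 2 + 4 * ε) + (1 + 2 * ε) ^ 2) / N := by
        rw [hδ]; field_simp; ring
      rw [e1]
      apply add_le_add_right
      apply div_le_div_of_nonneg_right _ hN0.le
      nlinarith
    have hexp : (1 + 3 / (N : ℝ)) ^ N ≤ Real.exp 3 := by
      have h1 : 1 + 3 / (N : ℝ) ≤ Real.exp (3 / N) := by linarith [Real.add_one_le_exp (3 / N)]
      refine (pow_le_pow_left₀ (by positivity) h1 N).trans_eq ?_
      rw [← Real.exp_nat_mul]; congr 1; field_simp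
    have hB : ∀ (τ : ℝ) (e : ℕ) (φ : ℝ), ∫ s in (0:ℝ)..1, ‖GG K χ τ N e φ z0 z1 (s + ζ)‖ ^ 2 ≤
        3 * N * Real.exp 3 * Real.exp (2 * π * z0.im) ^ 2 := by
      intro τ e φ
      have h30 : 0 ≤ 3 / (N : ℝ) := by positivity
      have := L2_bound hgood τ hc (m2 := 1 + 3 / N) (by linarith) hm2 le_rfl e φ 0 le_rfl
        (Low.zero _ _ _ hc)
      rw [mul_zero, sub_zero] at this
      refine this.trans ?_
      gcongr
    have h2 := (forest_L2 hgood m Φ Δ hB (2 * m)).2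
    simp only [norm_mul, mul_pow]
    rw [intervalIntegral.integral_const_mul, norm_ee, Complex.norm_real, Real.norm_eq_abs, sq_abs]
    refine (mul_le_mul_of_nonneg_left h2 (by positivity)).trans ?_
    have e1 : Real.exp (-(2 * π * z0.im)) * Real.exp (2 * π * z0.im) = 1 := by
      rw [← Real.exp_add]; simp
    have e2 : A ^ 2 * Real.exp (-(2 * π * z0.im)) ^ 2 *
        (((2 * m : ℕ) : ℝ) * (3 * N * Real.exp 3 * Real.exp (2 * π * z0.im) ^ 2)) =
        2400 * L ^ 2 * Real.exp (2 * π) ^ 2 * Real.exp 3 / R *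
          (Real.exp (-(2 * π * z0.im)) * Real.exp (2 * π * z0.im)) ^ 2 := by
      rw [hA, hN]; push_cast; field_simp; ring
    rw [e2, e1, one_pow, mul_one, div_le_iff₀ hR']
    rw [div_lt_iff₀ hκ0] at hRge
    linarith
  · intro z0 z1 z2 hc hQ
    have h1 : ‖forest K χ N m Φ Δ (2 * m) z0 z1 z2‖ ≤ (2 * m : ℕ) *
        (Real.exp (2 * π * z0.im) * (6 ^ N * Real.exp (-(π * σ ^ 2 * (K : ℝ) ^ 2)))) := by
      unfold forest
      refine (norm_sum_le _ _).trans ?_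
      refine (Finset.sum_le_card_nsmul _ _ _ fun i hi => tree_far hgood _ hc (by omega)
        (fun φ' hφ' => hQ φ' (hsec i (Finset.mem_range.1 hi) φ' hφ'))).trans_eq ?_
      simp
    have e1 : Real.exp (-(2 * π * z0.im)) * Real.exp (2 * π * z0.im) = 1 := by
      rw [← Real.exp_add]; simp
    simp only [norm_mul]
    rw [norm_ee, Complex.norm_real, Real.norm_eq_abs, abs_of_pos hApos]
    refine (mul_le_mul_of_nonneg_left h1 (by positivity)).trans (le_trans (le_of_eq ?_) k7)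
    push_cast
    linear_combination (A * (2 * m) * 6 ^ N * Real.exp (-(π * σ ^ 2 * (K : ℝ) ^ 2))) * e1
  · intro q hq r t
    refine (forest_cover hgood hm hR hN (k := 2 * R * k) (by rw [hK, hN]; ring) hH Φ Δ hq r t).trans
      (measure_mono (inter_subset_inter_left _ ?_))
    rintro s ⟨i, hi, hs⟩
    obtain ⟨θ, hθ, hb⟩ := gain_bound hgood _ q r t s le_rfl _ _ _ hs
    refine ⟨θ, hsec i hi θ hθ, ?_⟩
    have i0 : ((q : ℂ) + I).im = 1 := by simp
    have i1 : ((r : ℂ) + θ * I).im = θ := by simp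
    have i2 : ((s : ℂ) + t + θ ^ 2 * I).im = θ ^ 2 := by simp [pow_two]
    have hc : Cone ((q : ℂ) + I).im ((r : ℂ) + θ * I).im ((s : ℂ) + t + θ ^ 2 * I).im := by
      rw [i0, i1, i2]; exact cone_ray θ
    set X := Real.exp (2 * π) * (6 ^ N * Real.exp (-(π * (Δ / 2) ^ 2 * (K : ℝ) ^ 2))) with hX
    have hX0 : 0 ≤ X := by positivity
    have hfar : ∀ j ∈ (Finset.range (2 * m)).erase i,
        ‖GG K χ (j / m) N (1 + j * 2 ^ N) (Φ + j * Δ) (q + I) (r + θ * I) (s + t + θ ^ 2 * I)‖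
          ≤ X := by
      intro j hj
      have hji := (Finset.mem_erase.1 hj).1
      have := tree_far hgood (j / m) hc (e := 1 + j * 2 ^ N) (by omega) (φ := Φ + j * Δ)
        (d := Δ / 2) (fun φ' hφ' => by
          rw [i0, i1, i2, QQ_ray, ← sq_abs (θ - φ')]
          apply pow_le_pow_left₀ (by positivity)
          have a1 := hhΔ i
          have a2 := hhΔ j
          rcases lt_or_gt_of_ne hji with hlt | hlt
          · have : (j : ℝ) + 1 ≤ i := by exact_mod_cast hlt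
            refine le_trans ?_ (le_abs_self _)
            nlinarith [hφ'.2, hθ.1]
          · have : (i : ℝ) + 1 ≤ j := by exact_mod_cast hlt
            rw [abs_sub_comm]
            refine le_trans ?_ (le_abs_self _)
            nlinarith [hφ'.1, hθ.2])
      rwa [i0, mul_one] at this
    have hsum : ‖∑ j ∈ (Finset.range (2 * m)).erase i,
        GG K χ (j / m) N (1 + j * 2 ^ N) (Φ + j * Δ) (q + I) (r + θ * I) (s + t + θ ^ 2 * I)‖
          ≤ 1 / 100 := by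
      refine (norm_sum_le _ _).trans ((Finset.sum_le_card_nsmul _ _ _ hfar).trans ?_)
      have : ((Finset.range (2 * m)).erase i).card ≤ 2 * m := by
        simpa using Finset.card_erase_le (s := Finset.range (2 * m)) (a := i)
      have h3 : (((Finset.range (2 * m)).erase i).card : ℝ) ≤ 2 * m := by exact_mod_cast this
      rw [nsmul_eq_mul]
      refine (mul_le_mul_of_nonneg_right h3 hX0).trans (le_trans (le_of_eq ?_) k6)
      rw [hX]; ring
    have hre : 0.06 * N ≤ ‖forest K χ N m Φ Δ (2 * m) (q + I) (r + θ * I) (s + t + θ ^ 2 * I)‖ := by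
      refine le_trans ?_ ((le_abs_self _).trans (Complex.abs_re_le_norm _))
      unfold forest
      rw [← Finset.add_sum_erase _ _ (Finset.mem_range.2 hi), add_re]
      have := (abs_le.1 ((Complex.abs_re_le_norm _).trans hsum)).1
      linarith
    simp only [norm_mul]
    rw [norm_ee, Complex.norm_real, Real.norm_eq_abs, abs_of_pos hApos, i0, mul_one]
    refine lt_of_lt_of_le ?_ (mul_le_mul_of_nonneg_left hre (by positivity))
    have e1 : Real.exp (2 * π) * Real.exp (-(2 * π)) = 1 := by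
      rw [← Real.exp_add]; simp
    have e2 : A * Real.exp (-(2 * π)) * (0.06 * N) =
        1.2 * L * (Real.exp (2 * π) * Real.exp (-(2 * π))) := by
      rw [hA]; field_simp; ring
    rw [e2, e1]
    linarith

end Pool.Agent.Lib.MP_442e5a_an
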