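import Pool.Agent.Lib.MP_442e5a_an.TP

set_option autoImplicit false

open MeasureTheory Set Complex
open scoped Real ComplexConjugate

namespace Pool.Agent.Lib.MP_442e5a_an

/-- Entire periodic functions of finite degree, with growth control off the real axis. -/
structure Nice (f : ℂ → ℂ) : Prop where
  diff : Differentiable ℂ f
  per : Function.Periodic f 1
  tp : ∃ D : ℕ, ∀ (l : ℕ) (w : ℂ), (fun s : ℝ => f (l * s + w)) ∈ TP (-(D * l)) (D * l)
  gr : ∃ C : ℝ, 0 < C ∧ ∀ u v : ℝ, ‖f (u + v * I)‖ ≤ C * Real.exp (C * |v|) ∧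
    ‖f (u + v * I) - f u‖ ≤ C * |v| * Real.exp (C * |v|)

lemma Nice.const (c : ℂ) : Nice (fun _ => c) where
  diff := differentiable_const c
  per := fun _ => rfl
  tp := ⟨0, fun l w => TP.const_mem (by simp) (by simp) c⟩
  gr := ⟨‖c‖ + 1, by positivity, fun u v => ⟨by
      have : 1 ≤ Real.exp ((‖c‖ + 1) * |v|) := Real.one_le_exp (by positivity)
      nlinarith [norm_nonneg c], by simp; positivity⟩⟩

lemma exp_mono_aux {A B v : ℝ} (h : A ≤ B) : Real.exp (A * |v|) ≤ Real.exp (B * |v|) :=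
  Real.exp_le_exp.2 (mul_le_mul_of_nonneg_right h (abs_nonneg v))

lemma Nice.add {f g : ℂ → ℂ} (hf : Nice f) (hg : Nice g) : Nice (fun u => f u + g u) where
  diff := hf.diff.add hg.diff
  per := fun u => by simp only [hf.per u, hg.per u]
  tp := by
    obtain ⟨D, hD⟩ := hf.tp
    obtain ⟨E, hE⟩ := hg.tp
    refine ⟨D + E, fun l w => TP.add_mem (TP.mono ?_ ?_ (hD l w)) (TP.mono ?_ ?_ (hE l w))⟩
    all_goals push_cast
    all_goals nlinarith [mul_nonneg (Nat.cast_nonneg (α := ℝ) D) (Nat.cast_nonneg (α := ℝ) l),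
      mul_nonneg (Nat.cast_nonneg (α := ℝ) E) (Nat.cast_nonneg (α := ℝ) l)]
  gr := by
    obtain ⟨C, hC, h1⟩ := hf.gr
    obtain ⟨E, hE, h2⟩ := hg.gr
    refine ⟨C + E, by positivity, fun u v => ?_⟩
    have a1 := exp_mono_aux (v := v) (show C ≤ C + E by linarith)
    have a2 := exp_mono_aux (v := v) (show E ≤ C + E by linarith)
    obtain ⟨b1, b2⟩ := h1 u v
    obtain ⟨c1, c2⟩ := h2 u v
    have hv := abs_nonneg v
    constructor
    · refine (norm_add_le _ _).trans ?_
      nlinarith [mul_le_mul_of_nonneg_left a1 hC.le, mul_le_mul_of_nonneg_left a2 hE.le]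
    · rw [add_sub_add_comm]
      refine (norm_add_le _ _).trans ?_
      nlinarith [mul_le_mul_of_nonneg_left a1 (mul_nonneg hC.le hv),
        mul_le_mul_of_nonneg_left a2 (mul_nonneg hE.le hv)]

lemma Nice.mul {f g : ℂ → ℂ} (hf : Nice f) (hg : Nice g) : Nice (fun u => f u * g u) where
  diff := hf.diff.mul hg.diff
  per := fun u => by simp only [hf.per u, hg.per u]
  tp := by
    obtain ⟨D, hD⟩ := hf.tp
    obtain ⟨E, hE⟩ := hg.tp
    refine ⟨D + E, fun l w => TP.mono ?_ ?_ (TP.mul_mem (hD l w) (hE l w))⟩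
    all_goals push_cast
    all_goals nlinarith
  gr := by
    obtain ⟨C, hC, h1⟩ := hf.gr
    obtain ⟨E, hE, h2⟩ := hg.gr
    refine ⟨C + E + 2 * (C * E), by positivity, fun u v => ?_⟩
    have hCE := mul_pos hC hE
    have a1 := exp_mono_aux (v := v) (show C + E ≤ C + E + 2 * (C * E) by linarith)
    have a0 : Real.exp ((C + E) * |v|) = Real.exp (C * |v|) * Real.exp (E * |v|) := by
      rw [← Real.exp_add]; congr 1; ring
    obtain ⟨b1, b2⟩ := h1 u v
    obtain ⟨c1, c2⟩ := h2 u v
    have hv := abs_nonneg v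
    have b0 : ‖f u‖ ≤ C * Real.exp (C * |v|) := by
      have := (h1 u 0).1
      simp only [ofReal_zero, zero_mul, add_zero, abs_zero, mul_zero, Real.exp_zero, mul_one] at this
      have h3 : 1 ≤ Real.exp (C * |v|) := Real.one_le_exp (by positivity)
      nlinarith
    set X := Real.exp ((C + E + 2 * (C * E)) * |v|)
    have hX : 0 < X := Real.exp_pos _
    constructor
    · rw [norm_mul]
      calc ‖f (u + v * I)‖ * ‖g (u + v * I)‖
          ≤ (C * Real.exp (C * |v|)) * (E * Real.exp (E * |v|)) :=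
            mul_le_mul b1 c1 (norm_nonneg _) (by positivity)
        _ = (C * E) * Real.exp ((C + E) * |v|) := by rw [a0]; ring
        _ ≤ (C * E) * X := mul_le_mul_of_nonneg_left a1 hCE.le
        _ ≤ _ := mul_le_mul_of_nonneg_right (by linarith) hX.le
    · have e : f (u + v * I) * g (u + v * I) - f u * g u =
          (f (u + v * I) - f u) * g (u + v * I) + f u * (g (u + v * I) - g u) := by ring
      rw [e]
      refine (norm_add_le _ _).trans ?_
      rw [norm_mul, norm_mul]
      calc ‖f (u + v * I) - f u‖ * ‖g (u + v * I)‖ + ‖f u‖ * ‖g (u + v * I) - g u‖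
          ≤ (C * |v| * Real.exp (C * |v|)) * (E * Real.exp (E * |v|)) +
            (C * Real.exp (C * |v|)) * (E * |v| * Real.exp (E * |v|)) :=
            add_le_add (mul_le_mul b2 c1 (norm_nonneg _) (by positivity))
              (mul_le_mul b0 c2 (norm_nonneg _) (by positivity))
        _ = (2 * (C * E)) * |v| * Real.exp ((C + E) * |v|) := by rw [a0]; ring
        _ ≤ (2 * (C * E)) * |v| * X := mul_le_mul_of_nonneg_left a1 (by positivity)
        _ ≤ _ := mul_le_mul_of_nonneg_right
            (mul_le_mul_of_nonneg_right (by linarith) hv) hX.le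

lemma abs_exp_sub_one_le' (x : ℝ) : |Real.exp x - 1| ≤ |x| * Real.exp |x| := by
  rcases le_total 0 x with h | h
  · rw [abs_of_nonneg h, abs_of_nonneg (by linarith [Real.one_le_exp h])]
    have h1 := Real.add_one_le_exp (-x)
    have h2 : Real.exp (-x) * Real.exp x = 1 := by rw [← Real.exp_add]; simp
    nlinarith [Real.exp_pos x]
  · rw [abs_of_nonpos h, abs_of_nonpos (by linarith [Real.exp_le_one_iff.2 h])]
    have h1 := Real.add_one_le_exp x
    have h2 : 1 ≤ Real.exp (-x) := Real.one_le_exp (by linarith)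
    nlinarith

lemma nice_ee_mul (σ : ℤ) (hσ : |σ| = 1) : Nice (fun u => ee (σ * u)) where
  diff := by fun_prop
  per := fun u => by simp only [mul_add, mul_one, ee_add, ee_int]
  tp := by
    refine ⟨1, fun l w => ?_⟩
    have h := TP.ee_mem (a := -((1 : ℕ) * l)) (b := (1 : ℕ) * l) (k := σ * l) ?_ ?_ (σ * w)
    · convert h using 3
      push_cast; ring
    all_goals
      rcases abs_eq (by norm_num : (0:ℤ) ≤ 1) |>.1 hσ with rfl | rfl <;> simp
  gr := by
    refine ⟨2 * π, by positivity, fun u v => ?_⟩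
    have hpi := Real.pi_gt_three
    have habs : |(-(2 * π * (σ * v)) : ℝ)| = 2 * π * |v| := by
      have : |(σ : ℝ)| = 1 := by exact_mod_cast hσ
      rw [abs_neg, abs_mul, abs_mul (σ : ℝ), this, abs_of_pos (by positivity : 0 < 2 * π), one_mul]
    constructor
    · rw [norm_ee]
      have h1 : ((σ : ℂ) * (u + v * I)).im = σ * v := by simp
      rw [h1]
      have h2 : Real.exp (-(2 * π * (σ * v))) ≤ Real.exp (2 * π * |v|) :=
        Real.exp_le_exp.2 (habs ▸ le_abs_self _)
      nlinarith [Real.exp_pos (2 * π * |v|)]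
    · have e : ee (σ * (u + v * I)) - ee (σ * u) =
          ee (σ * u) * ((Real.exp (-(2 * π * (σ * v))) - 1 : ℝ) : ℂ) := by
        rw [mul_add, ee_add]
        have : ee (σ * (v * I)) = (Real.exp (-(2 * π * (σ * v))) : ℝ) := by
          unfold ee
          push_cast
          congr 1
          linear_combination (2 * π * σ * v) * I_mul_I
        rw [this]; push_cast; ring
      rw [e, norm_mul, norm_ee, Complex.norm_real, Real.norm_eq_abs]
      have h1 : ((σ : ℂ) * u).im = 0 := by simp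
      rw [h1]
      have := abs_exp_sub_one_le' (-(2 * π * (σ * v)))
      rw [habs] at this
      simpa using this

/-- The complex extension of `sin (2 π u)`. -/
noncomputable def sn (u : ℂ) : ℂ := (I / 2) * ee (((-1 : ℤ) : ℂ) * u) + (-I / 2) * ee (((1 : ℤ) : ℂ) * u)

lemma nice_sn : Nice sn :=
  ((Nice.const _).mul (nice_ee_mul (-1) (by norm_num))).add
    ((Nice.const _).mul (nice_ee_mul 1 (by norm_num)))

lemma sn_real (u : ℝ) : sn u = (Real.sin (2 * π * u) : ℝ) := by
  unfold sn ee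
  rw [Complex.ofReal_sin, Complex.sin]
  push_cast
  have e1 : 2 * (π : ℂ) * I * (-1 * u) = -(2 * π * u) * I := by ring
  have e2 : 2 * (π : ℂ) * I * (1 * u) = 2 * π * u * I := by ring
  rw [e1, e2]; ring

lemma nice_pow (n : ℕ) : Nice (fun u => sn u ^ n) := by
  induction n with
  | zero => simpa using Nice.const 1
  | succ n ih => simpa [pow_succ] using ih.mul nice_sn

lemma nice_poly (p : Polynomial ℝ) : Nice (fun u => Polynomial.aeval (sn u) p) := by
  induction p using Polynomial.induction_on' with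
  | add p q hp hq => simpa using hp.add hq
  | monomial n a => simpa [Polynomial.aeval_monomial] using (Nice.const (a : ℂ)).mul (nice_pow n)

lemma sin_fract (u : ℝ) : Real.sin (2 * π * u) = Real.sin (2 * π * Int.fract u) := by
  have : 2 * π * u = 2 * π * Int.fract u + (⌊u⌋ : ℤ) * (2 * π) := by
    rw [Int.fract]; ring
  rw [this, Real.sin_add_int_mul_two_pi]

lemma sin_nonneg_of_fract {u : ℝ} (h : Int.fract u < 1 / 2) : 0 ≤ Real.sin (2 * π * u) := by
  rw [sin_fract]
  have := Int.fract_nonneg u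
  have hpi := Real.pi_pos
  apply Real.sin_nonneg_of_nonneg_of_le_pi
  · positivity
  · nlinarith

lemma sin_le_of_fract {u δ : ℝ} (hδ : 0 < δ) (h : ¬ Int.fract (u + δ) < 1 / 2 + 2 * δ) :
    Real.sin (2 * π * u) ≤ -(4 * δ) := by
  have hpi := Real.pi_pos
  set f := Int.fract (u + δ) with hf
  have h1 : f < 1 := Int.fract_lt_one _
  have h2 : 1 / 2 + 2 * δ ≤ f := not_lt.1 h
  have e : 2 * π * u = (2 * π * (f - δ) - π) + π + (⌊u + δ⌋ : ℤ) * (2 * π) := by
    rw [hf, Int.fract]; ring
  rw [e, Real.sin_add_int_mul_two_pi, Real.sin_add_pi, neg_le_neg_iff]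
  set x := 2 * π * (f - δ) - π with hx
  have x1 : 2 * π * δ ≤ x := by rw [hx]; nlinarith
  have x2 : 2 * π * δ ≤ π - x := by rw [hx]; nlinarith
  have key : ∀ y, 2 * π * δ ≤ y → y ≤ π / 2 → 4 * δ ≤ Real.sin y := by
    intro y hy1 hy2
    refine le_trans ?_ (Real.mul_le_sin (le_trans (by positivity) hy1) hy2)
    rw [div_mul_eq_mul_div, le_div_iff₀ hpi]
    nlinarith
  rcases le_total x (π / 2) with h3 | h3
  · exact key x x1 h3
  · rw [← Real.sin_pi_sub]
    exact key _ x2 (by linarith)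

/-- The properties of the cut-off function used in the construction. -/
structure Cut (χ : ℂ → ℂ) (D : ℕ) (δ ε κ η : ℝ) : Prop where
  diff : Differentiable ℂ χ
  per : Function.Periodic χ 1
  tp : ∀ (l : ℕ) (w : ℂ), (fun s : ℝ => χ (l * s + w)) ∈ TP (-(D * l)) (D * l)
  le : ∀ u : ℝ, ‖χ u‖ ≤ 1 + ε
  one : ∀ u : ℝ, Int.fract u < 1 / 2 → ‖χ u - 1‖ ≤ ε
  small : ∀ u : ℝ, ¬ Int.fract (u + δ) < 1 / 2 + 2 * δ → ‖χ u‖ ≤ ε
  off : ∀ u v W : ℝ, 0 ≤ W → |v| ≤ η * W → ‖χ (u + v * I) - χ u‖ ≤ ε * Real.exp (κ * W)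

lemma exists_cut {δ ε κ : ℝ} (hδ : 0 < δ) (hε : 0 < ε) (hκ : 0 < κ) :
    ∃ (χ : ℂ → ℂ) (D : ℕ) (η : ℝ), 0 < η ∧ Cut χ D δ ε κ η := by
  let f : ℝ → ℝ := fun x => max 0 (min 1 (1 + x / (4 * δ)))
  have hf : Continuous f := by fun_prop
  obtain ⟨p, hp⟩ := exists_polynomial_near_of_continuousOn (-1) 1 f hf.continuousOn ε hε
  have hn := nice_poly p
  obtain ⟨D, hD⟩ := hn.tp
  obtain ⟨C, hC, hgr⟩ := hn.gr
  have hreal : ∀ u : ℝ, Polynomial.aeval (sn u) p = ((p.eval (Real.sin (2 * π * u)) : ℝ) : ℂ) := by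
    intro u
    rw [sn_real, ← Polynomial.coe_aeval_eq_eval]
    exact Polynomial.aeval_algebraMap_apply ℂ (Real.sin (2 * π * u)) p
  have happ : ∀ u : ℝ, |p.eval (Real.sin (2 * π * u)) - f (Real.sin (2 * π * u))| < ε :=
    fun u => hp _ ⟨Real.neg_one_le_sin _, Real.sin_le_one _⟩
  refine ⟨fun u => Polynomial.aeval (sn u) p, D, min (κ / (2 * C)) (ε * κ / (2 * C)),
    by positivity, hn.diff, hn.per, hD, ?_, ?_, ?_, ?_⟩
  · intro u
    rw [hreal, Complex.norm_real, Real.norm_eq_abs]
    have h1 := abs_lt.1 (happ u)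
    have h2 : 0 ≤ f (Real.sin (2 * π * u)) := le_max_left _ _
    have h3 : f (Real.sin (2 * π * u)) ≤ 1 := max_le zero_le_one (min_le_left _ _)
    rw [abs_le]; constructor <;> linarith [h1.1, h1.2]
  · intro u hu
    have h0 := sin_nonneg_of_fract hu
    have h1 : f (Real.sin (2 * π * u)) = 1 := by
      have : 0 ≤ Real.sin (2 * π * u) / (4 * δ) := by positivity
      simp only [f]
      rw [min_eq_left (by linarith), max_eq_right zero_le_one]
    have h2 := happ u
    rw [h1] at h2
    rw [hreal, ← Complex.ofReal_one, ← Complex.ofReal_sub, Complex.norm_real, Real.norm_eq_abs]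
    exact h2.le
  · intro u hu
    have h0 := sin_le_of_fract hδ hu
    have h1 : f (Real.sin (2 * π * u)) = 0 := by
      have : Real.sin (2 * π * u) / (4 * δ) ≤ -1 := by
        rw [div_le_iff₀ (by positivity)]; linarith
      simp only [f]
      exact max_eq_left ((min_le_right _ _).trans (by linarith))
    have h2 := happ u
    rw [h1, sub_zero] at h2
    rw [hreal, Complex.norm_real, Real.norm_eq_abs]
    exact h2.le
  · intro u v W hW hv
    refine (hgr u v).2.trans ?_
    have a1 : C * |v| ≤ κ / 2 * W := by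
      have : |v| ≤ κ / (2 * C) * W := hv.trans (mul_le_mul_of_nonneg_right (min_le_left _ _) hW)
      calc C * |v| ≤ C * (κ / (2 * C) * W) := mul_le_mul_of_nonneg_left this hC.le
        _ = _ := by field_simp
    have a2 : C * |v| ≤ ε * (κ / 2 * W) := by
      have : |v| ≤ ε * κ / (2 * C) * W :=
        hv.trans (mul_le_mul_of_nonneg_right (min_le_right _ _) hW)
      calc C * |v| ≤ C * (ε * κ / (2 * C) * W) := mul_le_mul_of_nonneg_left this hC.le
        _ = _ := by field_simp
    have a3 : κ / 2 * W ≤ Real.exp (κ / 2 * W) := by linarith [Real.add_one_le_exp (κ / 2 * W)]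
    have a4 : Real.exp (κ * W) = Real.exp (κ / 2 * W) * Real.exp (κ / 2 * W) := by
      rw [← Real.exp_add]; congr 1; ring
    calc C * |v| * Real.exp (C * |v|) ≤ (ε * Real.exp (κ / 2 * W)) * Real.exp (κ / 2 * W) :=
          mul_le_mul (a2.trans (mul_le_mul_of_nonneg_left a3 hε.le)) (Real.exp_le_exp.2 a1)
            (Real.exp_pos _).le (by positivity)
      _ = _ := by rw [a4]; ring

end Pool.Agent.Lib.MP_442e5a_an
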