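import Pool.Agent.Lib.MP_442e5a_an.Step

set_option autoImplicit false

open MeasureTheory Set

namespace Pool.Agent.Lib.MP_442e5a_an

/-- The frequency attached to exponent `e`. -/
def lam (K e : ℕ) : ℕ := K ^ (2 * e)

/-- The angular step attached to exponent `e`. -/
noncomputable def hh (K e : ℕ) : ℝ := ((K : ℝ) ^ e)⁻¹

/-- The phase offset at a node. -/
noncomputable def off (K e : ℕ) (φ q r t : ℝ) : ℝ := lam K e * (t - 2 * φ * r + φ ^ 2 * q)

/-- Periodicity at the scale of exponent `e`. -/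
def Per {α : Type*} (K e : ℕ) (f : ℝ → α) : Prop := Function.Periodic f (1 / (lam K e : ℝ))

lemma lam_pos {K : ℕ} (hK : 0 < K) (e : ℕ) : 0 < lam K e := pow_pos hK _

lemma lam_add (K e d : ℕ) : lam K (e + d) = lam K e * lam K d := by
  unfold lam; rw [← pow_add]; congr 1; ring

lemma lam_succ (K e : ℕ) : lam K (e + 1) = lam K e * K ^ 2 := by
  rw [lam_add]; rfl

lemma lam_mono {K : ℕ} (hK : 0 < K) {e e' : ℕ} (h : e ≤ e') : lam K e ≤ lam K e' :=
  Nat.pow_le_pow_right hK (by omega)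

lemma Per.mono {α : Type*} {K e e' : ℕ} (hK : 0 < K) {f : ℝ → α} (hf : Per K e' f) (h : e ≤ e') :
    Per K e f := by
  obtain ⟨d, rfl⟩ := Nat.exists_eq_add_of_le h
  have h1 := hf.nat_mul (lam K d)
  have h2 : (0:ℝ) < lam K e := by exact_mod_cast lam_pos hK e
  have h3 : (0:ℝ) < lam K d := by exact_mod_cast lam_pos hK d
  have : (lam K d : ℝ) * (1 / (lam K (e + d) : ℝ)) = 1 / lam K e := by
    rw [lam_add]; push_cast; field_simp
  rwa [this] at h1

lemma Per.mul {K e : ℕ} {f g : ℝ → ℝ} (hf : Per K e f) (hg : Per K e g) :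
    Per K e (fun s => f s * g s) := fun s => by
  simp only [hf s, hg s]

lemma Per.add {K e : ℕ} {f g : ℝ → ℝ} (hf : Per K e f) (hg : Per K e g) :
    Per K e (fun s => f s + g s) := fun s => by
  simp only [hf s, hg s]

lemma Per.const (K e : ℕ) (c : ℝ) : Per K e (fun _ => c) := fun _ => rfl

lemma Per.arc {K : ℕ} (hK : 0 < K) (e : ℕ) (ρ t : ℝ) :
    Per K e (fun s => arc ρ (lam K e * s + t)) := by
  intro s
  have h2 : (0:ℝ) < lam K e := by exact_mod_cast lam_pos hK e
  have : (lam K e : ℝ) * (s + 1 / lam K e) + t = lam K e * s + t + (1 : ℕ) := by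
    push_cast; field_simp; ring
  simp only [this, arc_add_nat]

lemma integral_arc_lam {K e j : ℕ} (hK : 0 < K) (hj : j ≤ K ^ 2) {ρ : ℝ}
    (hρ : ρ = j / (K : ℝ) ^ 2) (t : ℝ) {Q : ℝ → ℝ} (hp : Per K (e + 1) Q)
    (hQ : ∀ a b, IntervalIntegrable Q volume a b) :
    ∫ s in (0:ℝ)..1, arc ρ (lam K e * s + t) * Q s = ρ * ∫ s in (0:ℝ)..1, Q s := by
  have h := integral_arc_mul (l := lam K e) (M := K ^ 2) (j := j) (lam_pos hK e) (pow_pos hK 2)
    hj t (Q := Q) (by
      have := hp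
      unfold Per at this
      rw [lam_succ] at this
      simpa using this) hQ
  rw [hρ]
  simpa using h

lemma integral_arc_half {K e : ℕ} (hK : 0 < K) (h2 : 2 ∣ K) (t : ℝ) {Q : ℝ → ℝ}
    (hp : Per K (e + 1) Q) (hQ : ∀ a b, IntervalIntegrable Q volume a b) :
    ∫ s in (0:ℝ)..1, arc (1 / 2) (lam K e * s + t) * Q s = 1 / 2 * ∫ s in (0:ℝ)..1, Q s := by
  obtain ⟨k, rfl⟩ := h2
  have hk : (0:ℝ) < k := by
    have : 0 < k := by omega
    exact_mod_cast this
  refine integral_arc_lam (j := 2 * k ^ 2) hK (by nlinarith) ?_ t hp hQ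
  push_cast; field_simp

section
variable (K : ℕ) (τ q r t : ℝ)

/-- Number of surviving paths. -/
noncomputable def cnt : ℕ → ℕ → ℝ → ℝ → ℝ
  | 0, _, _, _ => 1
  | n + 1, e, φ, s =>
    arc (1 / 2) (lam K e * s + off K e φ q r t) * cnt n (e + 1) φ s +
    arc (1 / 2) (lam K e * s + (off K e φ q r t - (q - τ) - 1 / 2)) *
      cnt n (e + 2 ^ n) (φ + hh K e) s

/-- Sum over surviving paths of the number of staying steps minus `k`. -/
noncomputable def gain : ℕ → ℕ → ℝ → ℝ → ℝ → ℝ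
  | 0, _, _, k, _ => -k
  | n + 1, e, φ, k, s =>
    arc (1 / 2) (lam K e * s + off K e φ q r t) * gain n (e + 1) φ (k - 1) s +
    arc (1 / 2) (lam K e * s + (off K e φ q r t - (q - τ) - 1 / 2)) *
      gain n (e + 2 ^ n) (φ + hh K e) k s

lemma BM_cnt (n e : ℕ) (φ : ℝ) : BM (cnt K τ q r t n e φ) := by
  induction n generalizing e φ with
  | zero => exact BM.const 1
  | succ n ih => exact ((BM.arc _ _ _).mul (ih _ _)).add ((BM.arc _ _ _).mul (ih _ _))

lemma BM_gain (n e : ℕ) (φ k : ℝ) : BM (gain K τ q r t n e φ k) := by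
  induction n generalizing e φ k with
  | zero => exact BM.const (-k)
  | succ n ih => exact ((BM.arc _ _ _).mul (ih _ _ _)).add ((BM.arc _ _ _).mul (ih _ _ _))

lemma cnt_nonneg (n e : ℕ) (φ s : ℝ) : 0 ≤ cnt K τ q r t n e φ s := by
  induction n generalizing e φ with
  | zero => exact zero_le_one
  | succ n ih =>
    exact add_nonneg (mul_nonneg (arc_nonneg _ _) (ih _ _)) (mul_nonneg (arc_nonneg _ _) (ih _ _))

lemma abs_gain_le (n e : ℕ) (φ k s : ℝ) :
    |gain K τ q r t n e φ k s| ≤ (|k| + n) * cnt K τ q r t n e φ s := by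
  induction n generalizing e φ k with
  | zero => simp [gain, cnt]
  | succ n ih =>
    simp only [gain, cnt]
    refine (abs_add_le _ _).trans ?_
    rw [abs_mul, abs_mul, abs_of_nonneg (arc_nonneg _ _), abs_of_nonneg (arc_nonneg _ _), mul_add]
    have h1 := ih (e + 1) φ (k - 1)
    have h2 := ih (e + 2 ^ n) (φ + hh K e) k
    have h3 := cnt_nonneg K τ q r t n (e + 1) φ s
    have h4 := cnt_nonneg K τ q r t n (e + 2 ^ n) (φ + hh K e) s
    have h5 : |k - 1| ≤ |k| + 1 := by simpa using abs_sub k 1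
    apply add_le_add
    · rw [mul_left_comm]
      refine mul_le_mul_of_nonneg_left (h1.trans ?_) (arc_nonneg _ _)
      push_cast
      exact mul_le_mul_of_nonneg_right (by linarith) h3
    · rw [mul_left_comm]
      refine mul_le_mul_of_nonneg_left (h2.trans ?_) (arc_nonneg _ _)
      push_cast
      exact mul_le_mul_of_nonneg_right (by linarith) h4

variable {K}

lemma Per_cnt (hK : 0 < K) (n e : ℕ) (φ : ℝ) : Per K e (cnt K τ q r t n e φ) := by
  induction n generalizing e φ with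
  | zero => exact Per.const K e 1
  | succ n ih =>
    exact ((Per.arc hK e _ _).mul ((ih _ _).mono hK (Nat.le_succ e))).add
      ((Per.arc hK e _ _).mul ((ih _ _).mono hK (Nat.le_add_right _ _)))

lemma Per_gain (hK : 0 < K) (n e : ℕ) (φ k : ℝ) : Per K e (gain K τ q r t n e φ k) := by
  induction n generalizing e φ k with
  | zero => exact Per.const K e (-k)
  | succ n ih =>
    exact ((Per.arc hK e _ _).mul ((ih _ _ _).mono hK (Nat.le_succ e))).add
      ((Per.arc hK e _ _).mul ((ih _ _ _).mono hK (Nat.le_add_right _ _)))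

lemma one_le_two_pow' (n : ℕ) : 1 ≤ 2 ^ n := Nat.one_le_two_pow

lemma integral_cnt_mul (hK : 0 < K) (h2 : 2 ∣ K) (n e : ℕ) (φ : ℝ) {E : ℕ} (hE : e + 2 ^ n ≤ E + 1)
    {Q : ℝ → ℝ} (hQ : BM Q) (hp : Per K E Q) :
    ∫ s in (0:ℝ)..1, cnt K τ q r t n e φ s * Q s = ∫ s in (0:ℝ)..1, Q s := by
  induction n generalizing e φ with
  | zero => simp [cnt]
  | succ n ih =>
    have h1 := one_le_two_pow' n
    have hpow : 2 ^ (n + 1) = 2 ^ n + 2 ^ n := by ring
    simp only [cnt, add_mul, mul_assoc]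
    have b0 := (BM_cnt K τ q r t n (e + 1) φ).mul hQ
    have b1 := (BM_cnt K τ q r t n (e + 2 ^ n) (φ + hh K e)).mul hQ
    rw [intervalIntegral.integral_add (((BM.arc _ _ _).mul b0).ii 0 1)
      (((BM.arc _ _ _).mul b1).ii 0 1),
      integral_arc_half hK h2 _ ((Per_cnt τ q r t hK n (e + 1) φ).mul (hp.mono hK (by omega)))
        b0.ii,
      integral_arc_half hK h2 _ (((Per_cnt τ q r t hK n (e + 2 ^ n) _).mono hK (by omega)).mul
        (hp.mono hK (by omega))) b1.ii,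
      ih _ _ (by omega), ih _ _ (by omega)]
    ring

lemma integral_cnt (hK : 0 < K) (h2 : 2 ∣ K) (n e : ℕ) (φ : ℝ) :
    ∫ s in (0:ℝ)..1, cnt K τ q r t n e φ s = 1 := by
  have := integral_cnt_mul τ q r t hK h2 n e φ (E := e + 2 ^ n) (by omega) (BM.const 1)
    (Per.const K _ 1)
  simpa using this

lemma integral_gain (hK : 0 < K) (h2 : 2 ∣ K) (n e : ℕ) (φ k : ℝ) :
    ∫ s in (0:ℝ)..1, gain K τ q r t n e φ k s = n / 2 - k := by
  induction n generalizing e φ k with
  | zero => simp [gain]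
  | succ n ih =>
    have h1 := one_le_two_pow' n
    simp only [gain]
    have b0 := BM_gain K τ q r t n (e + 1) φ (k - 1)
    have b1 := BM_gain K τ q r t n (e + 2 ^ n) (φ + hh K e) k
    rw [intervalIntegral.integral_add (((BM.arc _ _ _).mul b0).ii 0 1)
      (((BM.arc _ _ _).mul b1).ii 0 1),
      integral_arc_half hK h2 _ (Per_gain τ q r t hK n (e + 1) φ _) b0.ii,
      integral_arc_half hK h2 _ ((Per_gain τ q r t hK n (e + 2 ^ n) _ _).mono hK (by omega)) b1.ii,
      ih, ih]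
    push_cast
    ring

lemma arc_overlap {γ d : ℝ} (hd : 0 ≤ d) (hdγ : d ≤ γ) (u : ℝ) :
    arc (1 / 2) u * arc (1 / 2) (u - d - 1 / 2) ≤ arc γ u := by
  unfold arc
  split_ifs with h1 h2 h3 <;> try norm_num
  exfalso
  have h4 : Int.fract (u - d - 1 / 2) = Int.fract u - d + 1 / 2 := by
    rw [Int.fract_eq_iff]
    refine ⟨by linarith, by linarith, ⌊u⌋ - 1, ?_⟩
    have := Int.self_sub_floor u
    push_cast
    linarith
  linarith

lemma integral_cnt_sq (hK : 0 < K) (h2 : 2 ∣ K) {j : ℕ} (hj : j ≤ K ^ 2) {γ : ℝ}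
    (hγ : γ = j / (K : ℝ) ^ 2) (hd : 0 ≤ q - τ) (hdγ : q - τ ≤ γ) (n e : ℕ) (φ : ℝ) :
    ∫ s in (0:ℝ)..1, cnt K τ q r t n e φ s * cnt K τ q r t n e φ s ≤ 1 + 2 * n * γ := by
  induction n generalizing e φ with
  | zero => simp [cnt]
  | succ n ih =>
    have h1 := one_le_two_pow' n
    have b0 := BM_cnt K τ q r t n (e + 1) φ
    have b1 := BM_cnt K τ q r t n (e + 2 ^ n) (φ + hh K e)
    have p0 := Per_cnt τ q r t hK n (e + 1) φ
    have p1' := Per_cnt τ q r t hK n (e + 2 ^ n) (φ + hh K e)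
    have p1 := p1'.mono hK (show e + 1 ≤ e + 2 ^ n by omega)
    set c0 := cnt K τ q r t n (e + 1) φ
    set c1 := cnt K τ q r t n (e + 2 ^ n) (φ + hh K e)
    set o := off K e φ q r t
    have hpt : ∀ s, cnt K τ q r t (n + 1) e φ s * cnt K τ q r t (n + 1) e φ s ≤
        arc (1 / 2) (lam K e * s + o) * (c0 s * c0 s) +
        arc (1 / 2) (lam K e * s + (o - (q - τ) - 1 / 2)) * (c1 s * c1 s) +
        2 * (arc γ (lam K e * s + o) * (c0 s * c1 s)) := by
      intro s
      simp only [cnt]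
      have h3 := arc_overlap hd hdγ (lam K e * s + o)
      have h4 : (lam K e : ℝ) * s + o - (q - τ) - 1 / 2 = lam K e * s + (o - (q - τ) - 1 / 2) := by
        ring
      rw [h4] at h3
      have h5 := arc_mul_self (1 / 2) (lam K e * s + o)
      have h6 := arc_mul_self (1 / 2) (lam K e * s + (o - (q - τ) - 1 / 2))
      have h7 : 0 ≤ c0 s * c1 s := mul_nonneg (cnt_nonneg _ _ _ _ _ _ _ _ _)
        (cnt_nonneg _ _ _ _ _ _ _ _ _)
      set a0 := arc (1 / 2) (lam K e * s + o)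
      set a1 := arc (1 / 2) (lam K e * s + (o - (q - τ) - 1 / 2))
      have h8 := mul_le_mul_of_nonneg_right h3 h7
      change (a0 * c0 s + a1 * c1 s) * (a0 * c0 s + a1 * c1 s) ≤ _
      calc (a0 * c0 s + a1 * c1 s) * (a0 * c0 s + a1 * c1 s)
          = (a0 * a0) * (c0 s * c0 s) + (a1 * a1) * (c1 s * c1 s) + 2 * (a0 * a1 * (c0 s * c1 s)) := by
            ring
        _ ≤ _ := by rw [h5, h6]; linarith
    have bA := (BM.arc (1 / 2) (lam K e) o).mul (b0.mul b0)
    have bB := (BM.arc (1 / 2) (lam K e) (o - (q - τ) - 1 / 2)).mul (b1.mul b1)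
    have bC := (BM.const 2).mul ((BM.arc γ (lam K e) o).mul (b0.mul b1))
    have hint := intervalIntegral.integral_mono_on (μ := volume) (by norm_num : (0:ℝ) ≤ 1)
      (((BM_cnt K τ q r t (n + 1) e φ).mul (BM_cnt K τ q r t (n + 1) e φ)).ii 0 1)
      (((bA.add bB).add bC).ii 0 1) (fun s _ => hpt s)
    refine hint.trans ?_
    rw [intervalIntegral.integral_add ((bA.add bB).ii 0 1) (bC.ii 0 1),
      intervalIntegral.integral_add (bA.ii 0 1) (bB.ii 0 1), intervalIntegral.integral_const_mul,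
      integral_arc_half hK h2 _ (p0.mul p0) (b0.mul b0).ii,
      integral_arc_half hK h2 _ (p1.mul p1) (b1.mul b1).ii,
      integral_arc_lam hK hj hγ _ (p0.mul p1) (b0.mul b1).ii,
      integral_cnt_mul τ q r t hK h2 n (e + 1) φ (E := e + 2 ^ n) (by omega) b1 p1',
      integral_cnt τ q r t hK h2]
    have i0 := ih (e + 1) φ
    have i1 := ih (e + 2 ^ n) (φ + hh K e)
    push_cast
    linarith

end

/-- Abstract second moment bound for a family of trees. -/
lemma forest_second_moment {ι : Type*} (T : Finset ι) (Y N : ι → ℝ → ℝ) (V : ι → ℝ) {y C : ℝ}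
    (hy : 0 < y) (hC : 0 < C) (hV : ∀ i ∈ T, 0 < V i)
    (hYb : ∀ i ∈ T, BM (Y i)) (hNb : ∀ i ∈ T, BM (N i))
    (hY : ∀ i ∈ T, ∫ s in (0:ℝ)..1, Y i s = y)
    (hYN : ∀ i ∈ T, ∀ s, |Y i s| ≤ C * N i s)
    (hNN : ∀ i ∈ T, ∫ s in (0:ℝ)..1, N i s * N i s ≤ V i)
    (hNN' : ∀ i ∈ T, ∀ j ∈ T, i ≠ j → ∫ s in (0:ℝ)..1, N i s * N j s ≤ 1)
    (hW : 1 ≤ ∑ i ∈ T, (V i)⁻¹) :
    ENNReal.ofReal (y ^ 2 / (2 * C ^ 2)) ≤ volume ({s | ∃ i ∈ T, 0 < Y i s} ∩ Ioc 0 1) := by
  classical
  set W := ∑ i ∈ T, (V i)⁻¹ with hWdef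
  have hWpos : 0 < W := by linarith
  set Z : ℝ → ℝ := fun s => ∑ i ∈ T, (V i)⁻¹ * Y i s with hZ
  set M : ℝ → ℝ := fun s => ∑ i ∈ T, (V i)⁻¹ * N i s with hM
  have hZb : BM Z := BM.sum T fun i hi => (BM.const _).mul (hYb i hi)
  have hMb : BM M := BM.sum T fun i hi => (BM.const _).mul (hNb i hi)
  have h1 : ∫ s in (0:ℝ)..1, Z s = W * y := by
    rw [hZ, intervalIntegral.integral_finsetSum
      (fun i hi => ((BM.const _).mul (hYb i hi)).ii 0 1), hWdef, Finset.sum_mul]
    refine Finset.sum_congr rfl fun i hi => ?_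
    rw [intervalIntegral.integral_const_mul, hY i hi]
  have hZM : ∀ s, |Z s| ≤ C * M s := by
    intro s
    refine (Finset.abs_sum_le_sum_abs _ _).trans ?_
    rw [hM, Finset.mul_sum]
    refine Finset.sum_le_sum fun i hi => ?_
    have := inv_pos.2 (hV i hi)
    rw [abs_mul, abs_of_pos this, mul_left_comm]
    exact mul_le_mul_of_nonneg_left (hYN i hi s) this.le
  have h2 : ∫ s in (0:ℝ)..1, M s * M s ≤ W + W ^ 2 := by
    have e1 : ∀ s, M s * M s = ∑ i ∈ T, ∑ j ∈ T, (V i)⁻¹ * (V j)⁻¹ * (N i s * N j s) := by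
      intro s
      rw [hM, Finset.sum_mul_sum]
      refine Finset.sum_congr rfl fun i _ => Finset.sum_congr rfl fun j _ => by ring
    simp only [e1]
    rw [intervalIntegral.integral_finsetSum (fun i hi => (BM.sum T fun j hj =>
      (BM.const _).mul ((hNb i hi).mul (hNb j hj))).ii 0 1)]
    have e2 : W + W ^ 2 = ∑ i ∈ T, ((V i)⁻¹ + ∑ j ∈ T, (V i)⁻¹ * (V j)⁻¹) := by
      rw [Finset.sum_add_distrib, sq, hWdef, Finset.sum_mul_sum]
    rw [e2]
    refine Finset.sum_le_sum fun i hi => ?_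
    rw [intervalIntegral.integral_finsetSum (fun j hj =>
      ((BM.const _).mul ((hNb i hi).mul (hNb j hj))).ii 0 1)]
    have e3 : (V i)⁻¹ = ∑ j ∈ T, if j = i then (V i)⁻¹ else 0 := by simp [hi]
    nth_rewrite 2 [e3]
    rw [← Finset.sum_add_distrib]
    refine Finset.sum_le_sum fun j hj => ?_
    rw [intervalIntegral.integral_const_mul]
    have hi0 := inv_pos.2 (hV i hi)
    have hj0 := inv_pos.2 (hV j hj)
    by_cases hij : j = i
    · subst hij
      rw [if_pos rfl]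
      have := mul_le_mul_of_nonneg_left (hNN j hj) (mul_pos hj0 hj0).le
      have e4 : (V j)⁻¹ * (V j)⁻¹ * V j = (V j)⁻¹ := by
        have := (hV j hj).ne'
        field_simp
      nlinarith [mul_pos hj0 hj0]
    · rw [if_neg hij, zero_add]
      simpa using mul_le_mul_of_nonneg_left (hNN' i hi j hj (Ne.symm hij)) (mul_pos hi0 hj0).le
  have h3 : ∫ s in (0:ℝ)..1, Z s * Z s ≤ C ^ 2 * (2 * W ^ 2) := by
    have hpt : ∀ s, Z s * Z s ≤ C ^ 2 * (M s * M s) := by
      intro s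
      have := hZM s
      have h0 := abs_nonneg (Z s)
      rw [← abs_mul_abs_self]
      nlinarith
    have hint := intervalIntegral.integral_mono_on (μ := volume) (by norm_num : (0:ℝ) ≤ 1)
      ((hZb.mul hZb).ii 0 1) (((BM.const (C ^ 2)).mul (hMb.mul hMb)).ii 0 1) (fun s _ => hpt s)
    rw [intervalIntegral.integral_const_mul] at hint
    refine hint.trans (mul_le_mul_of_nonneg_left (h2.trans ?_) (by positivity))
    nlinarith
  have h4 := second_moment hZb (I := W * y) (by positivity) h1.ge h3 (by positivity)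
  have e5 : (W * y) ^ 2 / (C ^ 2 * (2 * W ^ 2)) = y ^ 2 / (2 * C ^ 2) := by field_simp
  rw [e5] at h4
  refine h4.trans (measure_mono (inter_subset_inter_left _ fun s hs => ?_))
  by_contra hcon
  simp only [mem_ofPred_eq, not_exists, not_and, not_lt] at hcon hs
  have : Z s ≤ 0 := Finset.sum_nonpos fun i hi =>
    mul_nonpos_of_nonneg_of_nonpos (inv_pos.2 (hV i hi)).le (hcon i hi)
  linarith

end Pool.Agent.Lib.MP_442e5a_an
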