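import Pool.Agent.Lib.MP_442e5a_an.Sum

set_option autoImplicit false

open MeasureTheory Set Complex Filter Metric
open scoped Real ComplexConjugate Topology ENNReal

namespace Pool.Agent.Lib.MP_442e5a_an

/-- Index set of the coordinates of a symmetric two by two matrix. -/
abbrev Ix : Type := {p : Fin 2 × Fin 2 // p.1 ≤ p.2}

/-- The upper left entry. -/
def i00 : Ix := ⟨(0, 0), le_rfl⟩
/-- The off-diagonal entry. -/
def i01 : Ix := ⟨(0, 1), by decide⟩
/-- The lower right entry. -/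
def i11 : Ix := ⟨(1, 1), le_rfl⟩

lemma Ix.cases (k : Ix) : k = i00 ∨ k = i01 ∨ k = i11 := by
  revert k; decide

lemma card_Ix : Fintype.card Ix = 3 := by decide

/-- The symmetric matrix with given coordinates. -/
def SS (y : Ix → ℝ) : Matrix (Fin 2) (Fin 2) ℝ :=
  Matrix.of (fun (i j : Fin 2) => if h : i ≤ j then y ⟨(i, j), h⟩ else y ⟨(j, i), (not_le.mp h).le⟩)

lemma SS_eq (y : Ix → ℝ) : SS y = !![y i00, y i01; y i01, y i11] := by
  ext i j
  fin_cases i <;> fin_cases j <;> rfl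

lemma posDef_iff (y : Ix → ℝ) : (SS y).PosDef ↔ Pos (y i00) (y i01) (y i11) := by
  rw [SS_eq]
  constructor
  · intro h
    have h1 := h.diag_pos (i := 0)
    have h2 := h.det_pos
    rw [Matrix.det_fin_two_of] at h2
    exact ⟨by simpa using h1, by nlinarith⟩
  · intro h
    rw [Matrix.posDef_iff_dotProduct_mulVec]
    refine ⟨?_, fun x hx => ?_⟩
    · ext i j
      fin_cases i <;> fin_cases j <;> simp
    · have e : star x ⬝ᵥ (Matrix.mulVec !![y i00, y i01; y i01, y i11] x) =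
          y i00 * x 0 ^ 2 + 2 * y i01 * x 0 * x 1 + y i11 * x 1 ^ 2 := by
        simp [dotProduct, Matrix.mulVec, Fin.sum_univ_two]
        ring
      rw [e]
      have ha := h.1
      have hd : 0 < y i00 * y i11 - y i01 ^ 2 := by linarith [h.2]
      have key : 0 < y i00 * (y i00 * x 0 ^ 2 + 2 * y i01 * x 0 * x 1 + y i11 * x 1 ^ 2) := by
        have e2 : y i00 * (y i00 * x 0 ^ 2 + 2 * y i01 * x 0 * x 1 + y i11 * x 1 ^ 2) =
            (y i00 * x 0 + y i01 * x 1) ^ 2 + (y i00 * y i11 - y i01 ^ 2) * x 1 ^ 2 := by ring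
        rw [e2]
        by_cases h1 : x 1 = 0
        · have h0 : x 0 ≠ 0 := by
            intro h0
            apply hx
            ext i
            fin_cases i
            · exact h0
            · exact h1
          rw [h1]
          have : 0 < (y i00 * x 0) ^ 2 := by positivity
          simpa using this
        · positivity
      exact (pos_iff_pos_of_mul_pos key).1 ha

/-- The decaying factor. -/
noncomputable def dec (z0 z1 z2 : ℂ) : ℂ :=
  (((z0 + I) * (z2 + I) * (z0 + 2 * z1 + z2 + I)) ^ 2)⁻¹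

lemma Pos.third {a b c : ℝ} (h : Pos a b c) : 0 ≤ a + 2 * b + c := by
  have := h.cone.QQ_nonneg (-1)
  unfold QQ at this
  linarith

lemma sq_norm_add_I {z : ℂ} (h : 0 ≤ z.im) : z.re ^ 2 + 1 ≤ ‖z + I‖ ^ 2 := by
  rw [Complex.sq_norm, Complex.normSq_apply]
  simp only [add_re, I_re, add_zero, add_im, I_im]
  nlinarith

lemma add_I_ne_zero {z : ℂ} (h : 0 ≤ z.im) : z + I ≠ 0 := by
  intro h0
  have := sq_norm_add_I h
  rw [h0, norm_zero] at this
  nlinarith [sq_nonneg z.re]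

lemma dec_le {z0 z1 z2 : ℂ} (h : Pos z0.im z1.im z2.im) {X : ℝ} (hX : 0 ≤ X)
    (hX' : X ≤ |z0.re| ∨ X ≤ |z1.re| ∨ X ≤ |z2.re|) :
    ‖dec z0 z1 z2‖ ^ 2 ≤ 4 * (1 + X) ^ (-(4:ℝ)) := by
  have a0 := sq_norm_add_I h.1.le
  have a2 := sq_norm_add_I h.cone.2.1
  have a3 := sq_norm_add_I (z := z0 + 2 * z1 + z2) (by simpa using h.third)
  have e3 : (z0 + 2 * z1 + z2).re = z0.re + 2 * z1.re + z2.re := by simp
  rw [e3] at a3
  set q := z0.re
  set r := z1.re
  set s := z2.re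
  set l := q + 2 * r + s with hl
  have hX2 : X ^ 2 ≤ q ^ 2 + s ^ 2 + l ^ 2 := by
    rcases hX' with h1 | h1 | h1
    · have := pow_le_pow_left₀ hX h1 2
      rw [sq_abs] at this
      nlinarith [sq_nonneg s, sq_nonneg l]
    · have := pow_le_pow_left₀ hX h1 2
      rw [sq_abs] at this
      have e : r = (l - q - s) / 2 := by rw [hl]; ring
      rw [e] at this
      nlinarith [sq_nonneg (l + q), sq_nonneg (l + s), sq_nonneg (q - s), sq_nonneg q, sq_nonneg s,
        sq_nonneg l]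
    · have := pow_le_pow_left₀ hX h1 2
      rw [sq_abs] at this
      nlinarith [sq_nonneg q, sq_nonneg l]
  set P := ‖(z0 + I) * (z2 + I) * (z0 + 2 * z1 + z2 + I)‖ with hP
  have hP1 : (q ^ 2 + 1) * (s ^ 2 + 1) * (l ^ 2 + 1) ≤ P ^ 2 := by
    rw [hP, norm_mul, norm_mul, mul_pow, mul_pow]
    gcongr
  have hP2 : (1 + X) ^ 2 ≤ 2 * P ^ 2 := by
    have : 1 + q ^ 2 + s ^ 2 + l ^ 2 ≤ (q ^ 2 + 1) * (s ^ 2 + 1) * (l ^ 2 + 1) := by
      have b1 := mul_nonneg (sq_nonneg q) (sq_nonneg s)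
      have b2 := mul_nonneg (sq_nonneg q) (sq_nonneg l)
      have b3 := mul_nonneg (sq_nonneg s) (sq_nonneg l)
      have b4 := mul_nonneg b1 (sq_nonneg l)
      nlinarith
    nlinarith [sq_nonneg (X - 1)]
  have hP0 : 0 < P ^ 2 := by nlinarith [sq_nonneg X]
  unfold dec
  rw [norm_inv, norm_pow, ← hP, Real.rpow_neg (by positivity), inv_pow, ← div_eq_mul_inv,
    inv_eq_one_div, div_le_div_iff₀ (by positivity) (by positivity)]
  have e4 : (1 + X) ^ (4:ℝ) = ((1 + X) ^ 2) ^ 2 := by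
    rw [show (4:ℝ) = ((4:ℕ):ℝ) by norm_num, Real.rpow_natCast]; ring
  rw [e4, one_mul]
  have := pow_le_pow_left₀ (by positivity) hP2 2
  nlinarith

lemma dec_ge {z0 z1 z2 : ℂ} (h : Pos z0.im z1.im z2.im) (h0 : ‖z0‖ ≤ 9) (h1 : ‖z1‖ ≤ 9)
    (h2 : ‖z2‖ ≤ 9) : 1 / 4000 ^ 2 ≤ ‖dec z0 z1 z2‖ := by
  have a0 := add_I_ne_zero h.1.le
  have a2 := add_I_ne_zero h.cone.2.1
  have a3 := add_I_ne_zero (z := z0 + 2 * z1 + z2) (by simpa using h.third)
  have b0 : ‖z0 + I‖ ≤ 10 := (norm_add_le _ _).trans (by simp; linarith)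
  have b2 : ‖z2 + I‖ ≤ 10 := (norm_add_le _ _).trans (by simp; linarith)
  have b3 : ‖z0 + 2 * z1 + z2 + I‖ ≤ 40 := by
    refine (norm_add_le _ _).trans ?_
    have := norm_add₃_le (a := z0) (b := 2 * z1) (c := z2)
    simp only [norm_mul, Complex.norm_ofNat, Complex.norm_I] at this ⊢
    linarith
  unfold dec
  rw [norm_inv, norm_pow, one_div]
  apply inv_anti₀
  · exact pow_pos (norm_pos_iff.2 (mul_ne_zero (mul_ne_zero a0 a2) a3)) 2
  · apply pow_le_pow_left₀ (norm_nonneg _)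
    rw [norm_mul, norm_mul]
    calc _ ≤ (10:ℝ) * 10 * 40 := by gcongr
      _ = 4000 := by norm_num

lemma dec_differentiableAt {p : ℂ × ℂ × ℂ} (h : Pos p.1.im p.2.1.im p.2.2.im) :
    DifferentiableAt ℂ (fun p : ℂ × ℂ × ℂ => dec p.1 p.2.1 p.2.2) p := by
  have a0 := add_I_ne_zero h.1.le
  have a2 := add_I_ne_zero h.cone.2.1
  have a3 := add_I_ne_zero (z := p.1 + 2 * p.2.1 + p.2.2) (by simpa using h.third)
  unfold dec
  refine DifferentiableAt.inv (by fun_prop) ?_
  exact pow_ne_zero _ (mul_ne_zero (mul_ne_zero a0 a2) a3)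

/-- The unit vector of the lower right entry. -/
def e11 : Ix → ℝ := Pi.single i11 1

lemma e11_00 : e11 i00 = 0 := by unfold e11; rw [Pi.single_eq_of_ne (by decide)]
lemma e11_01 : e11 i01 = 0 := by unfold e11; rw [Pi.single_eq_of_ne (by decide)]
lemma e11_11 : e11 i11 = 1 := by unfold e11; rw [Pi.single_eq_same]
lemma norm_e11 : ‖e11‖ = 1 := by unfold e11; rw [Pi.norm_single]; simp

lemma norm_cases (x : Ix → ℝ) : ‖x‖ ≤ |x i00| ∨ ‖x‖ ≤ |x i01| ∨ ‖x‖ ≤ |x i11| := by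
  by_contra h
  simp only [not_or, not_le] at h
  have hpos : 0 < ‖x‖ := lt_of_le_of_lt (abs_nonneg _) h.1
  have := (pi_norm_lt_iff (x := x) hpos).2 (fun k => by
    rcases Ix.cases k with rfl | rfl | rfl
    · exact h.1
    · exact h.2.1
    · exact h.2.2)
  exact lt_irrefl _ this

/-- The integrable weight. -/
noncomputable def wt (x : Ix → ℝ) : ℝ≥0∞ := ENNReal.ofReal ((1 + ‖x‖) ^ (-(4:ℝ)))

lemma measurable_wt : Measurable wt := by
  unfold wt
  exact ENNReal.measurable_ofReal.comp (by fun_prop)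

lemma lintegral_wt : ∫⁻ x, wt x < ⊤ := by
  refine finite_integral_one_add_norm ?_
  rw [Module.finrank_fintype_fun_eq_card, card_Ix]
  norm_num

lemma wt_le (x : Ix → ℝ) {t : ℝ} (ht : t ∈ Ioc (0:ℝ) 1) : wt (x + t • e11) ≤ 16 * wt x := by
  unfold wt
  rw [show (16 : ℝ≥0∞) = ENNReal.ofReal 16 by simp, ← ENNReal.ofReal_mul (by norm_num)]
  apply ENNReal.ofReal_le_ofReal
  have h1 : ‖x‖ ≤ ‖x + t • e11‖ + 1 := by
    have := norm_sub_le (x + t • e11) (t • e11)
    rw [add_sub_cancel_right, norm_smul, norm_e11, Real.norm_eq_abs, abs_of_pos ht.1] at this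
    linarith [ht.2]
  have h0 := norm_nonneg x
  have h0' := norm_nonneg (x + t • e11)
  rw [Real.rpow_neg (by positivity), Real.rpow_neg (by positivity), ← div_eq_mul_inv,
    inv_eq_one_div, div_le_div_iff₀ (by positivity) (by positivity),
    show (4:ℝ) = ((4:ℕ):ℝ) by norm_num, Real.rpow_natCast, Real.rpow_natCast, one_mul]
  calc (1 + ‖x‖) ^ 4 ≤ (2 * (1 + ‖x + t • e11‖)) ^ 4 :=
        pow_le_pow_left₀ (by positivity) (by linarith) 4
    _ = _ := by ring

lemma lintegral_wt_mul {f : (Ix → ℝ) → ℝ≥0∞} (hf : Measurable f) {B : ℝ≥0∞}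
    (hB : ∀ x, ∫⁻ t in Ioc (0:ℝ) 1, f (x + t • e11) ≤ B) :
    ∫⁻ x, wt x * f x ≤ 16 * (∫⁻ x, wt x) * B := by
  have h1 : ∀ t ∈ Ioc (0:ℝ) 1, ∫⁻ x, wt x * f x ≤ ∫⁻ x, 16 * wt x * f (x + t • e11) := by
    intro t ht
    rw [← lintegral_add_right_eq_self (fun x => wt x * f x) (t • e11)]
    exact lintegral_mono fun x => mul_le_mul_left (wt_le x ht) _
  have hm : Measurable (fun p : ℝ × (Ix → ℝ) => 16 * wt p.2 * f (p.2 + p.1 • e11)) :=
    ((measurable_wt.comp measurable_snd).const_mul 16).mul (hf.comp (by fun_prop))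
  calc ∫⁻ x, wt x * f x = ∫⁻ _ in Ioc (0:ℝ) 1, ∫⁻ x, wt x * f x := by simp
    _ ≤ ∫⁻ t in Ioc (0:ℝ) 1, ∫⁻ x, 16 * wt x * f (x + t • e11) :=
        setLIntegral_mono' measurableSet_Ioc h1
    _ = ∫⁻ x, ∫⁻ t in Ioc (0:ℝ) 1, 16 * wt x * f (x + t • e11) :=
        lintegral_lintegral_swap hm.aemeasurable
    _ ≤ ∫⁻ x, 16 * wt x * B := by
        refine lintegral_mono fun x => ?_
        rw [lintegral_const_mul (f := fun t : ℝ => f (x + t • e11)) _ (hf.comp (by fun_prop))]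
        exact mul_le_mul_right (hB x) _
    _ = _ := by
        rw [lintegral_mul_const _ (measurable_wt.const_mul 16), lintegral_const_mul _ measurable_wt]

lemma exists_good_line {P : (Ix → ℝ) → Prop} (h : ∀ᵐ x : Ix → ℝ, P x) :
    ∃ x : Ix → ℝ, x i00 ∈ Ioo (1:ℝ) 2 ∧ x i01 ∈ Ioo (0:ℝ) 1 ∧ x i11 ∈ Ioo (0:ℝ) 1 ∧
      ∀ᵐ t : ℝ, P (x + t • e11) := by
  obtain ⟨Z, hZ, hZm, hZ0⟩ := exists_measurable_superset_of_null (ae_iff.1 h)
  have h1 : ∀ᵐ t : ℝ, ∀ᵐ x : Ix → ℝ, x + t • e11 ∉ Z := by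
    refine Eventually.of_forall fun t => ?_
    exact (measurePreserving_add_right volume (t • e11)).quasiMeasurePreserving.ae
      (p := fun x => x ∉ Z) (measure_eq_zero_iff_ae_notMem.1 hZ0)
  have hm : MeasurableSet {p : (Ix → ℝ) × ℝ | p.1 + p.2 • e11 ∉ Z} :=
    (hZm.preimage (f := fun p : (Ix → ℝ) × ℝ => p.1 + p.2 • e11) (by fun_prop)).compl
  have h2 := (Measure.ae_ae_comm (μ := (volume : Measure (Ix → ℝ))) (ν := (volume : Measure ℝ))
    (p := fun x t => x + t • e11 ∉ Z) hm).2 h1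
  let B : Set (Ix → ℝ) := {x | x i00 ∈ Ioo (1:ℝ) 2 ∧ x i01 ∈ Ioo (0:ℝ) 1 ∧ x i11 ∈ Ioo (0:ℝ) 1}
  have hBo : IsOpen B :=
    (isOpen_Ioo.preimage (continuous_apply i00)).inter
      ((isOpen_Ioo.preimage (continuous_apply i01)).inter
        (isOpen_Ioo.preimage (continuous_apply i11)))
  have hBn : B.Nonempty := ⟨fun k => if k = i00 then 3 / 2 else 1 / 2, by
    refine ⟨?_, ?_, ?_⟩
    · beta_reduce; rw [if_pos rfl]; norm_num
    · beta_reduce; rw [if_neg (show ¬ i01 = i00 by decide)]; norm_num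
    · beta_reduce; rw [if_neg (show ¬ i11 = i00 by decide)]; norm_num⟩
  obtain ⟨x, hxB, hx⟩ := Measure.exists_mem_of_measure_ne_zero_of_ae
    (hBo.measure_pos volume hBn).ne' (ae_restrict_of_ae h2)
  refine ⟨x, hxB.1, hxB.2.1, hxB.2.2, ?_⟩
  filter_upwards [hx] with t ht
  by_contra hP
  exact ht (hZ hP)

theorem exists_counterexample : ∃ u : (Ix → ℂ) → ℂ,
    DifferentiableOn ℂ u {z : Ix → ℂ | (SS (fun k => (z k).im)).PosDef} ∧
    (∃ C : ℝ, ∀ y : Ix → ℝ, (SS y).PosDef →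
      ∫⁻ x : Ix → ℝ, ‖u (fun k => (x k : ℂ) + (y k : ℂ) * I)‖ₑ ^ 2 ≤ ENNReal.ofReal C) ∧
    ¬ ∀ᵐ x : Ix → ℝ, ∃ M : ℝ, ∀ y : Ix → ℝ, (SS y).PosDef →
      ‖u (fun k => (x k : ℂ) + (y k : ℂ) * I)‖ ≤ M := by
  obtain ⟨H, hH1, hH2, hH3⟩ := exists_H
  refine ⟨fun z => dec (z i00) (z i01) (z i11) * H (z i00) (z i01) (z i11), ?_, ?_, ?_⟩
  · intro z hz
    have hp : Pos (z i00).im (z i01).im (z i11).im := (posDef_iff _).1 hz
    have hc : DifferentiableAt ℂ (fun z : Ix → ℂ => (z i00, z i01, z i11)) z := by fun_prop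
    exact (((dec_differentiableAt (p := (z i00, z i01, z i11)) hp).mul
      (hH1 (z i00, z i01, z i11) hp)).comp z hc).differentiableWithinAt
  · refine ⟨(4 * (16 * (∫⁻ x, wt x) * 4)).toReal, fun y hy => ?_⟩
    have hp : Pos (y i00) (y i01) (y i11) := (posDef_iff _).1 hy
    rw [ENNReal.ofReal_toReal (by have := lintegral_wt.ne; finiteness)]
    let f : (Ix → ℝ) → ℝ≥0∞ := fun x =>
      ‖H (x i00 + y i00 * I) (x i01 + y i01 * I) (x i11 + y i11 * I)‖ₑ ^ 2
    have hf : Measurable f := by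
      have : Continuous (fun x : Ix → ℝ =>
          H (x i00 + y i00 * I) (x i01 + y i01 * I) (x i11 + y i11 * I)) := by
        rw [continuous_iff_continuousAt]
        intro x
        exact ContinuousAt.comp (g := fun p : ℂ × ℂ × ℂ => H p.1 p.2.1 p.2.2)
          (f := fun x : Ix → ℝ => ((x i00 : ℂ) + y i00 * I, (x i01 : ℂ) + y i01 * I,
            (x i11 : ℂ) + y i11 * I)) (hH1 _ (by simpa using hp)).continuousAt (by fun_prop)
      exact this.measurable.enorm.pow_const 2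
    have hB : ∀ x, ∫⁻ t in Ioc (0:ℝ) 1, f (x + t • e11) ≤ 4 := by
      intro x
      have := hH2 (x i00 + y i00 * I) (x i01 + y i01 * I) (x i11 + y i11 * I) (by simpa using hp)
      refine le_trans (le_of_eq ?_) this
      refine lintegral_congr fun t => ?_
      simp only [f, Pi.add_apply, Pi.smul_apply, e11_00, e11_01, e11_11, smul_eq_mul, mul_zero,
        add_zero, mul_one]
      congr 3
      push_cast; ring
    refine le_trans ?_ (mul_le_mul_right (lintegral_wt_mul hf hB) 4)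
    rw [← lintegral_const_mul (f := fun x => wt x * f x) _ (measurable_wt.mul hf)]
    refine lintegral_mono fun x => ?_
    simp only [f]
    rw [enorm_mul, mul_pow, ← mul_assoc]
    refine mul_le_mul_left ?_ _
    have := dec_le (z0 := x i00 + y i00 * I) (z1 := x i01 + y i01 * I) (z2 := x i11 + y i11 * I)
      (by simpa using hp) (norm_nonneg x) (by simpa using norm_cases x)
    unfold wt
    rw [← ofReal_norm, ← ENNReal.ofReal_pow (norm_nonneg _),
      show (4 : ℝ≥0∞) = ENNReal.ofReal 4 by simp, ← ENNReal.ofReal_mul (by norm_num)]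
    exact ENNReal.ofReal_le_ofReal this
  · intro hae
    obtain ⟨x, hx0, hx1, hx2, hx⟩ := exists_good_line hae
    set q := x i00
    set r := x i01
    set t := x i11
    let U : ℕ → Set ℝ := fun M => {s : ℝ | ∃ θ ∈ Icc (0:ℝ) 2, ∃ c ∈ Ioc (0:ℝ) 1,
      (M : ℝ) < ‖H (q + I) (r + θ * I) (s + t + (θ ^ 2 + c) * I)‖} ∩ Ioc 0 1
    have hpos : ∀ θ c s : ℝ, 0 < c → Pos ((q : ℂ) + I).im ((r : ℂ) + θ * I).im
        ((s : ℂ) + t + (θ ^ 2 + c) * I).im := by
      intro θ c s hc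
      have i0 : ((q : ℂ) + I).im = 1 := by simp
      have i1 : ((r : ℂ) + θ * I).im = θ := by simp
      have i2 : ((s : ℂ) + t + (θ ^ 2 + c) * I).im = θ ^ 2 + c := by simp [pow_two]
      rw [i0, i1, i2]; exact ⟨zero_lt_one, by linarith⟩
    have hUm : ∀ M, MeasurableSet (U M) := by
      intro M
      refine MeasurableSet.inter (IsOpen.measurableSet ?_) measurableSet_Ioc
      rw [isOpen_iff_mem_nhds]
      rintro s ⟨θ, hθ, c, hc, hs⟩
      have hca : ContinuousAt (fun s : ℝ => H (q + I) (r + θ * I) (s + t + (θ ^ 2 + c) * I)) s :=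
        ContinuousAt.comp (g := fun p : ℂ × ℂ × ℂ => H p.1 p.2.1 p.2.2)
          (f := fun s : ℝ => ((q : ℂ) + I, (r : ℂ) + θ * I, (s : ℂ) + t + (θ ^ 2 + c) * I))
          (hH1 _ (hpos θ c s hc.1)).continuousAt (by fun_prop)
      filter_upwards [hca.norm.eventually (lt_mem_nhds hs)] with s' hs'
      exact ⟨θ, hθ, c, hc, hs'⟩
    have hanti : Antitone U := by
      intro M M' hMM'
      apply inter_subset_inter_left
      rintro s ⟨θ, hθ, c, hc, hs⟩
      exact ⟨θ, hθ, c, hc, lt_of_le_of_lt (by exact_mod_cast hMM') hs⟩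
    have hI : volume (⋂ M, U M) = ⨅ M, volume (U M) :=
      hanti.measure_iInter (fun M => (hUm M).nullMeasurableSet)
        ⟨0, ne_top_of_le_ne_top (by simp) (measure_mono inter_subset_right)⟩
    have hge : ENNReal.ofReal (1 / 50) ≤ volume (⋂ M, U M) := by
      rw [hI]
      exact le_iInf fun M => hH3 M q ⟨hx0.1.le, hx0.2⟩ r t
    have hnull : volume (⋂ M, U M) = 0 := by
      refine measure_mono_null ?_ (ae_iff.1 hx)
      rintro s hs ⟨M, hM⟩
      obtain ⟨M', hM'⟩ := exists_nat_ge (4000 ^ 2 * M)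
      obtain ⟨⟨θ, hθ, c, hc, hlt⟩, hs01⟩ := mem_iInter.1 hs M'
      let y : Ix → ℝ := fun k => if k = i00 then 1 else if k = i01 then θ else θ ^ 2 + c
      have y0 : y i00 = 1 := if_pos rfl
      have y1 : y i01 = θ := by simp only [y]; rw [if_neg (by decide), if_pos trivial]
      have y2 : y i11 = θ ^ 2 + c := by simp only [y]; rw [if_neg (by decide), if_neg (by decide)]
      have hy : (SS y).PosDef := by
        rw [posDef_iff, y0, y1, y2]
        exact ⟨zero_lt_one, by linarith [hc.1]⟩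
      have h1 := hM y hy
      simp only [Pi.add_apply, Pi.smul_apply, e11_00, e11_01, e11_11, smul_eq_mul, mul_zero,
        add_zero, mul_one, y0, y1, y2] at h1
      have e0 : (((x i11 + s : ℝ) : ℂ) + ((θ ^ 2 + c : ℝ) : ℂ) * I) =
          s + t + (θ ^ 2 + c) * I := by push_cast; ring
      rw [e0, Complex.ofReal_one, one_mul, norm_mul] at h1
      have nb : ∀ a b : ℝ, |a| ≤ 3 → |b| ≤ 6 → ‖(a : ℂ) + b * I‖ ≤ 9 := by
        intro a b ha hb
        refine (norm_add_le _ _).trans ?_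
        simp only [Complex.norm_real, Real.norm_eq_abs, norm_mul, Complex.norm_I, mul_one]
        linarith
      have h2 := dec_ge (hpos θ c s hc.1)
        (by simpa using nb q 1 (abs_le.2 ⟨by linarith [hx0.1], by linarith [hx0.2]⟩) (by norm_num))
        (nb r θ (abs_le.2 ⟨by linarith [hx1.1], by linarith [hx1.2]⟩)
          (abs_le.2 ⟨by linarith [hθ.1], by linarith [hθ.2]⟩))
        (by
          have := nb (s + t) (θ ^ 2 + c)
            (abs_le.2 ⟨by linarith [hx2.1, hs01.1], by linarith [hx2.2, hs01.2]⟩)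
            (abs_le.2 ⟨by nlinarith [hθ.1, hc.1], by nlinarith [hθ.1, hθ.2, hc.2]⟩)
          push_cast at this
          exact this)
      have h3 := mul_le_mul_of_nonneg_right h2
        (norm_nonneg (H (q + I) (r + θ * I) (s + t + (θ ^ 2 + c) * I)))
      linarith
    rw [hnull] at hge
    simp at hge

end Pool.Agent.Lib.MP_442e5a_an
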