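import Mathlib

set_option autoImplicit false

open MeasureTheory Set

namespace Pool.Agent.Lib.MP_442e5a_an

/-- Indicator of the arc `[0, ρ)` modulo one. -/
noncomputable def arc (ρ t : ℝ) : ℝ := if Int.fract t < ρ then 1 else 0

lemma arc_nonneg (ρ t : ℝ) : 0 ≤ arc ρ t := by
  unfold arc; split_ifs <;> norm_num

lemma arc_le_one (ρ t : ℝ) : arc ρ t ≤ 1 := by
  unfold arc; split_ifs <;> norm_num

lemma arc_mul_self (ρ t : ℝ) : arc ρ t * arc ρ t = arc ρ t := by
  unfold arc; split_ifs <;> norm_num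

lemma arc_add_nat (ρ t : ℝ) (k : ℕ) : arc ρ (t + k) = arc ρ t := by
  unfold arc; rw [Int.fract_add_natCast]

lemma measurable_arc (ρ : ℝ) : Measurable (arc ρ) := by
  unfold arc
  exact Measurable.ite (measurableSet_lt measurable_fract measurable_const) measurable_const
    measurable_const

/-- Bounded measurable real functions on the line. -/
def BM (f : ℝ → ℝ) : Prop := Measurable f ∧ ∃ C, ∀ s, |f s| ≤ C

lemma BM.const (c : ℝ) : BM (fun _ => c) := ⟨measurable_const, |c|, fun _ => le_rfl⟩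

lemma BM.add {f g : ℝ → ℝ} (hf : BM f) (hg : BM g) : BM (fun s => f s + g s) := by
  obtain ⟨hf, C, hC⟩ := hf
  obtain ⟨hg, D, hD⟩ := hg
  exact ⟨hf.add hg, C + D, fun s => (abs_add_le _ _).trans (add_le_add (hC s) (hD s))⟩

lemma BM.mul {f g : ℝ → ℝ} (hf : BM f) (hg : BM g) : BM (fun s => f s * g s) := by
  obtain ⟨hf, C, hC⟩ := hf
  obtain ⟨hg, D, hD⟩ := hg
  refine ⟨hf.mul hg, C * D, fun s => ?_⟩
  rw [abs_mul]
  exact mul_le_mul (hC s) (hD s) (abs_nonneg _) ((abs_nonneg _).trans (hC s))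

lemma BM.sum {ι : Type*} (t : Finset ι) {f : ι → ℝ → ℝ} (hf : ∀ i ∈ t, BM (f i)) :
    BM (fun s => ∑ i ∈ t, f i s) := by
  classical
  induction t using Finset.induction_on with
  | empty => simpa using BM.const 0
  | insert j t hj ih =>
    simp only [Finset.sum_insert hj]
    exact (hf j (Finset.mem_insert_self _ _)).add
      (ih fun i hi => hf i (Finset.mem_insert_of_mem hi))

lemma BM.arc (ρ a t : ℝ) : BM (fun s => arc ρ (a * s + t)) := by
  refine ⟨(measurable_arc ρ).comp (by fun_prop), 1, fun s => ?_⟩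
  rw [abs_of_nonneg (arc_nonneg _ _)]
  exact arc_le_one _ _

lemma BM.ii {f : ℝ → ℝ} (hf : BM f) (a b : ℝ) : IntervalIntegrable f volume a b := by
  obtain ⟨hf, C, hC⟩ := hf
  refine (intervalIntegrable_const (c := C)).mono_fun' hf.aestronglyMeasurable ?_
  exact Filter.Eventually.of_forall fun s => hC s

lemma ii_arc_mul {Q : ℝ → ℝ} (hQ : ∀ a b, IntervalIntegrable Q volume a b) (ρ c t a b : ℝ) :
    IntervalIntegrable (fun s => arc ρ (c * s + t) * Q s) volume a b := by
  refine (hQ a b).norm.mono_fun' ?_ ?_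
  · exact ((BM.arc ρ c t).1.aestronglyMeasurable).mul
      (intervalIntegrable_iff.1 (hQ a b)).aestronglyMeasurable
  · refine Filter.Eventually.of_forall fun s => ?_
    simp only [norm_mul, Real.norm_eq_abs]
    rw [abs_of_nonneg (arc_nonneg _ _)]
    exact mul_le_of_le_one_left (abs_nonneg _) (arc_le_one _ _)

lemma integral_periodic_nat {Q : ℝ → ℝ} {T : ℝ} (hp : Function.Periodic Q T)
    (hQ : ∀ a b, IntervalIntegrable Q volume a b) (n : ℕ) (t : ℝ) :
    ∫ s in t..t + n * T, Q s = n * ∫ s in (0:ℝ)..T, Q s := by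
  have h := hp.intervalIntegral_add_zsmul_eq (n : ℤ) t hQ
  rw [hp.intervalIntegral_add_eq t 0] at h
  simpa using h

/-- Independence of a coarse arc and a finely periodic function. -/
lemma integral_arc_mul {l M j : ℕ} (hl : 0 < l) (hM : 0 < M) (hj : j ≤ M) (t : ℝ) {Q : ℝ → ℝ}
    (hp : Function.Periodic Q (1 / ((l : ℝ) * M)))
    (hQ : ∀ a b, IntervalIntegrable Q volume a b) :
    ∫ s in (0:ℝ)..1, arc (j / M) (l * s + t) * Q s = j / M * ∫ s in (0:ℝ)..1, Q s := by
  have hl' : (0:ℝ) < l := by exact_mod_cast hl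
  have hM' : (0:ℝ) < M := by exact_mod_cast hM
  have hj' : (j:ℝ) ≤ M := by exact_mod_cast hj
  set T : ℝ := 1 / ((l : ℝ) * M) with hT
  have hTpos : 0 < T := by positivity
  set f : ℝ → ℝ := fun s => arc (j / M) (l * s + t) * Q s with hf
  have hfi : ∀ a b, IntervalIntegrable f volume a b := fun a b => ii_arc_mul hQ _ _ _ a b
  have hMT : (M : ℝ) * T = 1 / l := by rw [hT]; field_simp
  have hfp : Function.Periodic f (1 / l) := by
    intro s
    simp only [hf]
    have h1 : (l : ℝ) * (s + 1 / l) + t = l * s + t + (1 : ℕ) := by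
      push_cast; field_simp; ring
    rw [h1, arc_add_nat, ← hMT, (hp.nat_mul M) s]
  set s₀ : ℝ := -t / l with hs₀
  have e1 : ∫ s in (0:ℝ)..1, f s = l * ∫ s in s₀..s₀ + 1 / l, f s := by
    have h := integral_periodic_nat hfp hfi l 0
    rw [hfp.intervalIntegral_add_eq s₀ 0]
    have h2 : (0:ℝ) + l * (1 / l) = 1 := by field_simp; ring
    rw [h2] at h
    simpa using h
  have e2 : ∫ s in (0:ℝ)..1, Q s = (l * M) * ∫ s in (0:ℝ)..T, Q s := by
    have h := integral_periodic_nat hp hQ (l * M) 0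
    have h2 : (0:ℝ) + ((l * M : ℕ) : ℝ) * T = 1 := by rw [hT]; push_cast; field_simp; ring
    rw [h2] at h
    simpa using h
  have hjT : (j : ℝ) * T ≤ 1 / l := by
    rw [← hMT]; exact mul_le_mul_of_nonneg_right hj' hTpos.le
  have hjT0 : 0 ≤ (j : ℝ) * T := by positivity
  have key : ∀ s, s₀ ≤ s → s < s₀ + 1 / l → Int.fract ((l : ℝ) * s + t) = l * (s - s₀) := by
    intro s h1 h2
    have h3 : (l : ℝ) * s + t = l * (s - s₀) := by rw [hs₀]; field_simp; ring
    rw [h3, Int.fract_eq_self]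
    refine ⟨by nlinarith, ?_⟩
    have : s - s₀ < 1 / l := by linarith
    rwa [lt_div_iff₀' hl'] at this
  have e3 : ∫ s in s₀..s₀ + j * T, f s = ∫ s in s₀..s₀ + j * T, Q s := by
    apply intervalIntegral.integral_congr_ae
    have : ∀ᵐ s : ℝ, s ≠ s₀ + j * T := by simp [ae_iff]
    filter_upwards [this] with s hs hmem
    rw [uIoc_of_le (by linarith)] at hmem
    have hlt : s < s₀ + j * T := lt_of_le_of_ne hmem.2 hs
    simp only [hf, arc]
    rw [key s hmem.1.le (by linarith), if_pos, one_mul]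
    have : (l : ℝ) * (s - s₀) < l * (j * T) := by
      apply mul_lt_mul_of_pos_left _ hl'; linarith
    refine this.trans_eq ?_
    rw [hT]; field_simp
  have e4 : ∫ s in s₀ + j * T..s₀ + 1 / l, f s = 0 := by
    rw [← intervalIntegral.integral_zero (a := s₀ + j * T) (b := s₀ + 1 / l) (μ := volume)]
    apply intervalIntegral.integral_congr_ae
    have : ∀ᵐ s : ℝ, s ≠ s₀ + 1 / l := by simp [ae_iff]
    filter_upwards [this] with s hs hmem
    rw [uIoc_of_le (by linarith)] at hmem
    have hlt : s < s₀ + 1 / l := lt_of_le_of_ne hmem.2 hs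
    simp only [hf, arc]
    rw [key s (by linarith [hmem.1]) hlt, if_neg, zero_mul]
    have : (l : ℝ) * (j * T) ≤ l * (s - s₀) := by
      apply mul_le_mul_of_nonneg_left _ hl'.le; linarith [hmem.1]
    refine not_lt.2 (le_trans (le_of_eq ?_) this)
    rw [hT]; field_simp
  rw [e1, ← intervalIntegral.integral_add_adjacent_intervals (hfi _ (s₀ + j * T)) (hfi _ _), e3, e4,
    integral_periodic_nat hp hQ j s₀, e2]
  field_simp
  ring

/-- Second moment inequality on the unit interval. -/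
lemma second_moment {Y : ℝ → ℝ} (hY : BM Y) {I S : ℝ} (hI : 0 < I)
    (h1 : I ≤ ∫ s in (0:ℝ)..1, Y s) (h2 : ∫ s in (0:ℝ)..1, Y s * Y s ≤ S) (hS : 0 < S) :
    ENNReal.ofReal (I ^ 2 / S) ≤ volume ({s | 0 < Y s} ∩ Ioc 0 1) := by
  set A : Set ℝ := {s | 0 < Y s} with hA
  have hAm : MeasurableSet A := measurableSet_lt measurable_const hY.1
  set t : ℝ := I / S with ht
  have htpos : 0 < t := by positivity
  have hind : BM (A.indicator (fun _ => (1:ℝ))) := by
    refine ⟨measurable_const.indicator hAm, 1, fun s => ?_⟩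
    by_cases h : s ∈ A <;> simp [h]
  have hpt : ∀ s, Y s ≤ t / 2 * (Y s * Y s) + 1 / (2 * t) * A.indicator (fun _ => (1:ℝ)) s := by
    intro s
    by_cases h : s ∈ A
    · simp only [indicator_of_mem h, mul_one]
      have : t / 2 * (Y s * Y s) + 1 / (2 * t) - Y s = (t * Y s - 1) ^ 2 / (2 * t) := by
        field_simp; ring
      have h3 : 0 ≤ (t * Y s - 1) ^ 2 / (2 * t) := by positivity
      linarith
    · simp only [indicator_of_notMem h, mul_zero, add_zero]
      have h3 : Y s ≤ 0 := not_lt.1 h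
      have : 0 ≤ t / 2 * (Y s * Y s) := mul_nonneg (by positivity) (mul_self_nonneg _)
      linarith
  have hint := intervalIntegral.integral_mono_on (μ := volume) (by norm_num : (0:ℝ) ≤ 1)
    (hY.ii 0 1) ((((BM.const (t / 2)).mul (hY.mul hY)).add
      ((BM.const (1 / (2 * t))).mul hind)).ii 0 1) (fun s _ => hpt s)
  rw [intervalIntegral.integral_add (((BM.const (t / 2)).mul (hY.mul hY)).ii 0 1)
    (((BM.const (1 / (2 * t))).mul hind).ii 0 1), intervalIntegral.integral_const_mul,
    intervalIntegral.integral_const_mul] at hint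
  have hmeas : ∫ s in (0:ℝ)..1, A.indicator (fun _ => (1:ℝ)) s = volume.real (A ∩ Ioc 0 1) := by
    rw [intervalIntegral.integral_of_le (by norm_num), integral_indicator hAm]
    simp [Measure.real, Measure.restrict_apply hAm]
  rw [hmeas] at hint
  have hfin : volume (A ∩ Ioc (0:ℝ) 1) ≠ ⊤ :=
    ne_top_of_le_ne_top (by simp) (measure_mono inter_subset_right)
  rw [← ENNReal.ofReal_toReal hfin]
  apply ENNReal.ofReal_le_ofReal
  change I ^ 2 / S ≤ volume.real (A ∩ Ioc 0 1)
  set μ := volume.real (A ∩ Ioc (0:ℝ) 1)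
  have h3 : I ≤ t / 2 * S + 1 / (2 * t) * μ := by
    have := mul_le_mul_of_nonneg_left h2 (by positivity : 0 ≤ t / 2)
    linarith
  have h4 : t / 2 * S = I / 2 := by rw [ht]; field_simp
  have h5 : I / 2 ≤ 1 / (2 * t) * μ := by linarith
  have h6 : I ^ 2 / S = (2 * t) * (I / 2) := by rw [ht]; field_simp
  rw [h6]
  calc (2 * t) * (I / 2) ≤ (2 * t) * (1 / (2 * t) * μ) :=
        mul_le_mul_of_nonneg_left h5 (by positivity)
    _ = μ := by field_simp

end Pool.Agent.Lib.MP_442e5a_an
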