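import Pool.Agent.Lib.MP_442e5a_an.Block

set_option autoImplicit false

open MeasureTheory Set Complex Filter Metric
open scoped Real ComplexConjugate Topology ENNReal

namespace Pool.Agent.Lib.MP_442e5a_an

lemma differentiableAt_tsum_ball {E : Type*} [NormedAddCommGroup E] [NormedSpace ℂ E]
    [ProperSpace E] {f : ℕ → E → ℂ} (hf : ∀ j, Differentiable ℂ (f j)) {u : ℕ → ℝ}
    (hu : Summable u) {p : E} {R : ℝ} (hR : 0 < R) {J : ℕ}
    (hb : ∀ j, J ≤ j → ∀ x ∈ ball p (2 * R), ‖f j x‖ ≤ u j) :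
    DifferentiableAt ℂ (fun x => ∑' j, f j x) p := by
  have h1 : ∀ j, ∃ C, ∀ x ∈ closedBall p (2 * R), ‖f j x‖ ≤ C := fun j =>
    (isCompact_closedBall p (2 * R)).exists_bound_of_continuousOn (hf j).continuous.continuousOn
  choose C hC using h1
  let v : ℕ → ℝ := fun j => if J ≤ j then u j else C j
  have hv : Summable v := by
    rw [← summable_nat_add_iff J]
    refine ((summable_nat_add_iff J).2 hu).congr fun j => ?_
    simp [v]
  have hvb : ∀ j, ∀ x ∈ ball p (2 * R), ‖f j x‖ ≤ v j := by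
    intro j x hx
    simp only [v]
    split_ifs with h
    · exact hb j h x hx
    · exact hC j x (ball_subset_closedBall hx)
  have hd : ∀ j x, x ∈ ball p R → ‖fderiv ℂ (f j) x‖ ≤ 2 * v j / R := by
    intro j x hx
    have hsub : ball x R ⊆ ball p (2 * R) := by
      apply ball_subset_ball'
      rw [mem_ball] at hx; linarith
    refine Complex.norm_fderiv_le_div_of_mapsTo_ball (hf j).differentiableOn ?_ hR
    intro y hy
    rw [mem_closedBall, dist_eq_norm]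
    refine (norm_sub_le _ _).trans ?_
    linarith [hvb j y (hsub hy), hvb j x (hsub (mem_ball_self hR))]
  have hp : p ∈ ball p R := mem_ball_self hR
  refine (hasFDerivAt_tsum_of_isPreconnected ((hv.mul_left 2).div_const R) isOpen_ball
    (convex_ball p R).isPreconnected (fun j x _ => (hf j x).hasFDerivAt) hd hp ?_ hp).differentiableAt
  exact Summable.of_norm_bounded hv fun j => hvb j p (mem_ball_self (by linarith))

/-- The open cone of positive two by two matrices. -/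
def Pos (a b c : ℝ) : Prop := 0 < a ∧ b ^ 2 < a * c

lemma Pos.cone {a b c : ℝ} (h : Pos a b c) : Cone a b c := by
  refine ⟨h.1.le, ?_, h.2.le⟩
  by_contra hc
  have : a * c < 0 := mul_neg_of_pos_of_neg h.1 (not_le.1 hc)
  nlinarith [sq_nonneg b, h.2]

lemma QQ_ge {a b c d : ℝ} (ha : 0 < a) (h : a * d < a * c - b ^ 2) (φ : ℝ) : d ≤ QQ a b c φ := by
  have : a * d ≤ a * QQ a b c φ := by unfold QQ; nlinarith [sq_nonneg (b - φ * a)]
  exact le_of_mul_le_mul_left this ha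

lemma exists_sigma_le {d : ℝ} (hd : 0 < d) :
    ∃ J : ℕ, ∀ j, J ≤ j → ((1 / 2 : ℝ) ^ j / 4) ^ 2 ≤ d := by
  have h : Tendsto (fun j : ℕ => ((1 / 2 : ℝ) ^ j / 4) ^ 2) atTop (𝓝 ((0 / 4) ^ 2)) :=
    ((tendsto_pow_atTop_nhds_zero_of_lt_one (by norm_num) (by norm_num)).div_const 4).pow 2
  exact eventually_atTop.1 (h.eventually (ge_mem_nhds (by simpa using hd)))

lemma sector_sep {i j : ℕ} (hij : i ≠ j) {θ φ : ℝ}
    (hθ : θ ∈ Icc ((1 / 2 : ℝ) ^ j) ((1 / 2) ^ j + (1 / 2) ^ j / 4))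
    (hφ : φ ∈ Icc ((1 / 2 : ℝ) ^ i) ((1 / 2) ^ i + (1 / 2) ^ i / 4)) :
    ((1 / 2 : ℝ) ^ i / 4) ^ 2 ≤ (θ - φ) ^ 2 := by
  rw [← sq_abs (θ - φ)]
  apply pow_le_pow_left₀ (by positivity)
  have key : ∀ a b : ℕ, a < b → (1 / 2 : ℝ) ^ b ≤ (1 / 2) ^ a / 2 := by
    intro a b hab
    calc (1 / 2 : ℝ) ^ b ≤ (1 / 2) ^ (a + 1) :=
          pow_le_pow_of_le_one (by norm_num) (by norm_num) hab
      _ = _ := by ring
  have p1 : 0 < (1 / 2 : ℝ) ^ i := by positivity
  have p2 : 0 < (1 / 2 : ℝ) ^ j := by positivity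
  rcases lt_or_gt_of_ne hij with h | h
  · rw [abs_sub_comm]
    refine le_trans ?_ (le_abs_self _)
    linarith [key i j h, hθ.2, hφ.1]
  · refine le_trans ?_ (le_abs_self _)
    linarith [key j i h, hθ.1, hφ.2]

theorem exists_H : ∃ H : ℂ → ℂ → ℂ → ℂ,
    (∀ p : ℂ × ℂ × ℂ, Pos p.1.im p.2.1.im p.2.2.im →
      DifferentiableAt ℂ (fun p : ℂ × ℂ × ℂ => H p.1 p.2.1 p.2.2) p) ∧
    (∀ z0 z1 ζ : ℂ, Pos z0.im z1.im ζ.im →
      ∫⁻ s in Ioc (0:ℝ) 1, ‖H z0 z1 (s + ζ)‖ₑ ^ 2 ≤ 4) ∧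
    (∀ M : ℝ, ∀ q ∈ Ico (1:ℝ) 2, ∀ r t : ℝ, ENNReal.ofReal (1 / 50) ≤ volume ({s : ℝ |
      ∃ θ ∈ Icc (0:ℝ) 2, ∃ c ∈ Ioc (0:ℝ) 1,
        M < ‖H (q + I) (r + θ * I) (s + t + (θ ^ 2 + c) * I)‖} ∩ Ioc 0 1)) := by
  have hex := fun j : ℕ => exists_block (L := j + 1) (κ0 := (1 / 2) ^ j * (1 / 2) ^ j)
    (σ := (1 / 2) ^ j / 4) (ε0 := (1 / 2) ^ j) ((1 / 2) ^ j) (by positivity) (by positivity)
    (by positivity) (by positivity)
  choose g hg1 hg2 hg3 hg4 using hex
  have hsum : ∀ z0 z1 z2 : ℂ, Pos z0.im z1.im z2.im → Summable (fun j => g j z0 z1 z2) := by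
    intro z0 z1 z2 hp
    have ha := hp.1
    have hd : 0 < z0.im * z2.im - z1.im ^ 2 := by linarith [hp.2]
    obtain ⟨J, hJ⟩ := exists_sigma_le (d := (z0.im * z2.im - z1.im ^ 2) / (2 * z0.im))
      (by positivity)
    refine Summable.of_norm_bounded_eventually_nat summable_geometric_two ?_
    refine eventually_atTop.2 ⟨J, fun j hj => hg3 j _ _ _ hp.cone fun φ' _ => ?_⟩
    refine (hJ j hj).trans (QQ_ge ha ?_ φ')
    have : z0.im * ((z0.im * z2.im - z1.im ^ 2) / (2 * z0.im)) =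
        (z0.im * z2.im - z1.im ^ 2) / 2 := by field_simp
    rw [this]; linarith
  refine ⟨fun z0 z1 z2 => ∑' j, g j z0 z1 z2, ?_, ?_, ?_⟩
  · intro p hp
    have ha := hp.1
    have hd : 0 < p.1.im * p.2.2.im - p.2.1.im ^ 2 := by linarith [hp.2]
    set d := (p.1.im * p.2.2.im - p.2.1.im ^ 2) / (2 * p.1.im) with hdd
    have hd0 : 0 < d := by positivity
    obtain ⟨J, hJ⟩ := exists_sigma_le hd0
    have hopen : IsOpen {x : ℂ × ℂ × ℂ | 0 < x.1.im ∧
        x.1.im * d < x.1.im * x.2.2.im - x.2.1.im ^ 2} := by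
      refine IsOpen.and ?_ ?_
      · exact isOpen_lt continuous_const (by fun_prop)
      · exact isOpen_lt (by fun_prop) (by fun_prop)
    have hmem : p ∈ {x : ℂ × ℂ × ℂ | 0 < x.1.im ∧
        x.1.im * d < x.1.im * x.2.2.im - x.2.1.im ^ 2} := by
      refine ⟨ha, ?_⟩
      have : p.1.im * d = (p.1.im * p.2.2.im - p.2.1.im ^ 2) / 2 := by rw [hdd]; field_simp
      rw [this]; linarith
    obtain ⟨R, hR, hsub⟩ := Metric.isOpen_iff.1 hopen p hmem
    refine differentiableAt_tsum_ball (f := fun j (p : ℂ × ℂ × ℂ) => g j p.1 p.2.1 p.2.2) hg1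
      summable_geometric_two (R := R / 2) (by linarith) (J := J) fun j hj x hx => ?_
    rw [show 2 * (R / 2) = R by ring] at hx
    obtain ⟨x1, x2⟩ := hsub hx
    have hpos : Pos x.1.im x.2.1.im x.2.2.im := ⟨x1, by nlinarith [mul_pos x1 hd0]⟩
    exact hg3 j _ _ _ hpos.cone fun φ' _ => (hJ j hj).trans (QQ_ge x1 x2 φ')
  · intro z0 z1 ζ hp
    have hcont : ∀ j, Continuous (fun s : ℝ => g j z0 z1 (s + ζ)) := fun j =>
      (hg1 j).continuous.comp (f := fun s : ℝ => (z0, z1, (s : ℂ) + ζ)) (by fun_prop)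
    let S : ℕ → ℝ → ℂ := fun J s => ∑ j ∈ Finset.range J, g j z0 z1 (s + ζ)
    have hS : ∀ J, Continuous (S J) := fun J => continuous_finsetSum _ fun j _ => hcont j
    have hgeo : ∀ J, ∑ j ∈ Finset.range J, (1 / 2 : ℝ) ^ j ≤ 2 := fun J =>
      sum_le_hasSum _ (fun _ _ => by positivity) hasSum_geometric_two
    have hpt : ∀ J s, ‖S J s‖ ^ 2 ≤
        2 * ∑ j ∈ Finset.range J, ‖g j z0 z1 (s + ζ)‖ ^ 2 / (1 / 2) ^ j := by
      intro J s
      have h1 : ‖S J s‖ ≤ ∑ j ∈ Finset.range J, ‖g j z0 z1 (s + ζ)‖ := norm_sum_le _ _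
      refine (pow_le_pow_left₀ (norm_nonneg _) h1 2).trans ?_
      rcases Nat.eq_zero_or_pos J with rfl | hJ
      · simp
      have h2 := Finset.sq_sum_div_le_sum_sq_div (Finset.range J)
        (fun j => ‖g j z0 z1 (s + ζ)‖) (g := fun j => (1 / 2 : ℝ) ^ j) (fun _ _ => by positivity)
      have h3 : 0 < ∑ j ∈ Finset.range J, (1 / 2 : ℝ) ^ j :=
        Finset.sum_pos (fun _ _ => by positivity) (Finset.nonempty_range_iff.2 hJ.ne')
      rw [div_le_iff₀' h3] at h2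
      refine h2.trans (mul_le_mul_of_nonneg_right (hgeo J) ?_)
      exact Finset.sum_nonneg fun _ _ => by positivity
    have hint : ∀ J, ∫ s in (0:ℝ)..1, ‖S J s‖ ^ 2 ≤ 4 := by
      intro J
      have hc2 : ∀ j, Continuous (fun s : ℝ => ‖g j z0 z1 (s + ζ)‖ ^ 2 / (1 / 2) ^ j) :=
        fun j => ((hcont j).norm.pow 2).div_const _
      have := intervalIntegral.integral_mono_on (μ := volume) (by norm_num : (0:ℝ) ≤ 1)
        (((hS J).norm.pow 2).intervalIntegrable 0 1)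
        (((continuous_finsetSum (Finset.range J) fun j _ => hc2 j).intervalIntegrable 0 1).const_mul
          2) (fun s _ => hpt J s)
      refine this.trans ?_
      rw [intervalIntegral.integral_const_mul, intervalIntegral.integral_finsetSum
        (fun j _ => (hc2 j).intervalIntegrable 0 1)]
      have h4 : ∑ j ∈ Finset.range J, ∫ s in (0:ℝ)..1, ‖g j z0 z1 (s + ζ)‖ ^ 2 / (1 / 2) ^ j ≤
          ∑ j ∈ Finset.range J, (1 / 2 : ℝ) ^ j := by
        refine Finset.sum_le_sum fun j _ => ?_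
        rw [intervalIntegral.integral_div, div_le_iff₀ (by positivity)]
        exact hg2 j z0 z1 ζ hp.cone
      linarith [hgeo J]
    have hlin : ∀ J, ∫⁻ s in Ioc (0:ℝ) 1, ‖S J s‖ₑ ^ 2 ≤ 4 := by
      intro J
      have h1 := hint J
      rw [intervalIntegral.integral_of_le (by norm_num)] at h1
      have hc3 : Continuous (fun s => ‖S J s‖ ^ 2) := (hS J).norm.pow 2
      have hi3 : IntegrableOn (fun s => ‖S J s‖ ^ 2) (Ioc (0:ℝ) 1) volume :=
        (hc3.integrableOn_Icc (a := 0) (b := 1)).mono_set Ioc_subset_Icc_self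
      have h2 := ofReal_integral_eq_lintegral_ofReal (μ := volume.restrict (Ioc (0:ℝ) 1))
        (f := fun s => ‖S J s‖ ^ 2) hi3
        (Eventually.of_forall fun s => by positivity)
      have h3 : ∀ s, ENNReal.ofReal (‖S J s‖ ^ 2) = ‖S J s‖ₑ ^ 2 := by
        intro s
        rw [ENNReal.ofReal_pow (norm_nonneg _), ofReal_norm]
      simp only [h3] at h2
      rw [← h2]
      simpa using ENNReal.ofReal_le_ofReal h1
    have hlim : ∀ s : ℝ, ‖∑' j, g j z0 z1 (s + ζ)‖ₑ ^ 2 =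
        liminf (fun J => ‖S J s‖ₑ ^ 2) atTop := by
      intro s
      have h1 := (hsum z0 z1 (s + ζ) (by simpa using hp)).hasSum.tendsto_sum_nat
      exact (ENNReal.Tendsto.pow (n := 2) h1.enorm).liminf_eq.symm
    simp only [hlim]
    refine (lintegral_liminf_le (fun J => (hS J).measurable.enorm.pow_const 2)).trans ?_
    exact liminf_le_of_frequently_le' (Frequently.of_forall hlin)
  · intro M q hq r t
    obtain ⟨j, hj⟩ := exists_nat_gt (M + 1)
    refine (hg4 j q hq r t).trans (measure_mono (inter_subset_inter_left _ ?_))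
    rintro s ⟨θ, hθ, hs⟩
    have p1 : 0 < (1 / 2 : ℝ) ^ j := by positivity
    have p2 : (1 / 2 : ℝ) ^ j ≤ 1 := pow_le_one₀ (by norm_num) (by norm_num)
    refine ⟨θ, ⟨by linarith [hθ.1], by linarith [hθ.2]⟩, ?_⟩
    have hcont : Continuous (fun c : ℝ =>
        ‖g j (q + I) (r + θ * I) (s + t + (θ ^ 2 + c) * I)‖) :=
      ((hg1 j).continuous.comp (f := fun c : ℝ =>
        ((q : ℂ) + I, (r : ℂ) + θ * I, (s : ℂ) + t + (θ ^ 2 + c) * I)) (by fun_prop)).norm
    have hev : ∀ᶠ c : ℝ in 𝓝[>] 0,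
        (j : ℝ) + 1 < ‖g j (q + I) (r + θ * I) (s + t + (θ ^ 2 + c) * I)‖ := by
      apply Filter.Eventually.filter_mono nhdsWithin_le_nhds
      refine (hcont.tendsto 0).eventually (lt_mem_nhds ?_)
      simpa using hs
    obtain ⟨c, hc1, hc2⟩ := (hev.and (Ioc_mem_nhdsGT (zero_lt_one' ℝ))).exists
    refine ⟨c, hc2, ?_⟩
    have i0 : ((q : ℂ) + I).im = 1 := by simp
    have i1 : ((r : ℂ) + θ * I).im = θ := by simp
    have i2 : ((s : ℂ) + t + (θ ^ 2 + c) * I).im = θ ^ 2 + c := by simp [pow_two]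
    have hp : Pos ((q : ℂ) + I).im ((r : ℂ) + θ * I).im ((s : ℂ) + t + (θ ^ 2 + c) * I).im := by
      rw [i0, i1, i2]; exact ⟨zero_lt_one, by linarith [hc2.1]⟩
    beta_reduce
    rw [(hsum _ _ _ hp).tsum_eq_add_tsum_ite j]
    have h2 : ‖∑' i, if i = j then 0 else
        g i (q + I) (r + θ * I) (s + t + (θ ^ 2 + c) * I)‖ ≤ 2 := by
      refine tsum_of_norm_bounded hasSum_geometric_two fun i => ?_
      split_ifs with hij
      · simp
      · refine hg3 i _ _ _ hp.cone fun φ' hφ' => ?_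
        rw [i0, i1, i2]
        have := sector_sep hij hθ hφ'
        unfold QQ
        nlinarith [hc2.1]
    have h3 := norm_sub_le (g j (q + I) (r + θ * I) (s + t + (θ ^ 2 + c) * I) +
      ∑' i, if i = j then 0 else g i (q + I) (r + θ * I) (s + t + (θ ^ 2 + c) * I))
      (∑' i, if i = j then 0 else g i (q + I) (r + θ * I) (s + t + (θ ^ 2 + c) * I))
    rw [add_sub_cancel_right] at h3
    linarith

end Pool.Agent.Lib.MP_442e5a_an
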