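import Mathlib

set_option autoImplicit false

open MeasureTheory Set Complex
open scoped Real ComplexConjugate

namespace Pool.Agent.Lib.MP_442e5a_an

/-- The exponential `exp (2 π i w)`. -/
noncomputable def ee (w : ℂ) : ℂ := Complex.exp (2 * π * I * w)

lemma ee_add (v w : ℂ) : ee (v + w) = ee v * ee w := by
  unfold ee; rw [← Complex.exp_add]; congr 1; ring

lemma ee_zero : ee 0 = 1 := by simp [ee]

lemma norm_ee (w : ℂ) : ‖ee w‖ = Real.exp (-(2 * π * w.im)) := by
  unfold ee; rw [Complex.norm_exp]; congr 1; simp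

lemma ee_int (k : ℤ) : ee k = 1 := by
  unfold ee
  rw [mul_comm]
  exact Complex.exp_int_mul_two_pi_mul_I k

lemma ee_add_nat (w : ℂ) (k : ℕ) : ee (w + k) = ee w := by
  rw [ee_add]
  have := ee_int k
  rw [Int.cast_natCast] at this
  rw [this, mul_one]

@[fun_prop]
lemma differentiable_ee : Differentiable ℂ ee := by
  unfold ee; fun_prop

@[fun_prop]
lemma continuous_ee : Continuous ee := differentiable_ee.continuous

lemma conj_ee_real (x : ℝ) : conj (ee x) = ee (-x) := by
  unfold ee
  rw [← Complex.exp_conj]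
  congr 1
  simp [Complex.conj_ofReal, map_ofNat]

/-- Trigonometric polynomials with integer frequencies in `[a, b]`. -/
def TP (a b : ℝ) : Submodule ℂ (ℝ → ℂ) :=
  Submodule.span ℂ {f | ∃ k : ℤ, a ≤ k ∧ (k : ℝ) ≤ b ∧ f = fun s : ℝ => ee (k * s)}

lemma TP.mono {a b c d : ℝ} (h1 : c ≤ a) (h2 : b ≤ d) {f : ℝ → ℂ} (hf : f ∈ TP a b) :
    f ∈ TP c d := by
  refine Submodule.span_mono ?_ hf
  rintro g ⟨k, hk1, hk2, rfl⟩
  exact ⟨k, h1.trans hk1, hk2.trans h2, rfl⟩

lemma TP.ee_mem {a b : ℝ} {k : ℤ} (h1 : a ≤ k) (h2 : (k : ℝ) ≤ b) (w : ℂ) :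
    (fun s : ℝ => ee (k * s + w)) ∈ TP a b := by
  have : (fun s : ℝ => ee (k * s + w)) = ee w • fun s : ℝ => ee (k * s) := by
    ext s; simp [ee_add, mul_comm]
  rw [this]
  exact Submodule.smul_mem _ _ (Submodule.subset_span ⟨k, h1, h2, rfl⟩)

lemma TP.const_mem {a b : ℝ} (h1 : a ≤ 0) (h2 : 0 ≤ b) (c : ℂ) : (fun _ : ℝ => c) ∈ TP a b := by
  have h := TP.ee_mem (a := a) (b := b) (k := 0) (by simpa using h1) (by simpa using h2) 0
  have : (fun _ : ℝ => c) = c • fun s : ℝ => ee (((0 : ℤ) : ℂ) * s + 0) := by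
    ext s; simp [ee_zero]
  rw [this]
  exact Submodule.smul_mem _ _ h

lemma TP.add_mem {a b : ℝ} {f g : ℝ → ℂ} (hf : f ∈ TP a b) (hg : g ∈ TP a b) :
    (fun s => f s + g s) ∈ TP a b := Submodule.add_mem _ hf hg

lemma TP.const_mul_mem {a b : ℝ} {f : ℝ → ℂ} (c : ℂ) (hf : f ∈ TP a b) :
    (fun s => c * f s) ∈ TP a b := Submodule.smul_mem _ c hf

lemma TP.zero_mem (a b : ℝ) : (fun _ : ℝ => (0 : ℂ)) ∈ TP a b := Submodule.zero_mem _

lemma TP.mul_mem {a b c d : ℝ} {f g : ℝ → ℂ} (hf : f ∈ TP a b) (hg : g ∈ TP c d) :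
    (fun s => f s * g s) ∈ TP (a + c) (b + d) := by
  induction hf using Submodule.span_induction with
  | mem x hx =>
    obtain ⟨k, hk1, hk2, rfl⟩ := hx
    induction hg using Submodule.span_induction with
    | mem y hy =>
      obtain ⟨l, hl1, hl2, rfl⟩ := hy
      refine Submodule.subset_span ⟨k + l, by push_cast; linarith, by push_cast; linarith, ?_⟩
      ext s
      rw [← ee_add]; congr 1; push_cast; ring
    | zero => simpa using TP.zero_mem _ _
    | add y z _ _ hy hz => simpa [mul_add] using TP.add_mem hy hz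
    | smul c y _ hy => simpa [mul_left_comm] using TP.const_mul_mem c hy
  | zero => simpa using TP.zero_mem _ _
  | add y z _ _ hy hz => simpa [add_mul] using TP.add_mem hy hz
  | smul c y _ hy => simpa [mul_assoc] using TP.const_mul_mem c hy

lemma TP.conj_mem {a b : ℝ} {f : ℝ → ℂ} (hf : f ∈ TP a b) :
    (fun s => conj (f s)) ∈ TP (-b) (-a) := by
  induction hf using Submodule.span_induction with
  | mem x hx =>
    obtain ⟨k, hk1, hk2, rfl⟩ := hx
    refine Submodule.subset_span ⟨-k, by push_cast; linarith, by push_cast; linarith, ?_⟩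
    ext s
    have := conj_ee_real (k * s)
    push_cast at this
    rw [this]; congr 1; push_cast; ring
  | zero => simpa using TP.zero_mem _ _
  | add y z _ _ hy hz => simpa using TP.add_mem hy hz
  | smul c y _ hy => simpa using TP.const_mul_mem (conj c) hy

lemma TP.continuous {a b : ℝ} {f : ℝ → ℂ} (hf : f ∈ TP a b) : Continuous f := by
  induction hf using Submodule.span_induction with
  | mem x hx =>
    obtain ⟨k, -, -, rfl⟩ := hx
    fun_prop
  | zero => exact continuous_const
  | add y z _ _ hy hz => exact hy.add hz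
  | smul c y _ hy => exact hy.const_smul c

lemma TP.integral_eq_zero {a b : ℝ} (ha : 0 < a) {f : ℝ → ℂ} (hf : f ∈ TP a b) :
    ∫ s in (0:ℝ)..1, f s = 0 := by
  induction hf using Submodule.span_induction with
  | mem x hx =>
    obtain ⟨k, hk1, -, rfl⟩ := hx
    have hk : (k : ℝ) ≠ 0 := by linarith [ha.trans_le hk1] 
    have hk' : (k : ℂ) ≠ 0 := by exact_mod_cast hk
    have hc : (2 * π * I * k : ℂ) ≠ 0 := by
      have := Real.pi_pos.ne'
      simp [hk', this]
    have h := integral_exp_mul_complex (a := 0) (b := 1) hc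
    have e1 : ∀ s : ℝ, ee (k * s) = Complex.exp (2 * π * I * k * s) := by
      intro s; unfold ee; congr 1; ring
    simp only [e1]
    rw [h]
    have e2 : Complex.exp (2 * π * I * k) = 1 := ee_int k
    simp [e2]
  | zero => simp
  | add y z hy' hz' hy hz =>
    simp only [Pi.add_apply]
    rw [intervalIntegral.integral_add ((TP.continuous hy').intervalIntegrable _ _)
      ((TP.continuous hz').intervalIntegrable _ _), hy, hz, add_zero]
  | smul c y _ hy =>
    simp only [Pi.smul_apply, smul_eq_mul]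
    rw [intervalIntegral.integral_const_mul, hy, mul_zero]

lemma TP.pythagoras {a b c d : ℝ} (h : b < c) {f g : ℝ → ℂ} (hf : f ∈ TP a b) (hg : g ∈ TP c d) :
    ∫ s in (0:ℝ)..1, ‖f s + g s‖ ^ 2 = (∫ s in (0:ℝ)..1, ‖f s‖ ^ 2) + ∫ s in (0:ℝ)..1, ‖g s‖ ^ 2 := by
  have hfc := TP.continuous hf
  have hgc := TP.continuous hg
  have hm := TP.mul_mem (TP.conj_mem hf) hg
  have h0 := TP.integral_eq_zero (by linarith) hm
  have hmc := TP.continuous hm
  have e1 : ∀ s, ‖f s + g s‖ ^ 2 = ‖f s‖ ^ 2 + ‖g s‖ ^ 2 + 2 * (conj (f s) * g s).re := by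
    intro s
    simp only [Complex.sq_norm, Complex.normSq_apply, add_re, add_im, mul_re, conj_re, conj_im]
    ring
  have e2 : ∫ s in (0:ℝ)..1, (conj (f s) * g s).re = 0 := by
    have := (Complex.reCLM).intervalIntegral_comp_comm (μ := volume) (a := 0) (b := 1)
      (hmc.intervalIntegrable 0 1)
    rw [h0] at this
    simpa using this
  simp only [e1]
  rw [intervalIntegral.integral_add, intervalIntegral.integral_add,
    intervalIntegral.integral_const_mul, e2]
  · ring
  all_goals exact Continuous.intervalIntegrable (by fun_prop) _ _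

end Pool.Agent.Lib.MP_442e5a_an
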