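import Pool.Agent.Lib.MP_442e5a_an.Chi
import Pool.Agent.Lib.MP_442e5a_an.Count

set_option autoImplicit false

open MeasureTheory Set Complex
open scoped Real ComplexConjugate

namespace Pool.Agent.Lib.MP_442e5a_an

/-- The complex phase at a node. -/
noncomputable def ph (K e : ℕ) (φ : ℝ) (z0 z1 z2 : ℂ) : ℂ :=
  (lam K e : ℂ) * (z2 - 2 * φ * z1 + φ ^ 2 * z0)

/-- The gain function. -/
noncomputable def psi (u : ℂ) : ℂ := -I * ee u + (1 / 2) * ee (2 * u)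

/-- The exponential sum attached to a tree. -/
noncomputable def GG (K : ℕ) (χ : ℂ → ℂ) (τ : ℝ) : ℕ → ℕ → ℝ → ℂ → ℂ → ℂ → ℂ
  | 0, _, _, _, _, _ => 0
  | n + 1, e, φ, z0, z1, z2 =>
    psi (ph K e φ z0 z1 z2) + χ (ph K e φ z0 z1 z2) * GG K χ τ n (e + 1) φ z0 z1 z2 +
      χ (ph K e φ z0 z1 z2 - z0 + τ - 1 / 2) * GG K χ τ n (e + 2 ^ n) (φ + hh K e) z0 z1 z2

/-- The quadratic form of the imaginary part at a direction. -/
def QQ (a b c φ : ℝ) : ℝ := c - 2 * φ * b + φ ^ 2 * a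

/-- The closed cone of nonnegative two by two matrices. -/
def Cone (a b c : ℝ) : Prop := 0 ≤ a ∧ 0 ≤ c ∧ b ^ 2 ≤ a * c

/-- `w` is a lower bound for the damping in the subtree rooted at `(e, φ)`. -/
def Low (K e : ℕ) (φ a b c w : ℝ) : Prop :=
  ∀ φ' ∈ Icc φ (φ + 2 * hh K e), w ≤ lam K e * QQ a b c φ' + a

lemma Cone.sq_le {a b c : ℝ} (h : Cone a b c) (φ : ℝ) : (b - φ * a) ^ 2 ≤ a * QQ a b c φ := by
  unfold QQ; nlinarith [h.2.2]

lemma Cone.QQ_nonneg {a b c : ℝ} (h : Cone a b c) (φ : ℝ) : 0 ≤ QQ a b c φ := by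
  rcases h.1.eq_or_lt with ha | ha
  · have hb : b = 0 := by
      have := h.2.2
      rw [← ha, zero_mul] at this
      exact pow_eq_zero_iff (two_ne_zero) |>.1 (le_antisymm this (sq_nonneg b))
    unfold QQ; rw [hb, ← ha]; simpa using h.2.1
  · have := h.sq_le φ
    by_contra hc
    have : a * QQ a b c φ < 0 := mul_neg_of_pos_of_neg ha (not_le.1 hc)
    nlinarith [sq_nonneg (b - φ * a)]

lemma im_ph (K e : ℕ) (φ : ℝ) (z0 z1 z2 : ℂ) :
    (ph K e φ z0 z1 z2).im = lam K e * QQ z0.im z1.im z2.im φ := by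
  unfold ph QQ
  simp [pow_two]

lemma lam_cast (K e : ℕ) : (lam K e : ℝ) = ((K : ℝ) ^ e) ^ 2 := by
  unfold lam; push_cast; ring

lemma hh_pos {K : ℕ} (hK : 0 < K) (e : ℕ) : 0 < hh K e := by
  unfold hh; positivity

lemma pow_ge_of_succ_le {K : ℕ} (hK : 0 < K) {e e' : ℕ} (h : e + 1 ≤ e') :
    (K : ℝ) * (K : ℝ) ^ e ≤ (K : ℝ) ^ e' := by
  rw [← pow_succ']
  exact pow_le_pow_right₀ (by exact_mod_cast hK) h

lemma hh_le {K : ℕ} (hK : 0 < K) {e e' : ℕ} (h : e + 1 ≤ e') : K * hh K e' ≤ hh K e := by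
  unfold hh
  have h1 := pow_ge_of_succ_le hK h
  have hK' : (0:ℝ) < K := by exact_mod_cast hK
  rw [← div_eq_mul_inv, div_le_iff₀ (by positivity), ← div_eq_inv_mul, le_div_iff₀ (by positivity)]
  exact h1

lemma key_aux {K H H' a β Q' y cc : ℝ} (hK : 2 ≤ K) (hH : 0 < H) (hH' : K * H ≤ H') (ha : 0 ≤ a)
    (hQ : 0 ≤ Q') (hβ : β ^ 2 ≤ a * Q') (hy : 0 ≤ y) (hy' : K * y ≤ 2) (hcc : cc = 0 ∨ cc = 1) :
    |H ^ 2 * Q' + 2 * H * (cc + y) * β + ((cc + y) ^ 2 - cc) * a| ≤ 8 / K * (H' ^ 2 * Q' + a) := by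
  have hK0 : 0 < K := by linarith
  have hy1 : y ≤ 1 := by nlinarith
  have hH'0 : 0 < H' := lt_of_lt_of_le (by positivity) hH'
  have h1 : 2 * H' * |β| ≤ H' ^ 2 * Q' + a := by
    have : (2 * H' * |β|) ^ 2 ≤ (H' ^ 2 * Q' + a) ^ 2 := by
      rw [mul_pow, sq_abs]
      nlinarith [sq_nonneg (H' ^ 2 * Q' - a), mul_le_mul_of_nonneg_left hβ (sq_nonneg H')]
    exact (pow_le_pow_iff_left₀ (by positivity) (by positivity) two_ne_zero).1 this
  have h2 : K * (H ^ 2 * Q') ≤ H' ^ 2 * Q' := by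
    have : K * H ^ 2 ≤ H' ^ 2 := by nlinarith [mul_pos hK0 hH]
    nlinarith
  have h3 : K * |2 * H * (cc + y) * β| ≤ 2 * (H' ^ 2 * Q' + a) := by
    have hc : |cc + y| ≤ 2 := by
      rcases hcc with rfl | rfl <;> rw [abs_le] <;> constructor <;> linarith
    rw [abs_mul, abs_mul, abs_of_pos (by positivity : 0 < 2 * H)]
    have hb := abs_nonneg β
    calc K * (2 * H * |cc + y| * |β|) = 2 * (K * H) * |cc + y| * |β| := by ring
      _ ≤ 2 * H' * 2 * |β| := by gcongr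
      _ ≤ _ := by linarith
  have h4 : K * |((cc + y) ^ 2 - cc) * a| ≤ 6 * a := by
    rw [abs_mul, abs_of_nonneg ha, ← mul_assoc]
    apply mul_le_mul_of_nonneg_right _ ha
    rcases hcc with rfl | rfl
    · rw [abs_of_nonneg (by nlinarith)]; nlinarith
    · rw [abs_of_nonneg (by nlinarith)]; nlinarith
  rw [div_mul_eq_mul_div, le_div_iff₀ hK0]
  have h5 := abs_add_three (H ^ 2 * Q') (2 * H * (cc + y) * β) (((cc + y) ^ 2 - cc) * a)
  rw [abs_of_nonneg (by positivity : 0 ≤ H ^ 2 * Q')] at h5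
  have h6 : 0 ≤ H' ^ 2 * Q' := by positivity
  nlinarith

lemma key_ineq {K e e' : ℕ} (hK : 2 ≤ K) (he : e + 1 ≤ e') {a b c φ φ' cc : ℝ} (hc : Cone a b c)
    (hcc : cc = 0 ∨ cc = 1) (h : φ' ∈ Icc (φ + cc * hh K e) (φ + cc * hh K e + 2 * hh K e')) :
    |lam K e * QQ a b c φ - cc * a| ≤ 8 / K * (lam K e' * QQ a b c φ' + a) := by
  have hK0 : 0 < K := by omega
  have hK' : (0:ℝ) < K := by exact_mod_cast hK0
  set H : ℝ := (K : ℝ) ^ e with hH
  have hHpos : 0 < H := by positivity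
  have hhh : H * hh K e = 1 := by unfold hh; rw [hH]; field_simp
  have hcch : H * (cc * hh K e) = cc := by rw [mul_left_comm, hhh, mul_one]
  set y : ℝ := H * (φ' - φ) - cc with hy
  have hy0 : 0 ≤ y := by
    have := mul_le_mul_of_nonneg_left h.1 hHpos.le
    rw [hy]; nlinarith
  have hy1 : K * y ≤ 2 := by
    have h1 := mul_le_mul_of_nonneg_left h.2 hHpos.le
    have h2 := mul_le_mul_of_nonneg_left (hh_le hK0 he) hHpos.le
    have h3 : y ≤ 2 * (H * hh K e') := by rw [hy]; nlinarith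
    nlinarith
  have := key_aux (K := K) (H := H) (H' := (K : ℝ) ^ e') (a := a) (β := b - φ' * a)
    (Q' := QQ a b c φ') (y := y) (cc := cc) (by exact_mod_cast hK) hHpos
    (pow_ge_of_succ_le hK0 he) hc.1 (hc.QQ_nonneg _) (hc.sq_le _) hy0 hy1 hcc
  rw [lam_cast, lam_cast]
  convert this using 2
  rw [hy]; unfold QQ; ring

lemma Low.child {K e e' : ℕ} (hK : 2 ≤ K) (he : e + 1 ≤ e') {a b c φ w cc : ℝ} (hc : Cone a b c)
    (hcc : cc = 0 ∨ cc = 1) (h : Low K e φ a b c w) : Low K e' (φ + cc * hh K e) a b c w := by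
  intro φ' hφ'
  have hK0 : 0 < K := by omega
  have h1 := hh_le hK0 he
  have h2 := hh_pos hK0 e'
  have h3 := hh_pos hK0 e
  have hK' : (2:ℝ) ≤ K := by exact_mod_cast hK
  have h4 : 2 * hh K e' ≤ hh K e := by nlinarith
  have h5 := h φ' ⟨by rcases hcc with rfl | rfl <;> linarith [hφ'.1],
    by rcases hcc with rfl | rfl <;> linarith [hφ'.2]⟩
  have h6 : (lam K e : ℝ) ≤ lam K e' := by exact_mod_cast lam_mono hK0 (by omega)
  have := mul_le_mul_of_nonneg_right h6 (hc.QQ_nonneg φ')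
  linarith

lemma Low.zero (K e : ℕ) (φ : ℝ) {a b c : ℝ} (hc : Cone a b c) : Low K e φ a b c 0 :=
  fun φ' _ => add_nonneg (mul_nonneg (Nat.cast_nonneg _) (hc.QQ_nonneg φ')) hc.1

lemma exists_W {K e e' : ℕ} (hK : 2 ≤ K) (he : e + 1 ≤ e') {a b c φ w cc η : ℝ} (hc : Cone a b c)
    (hcc : cc = 0 ∨ cc = 1) (hη : 8 / (K : ℝ) ≤ η) (h : Low K e' (φ + cc * hh K e) a b c w) :
    ∃ W, w ≤ W ∧ Low K e' (φ + cc * hh K e) a b c W ∧
      |lam K e * QQ a b c φ - cc * a| ≤ η * W := by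
  have hK' : (0:ℝ) < K := by exact_mod_cast (show 0 < K by omega)
  have hη0 : 0 < η := lt_of_lt_of_le (by positivity) hη
  refine ⟨max w (|lam K e * QQ a b c φ - cc * a| / η), le_max_left _ _, fun φ' hφ' => ?_, ?_⟩
  · refine max_le (h φ' hφ') ?_
    rw [div_le_iff₀' hη0]
    refine (key_ineq hK he hc hcc hφ').trans (mul_le_mul_of_nonneg_right hη ?_)
    exact add_nonneg (mul_nonneg (Nat.cast_nonneg _) (hc.QQ_nonneg φ')) hc.1
  · rw [← div_le_iff₀' hη0]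
    exact le_max_right _ _

lemma Cut.norm_le {χ : ℂ → ℂ} {D : ℕ} {δ ε κ η : ℝ} (h : Cut χ D δ ε κ η) (hκ : 0 ≤ κ) {z : ℂ}
    {W : ℝ} (hW : 0 ≤ W) (hz : |z.im| ≤ η * W) :
    ‖χ z‖ ≤ (‖χ z.re‖ + ε) * Real.exp (κ * W) := by
  have h1 := h.off z.re z.im W hW hz
  rw [Complex.re_add_im] at h1
  have h2 : 1 ≤ Real.exp (κ * W) := Real.one_le_exp (by positivity)
  have h3 : ‖χ z‖ ≤ ‖χ z.re‖ + ‖χ z - χ z.re‖ := by
    simpa using norm_add_le (χ z.re) (χ z - χ z.re)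
  nlinarith [norm_nonneg (χ z.re)]

lemma norm_psi_le {u : ℂ} (hu : 0 ≤ u.im) : ‖psi u‖ ≤ 3 / 2 * Real.exp (-(2 * π * u.im)) := by
  unfold psi
  refine (norm_add_le _ _).trans ?_
  rw [norm_mul, norm_mul, norm_ee, norm_ee]
  have h1 : Real.exp (-(2 * π * (2 * u).im)) ≤ Real.exp (-(2 * π * u.im)) := by
    apply Real.exp_le_exp.2
    have : (2 * u).im = 2 * u.im := by simp
    rw [this]
    nlinarith [Real.pi_pos]
  simp only [norm_neg, Complex.norm_I, one_mul, one_div, norm_inv, Complex.norm_ofNat]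
  linarith

lemma re_psi_ge {u : ℂ} (hu : 0 ≤ u.im) (h : Int.fract u.re < 1 / 2) :
    1 / 2 * Real.exp (-(4 * π * u.im)) ≤ (psi u).re := by
  have hs := sin_nonneg_of_fract h
  set ρ := Real.exp (-(2 * π * u.im)) with hρ
  have hρ0 : 0 < ρ := Real.exp_pos _
  have hρ1 : ρ ≤ 1 := Real.exp_le_one_iff.2 (by nlinarith [Real.pi_pos])
  have e0 : Real.exp (-(4 * π * u.im)) = ρ ^ 2 := by
    rw [hρ, sq, ← Real.exp_add]; congr 1; ring
  have e1 : (ee u).im = ρ * Real.sin (2 * π * u.re) := by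
    unfold ee; rw [Complex.exp_im]; congr 2 <;> simp
  have e2 : (ee u).re = ρ * Real.cos (2 * π * u.re) := by
    unfold ee; rw [Complex.exp_re]; congr 2 <;> simp
  have e3 : (psi u).re = (ee u).im + 1 / 2 * ((ee u).re ^ 2 - (ee u).im ^ 2) := by
    unfold psi
    rw [two_mul, ee_add]
    simp [sq]
  rw [e3, e1, e2, e0]
  have h1 := Real.sin_sq_add_cos_sq (2 * π * u.re)
  have h2 := Real.sin_le_one (2 * π * u.re)
  set σ := Real.sin (2 * π * u.re)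
  have h3 : Real.cos (2 * π * u.re) ^ 2 = 1 - σ ^ 2 := by linarith
  rw [mul_pow, h3]
  have h4 : 0 ≤ ρ * σ := mul_nonneg hρ0.le hs
  have h5 : ρ * σ ≤ 1 := by nlinarith
  nlinarith [mul_nonneg h4 (sub_nonneg.2 h5)]

/-- The parameters of the construction are admissible. -/
structure Good (K : ℕ) (χ : ℂ → ℂ) (D : ℕ) (δ ε κ η : ℝ) (N : ℕ) : Prop where
  cut : Cut χ D δ ε κ η
  hK : 1100 ≤ K
  two : 2 ∣ K
  hD : 2 * D + 6 ≤ K ^ 2
  hη : 8 / (K : ℝ) ≤ η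
  ε_pos : 0 < ε
  ε_le : ε ≤ 1 / 2
  κ_pos : 0 < κ
  Nκ : N * κ ≤ π
  h1 : (ε + ε * Real.exp κ) * (6 ^ N * Real.exp (2 * π)) ≤ 1 / 100
  h2 : 2 * 6 ^ N * Real.exp (2 * π - π * ((K : ℝ) ^ 2 / 4)) ≤ 1 / 100
  hρ : ∃ j : ℕ, j ≤ K ^ 2 ∧ 1 / 2 + 2 * δ = j / (K : ℝ) ^ 2

variable {K : ℕ} {χ : ℂ → ℂ} {D : ℕ} {δ ε κ η : ℝ} {N : ℕ}

lemma Good.two_le (h : Good K χ D δ ε κ η N) : 2 ≤ K := le_trans (by norm_num) h.hK

lemma Good.pos (h : Good K χ D δ ε κ η N) : 0 < K := lt_of_lt_of_le (by norm_num) h.hK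

lemma Good.nκ (h : Good K χ D δ ε κ η N) {n : ℕ} (hn : n ≤ N) : n * κ ≤ π :=
  le_trans (mul_le_mul_of_nonneg_right (by exact_mod_cast hn) h.κ_pos.le) h.Nκ

lemma GG_differentiable {E : Type*} [NormedAddCommGroup E] [NormedSpace ℂ E]
    (hχ : Differentiable ℂ χ) (τ : ℝ) {f0 f1 f2 : E → ℂ} (h0 : Differentiable ℂ f0)
    (h1 : Differentiable ℂ f1) (h2 : Differentiable ℂ f2) (n e : ℕ) (φ : ℝ) :
    Differentiable ℂ (fun x => GG K χ τ n e φ (f0 x) (f1 x) (f2 x)) := by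
  induction n generalizing e φ with
  | zero => simp [GG]
  | succ n ih =>
    have hp : Differentiable ℂ (fun x => ph K e φ (f0 x) (f1 x) (f2 x)) := by
      unfold ph; fun_prop
    have hpsi : Differentiable ℂ psi := by unfold psi; fun_prop
    simp only [GG]
    refine ((hpsi.comp hp).add ((hχ.comp hp).mul (ih _ _))).add (Differentiable.mul ?_ (ih _ _))
    exact hχ.comp (by fun_prop)

lemma ph_split (K e : ℕ) (φ : ℝ) (z0 z1 ζ : ℂ) (s : ℝ) :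
    ph K e φ z0 z1 (s + ζ) = lam K e * s + ph K e φ z0 z1 ζ := by
  unfold ph; ring

lemma GG_per (hK : 0 < K) (hχ : Function.Periodic χ 1) (τ : ℝ) (z0 z1 ζ : ℂ) (n e : ℕ) (φ : ℝ) :
    Per K e (fun s : ℝ => GG K χ τ n e φ z0 z1 (s + ζ)) := by
  induction n generalizing e φ with
  | zero => intro s; simp [GG]
  | succ n ih =>
    intro s
    have h0 := (ih (e + 1) φ).mono hK (Nat.le_succ e) s
    have h1 := (ih (e + 2 ^ n) (φ + hh K e)).mono hK (Nat.le_add_right _ _) s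
    have hl : (lam K e : ℂ) ≠ 0 := by exact_mod_cast (lam_pos hK e).ne'
    have hp : ph K e φ z0 z1 (((s + 1 / (lam K e : ℝ) : ℝ) : ℂ) + ζ) =
        ph K e φ z0 z1 (s + ζ) + 1 := by
      unfold ph; push_cast; field_simp; ring
    simp only [GG] at h0 h1 ⊢
    rw [h0, h1, hp, hχ]
    have e1 : ph K e φ z0 z1 (s + ζ) + 1 - z0 + τ - 1 / 2 =
        ph K e φ z0 z1 (s + ζ) - z0 + τ - 1 / 2 + 1 := by ring
    rw [e1, hχ]
    have e2 : psi (ph K e φ z0 z1 (s + ζ) + 1) = psi (ph K e φ z0 z1 (s + ζ)) := by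
      unfold psi
      have a1 := ee_add_nat (ph K e φ z0 z1 (s + ζ)) 1
      have a2 := ee_add_nat (2 * ph K e φ z0 z1 (s + ζ)) 2
      push_cast at a1 a2
      rw [mul_add, mul_one, a1, a2]
    rw [e2]

lemma psi_mem (l : ℕ) (w : ℂ) : (fun s : ℝ => psi (l * s + w)) ∈ TP l (2 * l) := by
  have hl : (0:ℝ) ≤ l := Nat.cast_nonneg l
  refine TP.add_mem (TP.const_mul_mem _ ?_) (TP.const_mul_mem _ ?_)
  · exact TP.ee_mem (k := l) (by simp) (by push_cast; linarith) w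
  · have := TP.ee_mem (a := l) (b := 2 * l) (k := 2 * l) (by push_cast; linarith) (by simp) (2 * w)
    convert this using 3
    push_cast; ring

lemma lam_ge (hK : 0 < K) {e e' : ℕ} (h : e + 1 ≤ e') :
    (K : ℝ) ^ 2 * lam K e ≤ lam K e' := by
  have := lam_mono hK h
  rw [lam_succ] at this
  rw [mul_comm]
  exact_mod_cast this

lemma child_mem (h : Good K χ D δ ε κ η N) {e e' : ℕ} {w : ℂ} {g : ℝ → ℂ} {B : ℝ}
    (hg : g ∈ TP (lam K e') B) :
    (fun s : ℝ => χ (lam K e * s + w) * g s) ∈ TP (lam K e' - D * lam K e) (B + D * lam K e) := by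
  have := TP.mul_mem (h.cut.tp (lam K e) w) hg
  refine TP.mono (le_of_eq ?_) (le_of_eq ?_) this <;> ring

lemma GG_succ_eq (τ : ℝ) (z0 z1 ζ : ℂ) (n e : ℕ) (φ : ℝ) (s : ℝ) :
    GG K χ τ (n + 1) e φ z0 z1 (s + ζ) =
      psi (lam K e * s + ph K e φ z0 z1 ζ) +
      χ (lam K e * s + ph K e φ z0 z1 ζ) * GG K χ τ n (e + 1) φ z0 z1 (s + ζ) +
      χ (lam K e * s + (ph K e φ z0 z1 ζ - z0 + τ - 1 / 2)) *
        GG K χ τ n (e + 2 ^ n) (φ + hh K e) z0 z1 (s + ζ) := by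
  simp only [GG, ph_split]
  congr 3
  ring

lemma GG_mem (h : Good K χ D δ ε κ η N) (τ : ℝ) (z0 z1 ζ : ℂ) (n e : ℕ) (φ : ℝ) {E : ℕ}
    (hE : e + 2 ^ n ≤ E + 1) :
    (fun s : ℝ => GG K χ τ n e φ z0 z1 (s + ζ)) ∈ TP (lam K e) (lam K E / 2 - lam K e) := by
  induction n generalizing e φ with
  | zero => simpa [GG] using TP.zero_mem _ _
  | succ n ih =>
    have h1 := one_le_two_pow' n
    have hpow : 2 ^ (n + 1) = 2 ^ n + 2 ^ n := by ring
    have hD : 2 * (D : ℝ) + 6 ≤ (K : ℝ) ^ 2 := by exact_mod_cast h.hD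
    have hl : (0:ℝ) < lam K e := by exact_mod_cast lam_pos h.pos e
    have hD0 : (0:ℝ) ≤ D := Nat.cast_nonneg D
    have a1 := lam_ge h.pos (show e + 1 ≤ E by omega)
    have a2 := lam_ge h.pos (show e + 1 ≤ e + 1 by omega)
    have a3 := lam_ge h.pos (show e + 1 ≤ e + 2 ^ n by omega)
    have hDl := mul_le_mul_of_nonneg_right hD hl.le
    have hDl0 := mul_nonneg hD0 hl.le
    simp only [GG_succ_eq]
    refine TP.add_mem (TP.add_mem (TP.mono le_rfl ?_ (psi_mem _ _))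
      (TP.mono ?_ ?_ (child_mem h (ih (e + 1) φ (by omega)))))
      (TP.mono ?_ ?_ (child_mem h (ih (e + 2 ^ n) _ (by omega))))
    all_goals nlinarith

lemma GG_cont (h : Good K χ D δ ε κ η N) (τ : ℝ) (z0 z1 ζ : ℂ) (n e : ℕ) (φ : ℝ) :
    Continuous (fun s : ℝ => GG K χ τ n e φ z0 z1 (s + ζ)) :=
  TP.continuous (GG_mem h τ z0 z1 ζ n e φ (E := e + 2 ^ n) (by omega))

/-- The phase of the cut-off selecting a child. -/
lemma im_child (K e : ℕ) (φ τ : ℝ) (z0 z1 z2 : ℂ) :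
    (ph K e φ z0 z1 z2 - z0 + τ - 1 / 2).im = lam K e * QQ z0.im z1.im z2.im φ - 1 * z0.im := by
  simp [im_ph]

lemma exp_step {a w W κ n : ℝ} (hw : w ≤ W) (hn : (n + 1) * κ ≤ 2 * π) :
    Real.exp (κ * W) * Real.exp (2 * π * a - (2 * π - n * κ) * W) ≤
      Real.exp (2 * π * a - (2 * π - (n + 1) * κ) * w) := by
  rw [← Real.exp_add]
  apply Real.exp_le_exp.2
  nlinarith [mul_le_mul_of_nonneg_left hw (sub_nonneg.2 hn)]

lemma child_of_sup (h : Good K χ D δ ε κ η N) {τ : ℝ} {z0 z1 z2 : ℂ}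
    (hc : Cone z0.im z1.im z2.im) {n : ℕ} (hn : n + 1 ≤ N)
    (ih : ∀ e φ w, 0 ≤ w → Low K e φ z0.im z1.im z2.im w → ‖GG K χ τ n e φ z0 z1 z2‖ ≤
      6 ^ n * Real.exp (2 * π * z0.im - (2 * π - n * κ) * w))
    {e e' : ℕ} (he : e + 1 ≤ e') {φ cc w : ℝ} (hcc : cc = 0 ∨ cc = 1) {u : ℂ}
    (hu : u.im = lam K e * QQ z0.im z1.im z2.im φ - cc * z0.im) (hw : 0 ≤ w)
    (hl : Low K e' (φ + cc * hh K e) z0.im z1.im z2.im w) :
    ‖χ u * GG K χ τ n e' (φ + cc * hh K e) z0 z1 z2‖ ≤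
      2 * 6 ^ n * Real.exp (2 * π * z0.im - (2 * π - (n + 1) * κ) * w) := by
  obtain ⟨W, hwW, hW, hb⟩ := exists_W h.two_le he hc hcc h.hη hl
  rw [← hu] at hb
  have h1 := h.cut.norm_le h.κ_pos.le (hw.trans hwW) hb
  have h2 := ih e' _ W (hw.trans hwW) hW
  have h3 : ‖χ u.re‖ + ε ≤ 2 := by linarith [h.cut.le u.re, h.ε_le]
  have h4 := h.nκ hn
  push_cast at h4
  have h5 := exp_step (a := z0.im) (κ := κ) (n := n) hwW (by linarith [Real.pi_pos])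
  rw [norm_mul]
  calc ‖χ u‖ * ‖GG K χ τ n e' (φ + cc * hh K e) z0 z1 z2‖
      ≤ (2 * Real.exp (κ * W)) * (6 ^ n * Real.exp (2 * π * z0.im - (2 * π - n * κ) * W)) :=
        mul_le_mul (h1.trans (mul_le_mul_of_nonneg_right h3 (Real.exp_pos _).le)) h2
          (norm_nonneg _) (by positivity)
    _ = 2 * 6 ^ n * (Real.exp (κ * W) * Real.exp (2 * π * z0.im - (2 * π - n * κ) * W)) := by ring
    _ ≤ _ := mul_le_mul_of_nonneg_left h5 (by positivity)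

lemma psi_bound {e : ℕ} (hK : 0 < K) {φ w m : ℝ} {z0 z1 z2 : ℂ} (hc : Cone z0.im z1.im z2.im)
    (hw : 0 ≤ w) (hm : 0 ≤ m) (hl : Low K e φ z0.im z1.im z2.im w) {u : ℂ}
    (hu : u.im = lam K e * QQ z0.im z1.im z2.im φ) :
    ‖psi u‖ ≤ 3 / 2 * Real.exp (2 * π * z0.im - (2 * π - m) * w) := by
  have h1 := hl φ ⟨le_rfl, by linarith [hh_pos hK e]⟩
  rw [← hu] at h1
  have h2 : 0 ≤ u.im := by rw [hu]; exact mul_nonneg (Nat.cast_nonneg _) (hc.QQ_nonneg _)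
  refine (norm_psi_le h2).trans (mul_le_mul_of_nonneg_left (Real.exp_le_exp.2 ?_) (by norm_num))
  nlinarith [Real.pi_pos, mul_nonneg hm hw]

lemma sup_bound (h : Good K χ D δ ε κ η N) (τ : ℝ) {z0 z1 z2 : ℂ}
    (hc : Cone z0.im z1.im z2.im) {n : ℕ} (hn : n ≤ N) (e : ℕ) (φ w : ℝ) (hw : 0 ≤ w)
    (hl : Low K e φ z0.im z1.im z2.im w) :
    ‖GG K χ τ n e φ z0 z1 z2‖ ≤ 6 ^ n * Real.exp (2 * π * z0.im - (2 * π - n * κ) * w) := by
  induction n generalizing e φ w with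
  | zero => simp only [GG, norm_zero]; positivity
  | succ n ih =>
    have h1 := one_le_two_pow' n
    have ih' := ih (by omega)
    have a0 := psi_bound h.pos hc hw (m := (n + 1) * κ) (by have := h.κ_pos; positivity) hl
      (im_ph K e φ z0 z1 z2)
    have a1 := child_of_sup h hc hn ih' (e := e) (e' := e + 1) le_rfl (φ := φ) (Or.inl rfl)
      (u := ph K e φ z0 z1 z2) (by rw [im_ph]; ring) hw (hl.child h.two_le le_rfl hc (Or.inl rfl))
    have a2 := child_of_sup h hc hn ih' (e := e) (e' := e + 2 ^ n) (by omega) (φ := φ) (Or.inr rfl)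
      (im_child K e φ τ z0 z1 z2) hw (hl.child h.two_le (by omega) hc (Or.inr rfl))
    simp only [zero_mul, add_zero, one_mul] at a1 a2
    simp only [GG]
    refine (norm_add₃_le).trans ?_
    push_cast
    have h6 : (1:ℝ) ≤ 6 ^ n := one_le_pow₀ (by norm_num)
    have hX := Real.exp_pos (2 * π * z0.im - (2 * π - (n + 1) * κ) * w)
    rw [pow_succ]
    nlinarith

lemma child_bound (h : Good K χ D δ ε κ η N) {τ : ℝ} {z0 z1 z2 : ℂ}
    (hc : Cone z0.im z1.im z2.im) {n : ℕ} (hn : n + 1 ≤ N)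
    {e e' : ℕ} (he : e + 1 ≤ e') {φ cc w : ℝ} (hcc : cc = 0 ∨ cc = 1) {u : ℂ}
    (hu : u.im = lam K e * QQ z0.im z1.im z2.im φ - cc * z0.im) (hw : 0 ≤ w)
    (hl : Low K e' (φ + cc * hh K e) z0.im z1.im z2.im w) :
    ‖χ u * GG K χ τ n e' (φ + cc * hh K e) z0 z1 z2‖ ≤
      2 * 6 ^ n * Real.exp (2 * π * z0.im - (2 * π - (n + 1) * κ) * w) :=
  child_of_sup h hc hn (fun e φ w hw hl => sup_bound h τ hc (by omega) e φ w hw hl) he hcc hu hw hl

end Pool.Agent.Lib.MP_442e5a_an
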