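import Pool.Agent.Lib.MP_442e5a_an.Tree

set_option autoImplicit false

open MeasureTheory Set Complex
open scoped Real ComplexConjugate

namespace Pool.Agent.Lib.MP_442e5a_an

variable {K : ℕ} {χ : ℂ → ℂ} {D : ℕ} {δ ε κ η : ℝ} {N : ℕ}

lemma Cut.sq_le (h : Cut χ D δ ε κ η) (hε : 0 < ε) (x : ℝ) :
    (‖χ x‖ + ε) ^ 2 ≤ 4 * ε ^ 2 + (1 + 2 * ε) ^ 2 * arc (1 / 2 + 2 * δ) (x + δ) := by
  have h0 := norm_nonneg (χ x)
  unfold arc
  split_ifs with hx
  · have h1 := h.le x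
    have : (‖χ x‖ + ε) ^ 2 ≤ (1 + 2 * ε) ^ 2 := by
      apply pow_le_pow_left₀ (by positivity); linarith
    nlinarith [sq_nonneg ε]
  · have h1 := h.small x hx
    nlinarith

lemma child_L2 (h : Good K χ D δ ε κ η N) {τ : ℝ} {z0 z1 ζ : ℂ}
    (hc : Cone z0.im z1.im ζ.im) {n : ℕ} (hn : n + 1 ≤ N) {M m2 : ℝ} (hM : 0 ≤ M)
    (hm : 2 * (4 * ε ^ 2 + (1 + 2 * ε) ^ 2 * (1 / 2 + 2 * δ)) ≤ m2)
    (ih : ∀ e φ w, 0 ≤ w → Low K e φ z0.im z1.im ζ.im w →
      ∫ s in (0:ℝ)..1, ‖GG K χ τ n e φ z0 z1 (s + ζ)‖ ^ 2 ≤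
        M * Real.exp (2 * π * z0.im - (2 * π - n * κ) * w) ^ 2)
    {e e' : ℕ} (he : e + 1 ≤ e') {φ cc w : ℝ} (hcc : cc = 0 ∨ cc = 1) {u : ℂ}
    (hu : u.im = lam K e * QQ z0.im z1.im ζ.im φ - cc * z0.im) (hw : 0 ≤ w)
    (hl : Low K e' (φ + cc * hh K e) z0.im z1.im ζ.im w) :
    ∫ s in (0:ℝ)..1, ‖χ (lam K e * s + u) * GG K χ τ n e' (φ + cc * hh K e) z0 z1 (s + ζ)‖ ^ 2 ≤
      m2 / 2 * M * Real.exp (2 * π * z0.im - (2 * π - (n + 1) * κ) * w) ^ 2 := by
  obtain ⟨W, hwW, hW, hb⟩ := exists_W h.two_le he hc hcc h.hη hl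
  rw [← hu] at hb
  have h2 := ih e' _ W (hw.trans hwW) hW
  set g : ℝ → ℝ := fun s => ‖GG K χ τ n e' (φ + cc * hh K e) z0 z1 (s + ζ)‖ ^ 2 with hg
  have hgc : Continuous g := ((GG_cont h τ z0 z1 ζ n e' _).norm).pow 2
  have hgp : Per K (e + 1) g := by
    have := (GG_per h.pos h.cut.per τ z0 z1 ζ n e' (φ + cc * hh K e)).mono h.pos he
    intro s
    simp only [hg]
    rw [show GG K χ τ n e' (φ + cc * hh K e) z0 z1 (((s + 1 / (lam K (e + 1) : ℝ) : ℝ) : ℂ) + ζ) =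
      GG K χ τ n e' (φ + cc * hh K e) z0 z1 (s + ζ) from this s]
  have hgi : ∀ a b, IntervalIntegrable g volume a b := fun a b => hgc.intervalIntegrable a b
  have hg0 : ∀ s, 0 ≤ g s := fun s => by positivity
  obtain ⟨j, hj, hρ⟩ := h.hρ
  have hpt : ∀ s : ℝ, ‖χ (lam K e * s + u) * GG K χ τ n e' (φ + cc * hh K e) z0 z1 (s + ζ)‖ ^ 2 ≤
      Real.exp (κ * W) ^ 2 * (4 * ε ^ 2 * g s + (1 + 2 * ε) ^ 2 *
        (arc (1 / 2 + 2 * δ) (lam K e * s + (u.re + δ)) * g s)) := by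
    intro s
    have a1 := h.cut.norm_le h.κ_pos.le (z := lam K e * s + u) (hw.trans hwW) (by simpa using hb)
    have a2 := h.cut.sq_le h.ε_pos (lam K e * s + u : ℂ).re
    have a3 : (lam K e * s + u : ℂ).re + δ = lam K e * s + (u.re + δ) := by simp; ring
    rw [a3] at a2
    have a4 : ‖χ (lam K e * s + u)‖ ^ 2 ≤ Real.exp (κ * W) ^ 2 *
        (4 * ε ^ 2 + (1 + 2 * ε) ^ 2 * arc (1 / 2 + 2 * δ) (lam K e * s + (u.re + δ))) := by
      refine (pow_le_pow_left₀ (norm_nonneg _) a1 2).trans ?_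
      rw [mul_pow, mul_comm]
      exact mul_le_mul_of_nonneg_left a2 (by positivity)
    rw [norm_mul, mul_pow]
    refine (mul_le_mul_of_nonneg_right a4 (hg0 s)).trans_eq ?_
    ring
  have hcont : Continuous (fun s : ℝ =>
      ‖χ (lam K e * s + u) * GG K χ τ n e' (φ + cc * hh K e) z0 z1 (s + ζ)‖ ^ 2) := by
    have := h.cut.diff.continuous
    have := GG_cont h τ z0 z1 ζ n e' (φ + cc * hh K e)
    fun_prop
  have i1 := (hgi 0 1).const_mul (4 * ε ^ 2)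
  have i2 := (ii_arc_mul hgi (1 / 2 + 2 * δ) (lam K e) (u.re + δ) 0 1).const_mul ((1 + 2 * ε) ^ 2)
  have hint := intervalIntegral.integral_mono_on (μ := volume) (by norm_num : (0:ℝ) ≤ 1)
    (hcont.intervalIntegrable 0 1) ((i1.add i2).const_mul (Real.exp (κ * W) ^ 2))
    (fun s _ => hpt s)
  refine hint.trans ?_
  rw [intervalIntegral.integral_const_mul, intervalIntegral.integral_add i1 i2,
    intervalIntegral.integral_const_mul, intervalIntegral.integral_const_mul,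
    integral_arc_lam h.pos hj hρ _ hgp hgi]
  have hI0 : 0 ≤ ∫ s in (0:ℝ)..1, g s :=
    intervalIntegral.integral_nonneg (by norm_num) (fun s _ => hg0 s)
  set I0 := ∫ s in (0:ℝ)..1, g s
  have h4 := h.nκ hn
  push_cast at h4
  have h5 := exp_step (a := z0.im) (κ := κ) (n := n) hwW (by linarith [Real.pi_pos])
  have h6 := pow_le_pow_left₀ (by positivity) h5 2
  have hm0 : 0 ≤ m2 / 2 := by
    have : 0 ≤ 1 / 2 + 2 * δ := by rw [hρ]; positivity
    have : 0 ≤ 2 * (4 * ε ^ 2 + (1 + 2 * ε) ^ 2 * (1 / 2 + 2 * δ)) := by positivity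
    linarith
  calc Real.exp (κ * W) ^ 2 * (4 * ε ^ 2 * I0 + (1 + 2 * ε) ^ 2 * ((1 / 2 + 2 * δ) * I0))
      = Real.exp (κ * W) ^ 2 * ((4 * ε ^ 2 + (1 + 2 * ε) ^ 2 * (1 / 2 + 2 * δ)) * I0) := by ring
    _ ≤ Real.exp (κ * W) ^ 2 * (m2 / 2 *
          (M * Real.exp (2 * π * z0.im - (2 * π - n * κ) * W) ^ 2)) := by
        apply mul_le_mul_of_nonneg_left _ (by positivity)
        exact mul_le_mul (by linarith) h2 hI0 hm0
    _ = m2 / 2 * M * (Real.exp (κ * W) * Real.exp (2 * π * z0.im - (2 * π - n * κ) * W)) ^ 2 := by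
        ring
    _ ≤ _ := mul_le_mul_of_nonneg_left h6 (by positivity)

lemma L2_bound (h : Good K χ D δ ε κ η N) (τ : ℝ) {z0 z1 ζ : ℂ}
    (hc : Cone z0.im z1.im ζ.im) {m2 : ℝ} (hm1 : 1 ≤ m2)
    (hm : 2 * (4 * ε ^ 2 + (1 + 2 * ε) ^ 2 * (1 / 2 + 2 * δ)) ≤ m2)
    {n : ℕ} (hn : n ≤ N) (e : ℕ) (φ w : ℝ) (hw : 0 ≤ w) (hl : Low K e φ z0.im z1.im ζ.im w) :
    ∫ s in (0:ℝ)..1, ‖GG K χ τ n e φ z0 z1 (s + ζ)‖ ^ 2 ≤
      3 * n * m2 ^ n * Real.exp (2 * π * z0.im - (2 * π - n * κ) * w) ^ 2 := by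
  induction n generalizing e φ w with
  | zero => simp [GG]
  | succ n ih =>
    have h1 := one_le_two_pow' n
    have ih' := ih (by omega)
    have hM : 0 ≤ 3 * n * m2 ^ n := by positivity
    have a1 := child_L2 h hc hn hM hm ih' (e := e) (e' := e + 1) le_rfl (φ := φ) (Or.inl rfl)
      (u := ph K e φ z0 z1 ζ) (by rw [im_ph]; ring) hw (hl.child h.two_le le_rfl hc (Or.inl rfl))
    have a2 := child_L2 h hc hn hM hm ih' (e := e) (e' := e + 2 ^ n) (by omega) (φ := φ)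
      (Or.inr rfl) (im_child K e φ τ z0 z1 ζ) hw (hl.child h.two_le (by omega) hc (Or.inr rfl))
    simp only [zero_mul, add_zero, one_mul] at a1 a2
    set X := Real.exp (2 * π * z0.im - (2 * π - (n + 1) * κ) * w) with hX
    have hX0 : 0 < X := Real.exp_pos _
    have m0 := psi_mem (lam K e) (ph K e φ z0 z1 ζ)
    have a0 : ∫ s in (0:ℝ)..1, ‖psi (lam K e * s + ph K e φ z0 z1 ζ)‖ ^ 2 ≤ 9 / 4 * X ^ 2 := by
      have hpt : ∀ s : ℝ, ‖psi (lam K e * s + ph K e φ z0 z1 ζ)‖ ^ 2 ≤ 9 / 4 * X ^ 2 := by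
        intro s
        have := psi_bound h.pos hc hw (m := (n + 1) * κ) (by have := h.κ_pos; positivity) hl
          (u := lam K e * s + ph K e φ z0 z1 ζ) (by simp [im_ph])
        refine (pow_le_pow_left₀ (norm_nonneg _) this 2).trans_eq ?_
        rw [← hX]; ring
      have := intervalIntegral.integral_mono_on (μ := volume) (by norm_num : (0:ℝ) ≤ 1)
        (((TP.continuous m0).norm.pow 2).intervalIntegrable 0 1)
        (intervalIntegrable_const (c := 9 / 4 * X ^ 2)) (fun s _ => hpt s)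
      simpa using this
    have m1 := child_mem h (e := e) (w := ph K e φ z0 z1 ζ)
      (GG_mem h τ z0 z1 ζ n (e + 1) φ (E := e + 2 ^ n) (by omega))
    have m2' := child_mem h (e := e) (w := ph K e φ z0 z1 ζ - z0 + τ - 1 / 2)
      (GG_mem h τ z0 z1 ζ n (e + 2 ^ n) (φ + hh K e) (E := e + 2 ^ n + 2 ^ n) (by omega))
    have hD : 2 * (D : ℝ) + 6 ≤ (K : ℝ) ^ 2 := by exact_mod_cast h.hD
    have hl0 : (0:ℝ) < lam K e := by exact_mod_cast lam_pos h.pos e
    have hD0 : (0:ℝ) ≤ D := Nat.cast_nonneg D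
    have b2 := lam_ge h.pos (show e + 1 ≤ e + 1 by omega)
    have b3 := lam_ge h.pos (show e + 1 ≤ e + 2 ^ n by omega)
    have hDl := mul_le_mul_of_nonneg_right hD hl0.le
    have hDl0 := mul_nonneg hD0 hl0.le
    have m01 : (fun s : ℝ => psi (lam K e * s + ph K e φ z0 z1 ζ) +
        χ (lam K e * s + ph K e φ z0 z1 ζ) * GG K χ τ n (e + 1) φ z0 z1 (s + ζ)) ∈
        TP (lam K e) (lam K (e + 2 ^ n) / 2) :=
      TP.add_mem (TP.mono le_rfl (by nlinarith) m0) (TP.mono (by nlinarith) (by nlinarith) m1)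
    simp only [GG_succ_eq]
    rw [TP.pythagoras (by nlinarith) m01 m2', TP.pythagoras (by nlinarith) m0 m1]
    push_cast
    rw [← hX]
    have h7 : 1 ≤ m2 ^ (n + 1) := one_le_pow₀ hm1
    have h8 : 0 < X ^ 2 := by positivity
    calc _ ≤ 9 / 4 * X ^ 2 + m2 / 2 * (3 * n * m2 ^ n) * X ^ 2 +
          m2 / 2 * (3 * n * m2 ^ n) * X ^ 2 := add_le_add (add_le_add a0 a1) a2
      _ = (9 / 4 + 3 * n * m2 ^ (n + 1)) * X ^ 2 := by ring
      _ ≤ _ := by
        apply mul_le_mul_of_nonneg_right _ h8.le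
        linarith

lemma QQ_ray (θ φ : ℝ) : QQ 1 θ (θ ^ 2) φ = (θ - φ) ^ 2 := by unfold QQ; ring

lemma cone_ray (θ : ℝ) : Cone 1 θ (θ ^ 2) := ⟨zero_le_one, sq_nonneg _, by simp⟩

lemma exp_two_pi_ge : (150 : ℝ) ≤ Real.exp (2 * π) := by
  have h1 : Real.exp 6 ≤ Real.exp (2 * π) := Real.exp_le_exp.2 (by linarith [Real.pi_gt_three])
  have h2 : Real.exp 6 = Real.exp 1 ^ 6 := by rw [← Real.exp_nat_mul]; norm_num
  have h3 : (2.7 : ℝ) ^ 6 ≤ Real.exp 1 ^ 6 :=
    pow_le_pow_left₀ (by norm_num) (by linarith [Real.exp_one_gt_d9]) 6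
  have h4 : (150 : ℝ) ≤ 2.7 ^ 6 := by norm_num
  linarith

lemma on_path (h : Good K χ D δ ε κ η N) {τ : ℝ} {z0 z1 z2 : ℂ} {θ : ℝ} (h0 : z0.im = 1)
    (h1 : z1.im = θ) (h2 : z2.im = θ ^ 2) {n : ℕ} (hn : n + 1 ≤ N) {e e' : ℕ} (he : e + 1 ≤ e')
    {φ cc : ℝ} (hcc : cc = 0 ∨ cc = 1) {u : ℂ}
    (hu : u.im = lam K e * QQ z0.im z1.im z2.im φ - cc * z0.im)
    (hθ : θ ∈ Icc (φ + cc * hh K e) (φ + cc * hh K e + 2 * hh K e'))
    (hre : Int.fract u.re < 1 / 2) :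
    |u.im| ≤ 8 / K ∧ (GG K χ τ n e' (φ + cc * hh K e) z0 z1 z2).re - 1 / 100 ≤
      (χ u * GG K χ τ n e' (φ + cc * hh K e) z0 z1 z2).re := by
  have hc : Cone z0.im z1.im z2.im := by rw [h0, h1, h2]; exact cone_ray θ
  have a1 := key_ineq h.two_le he hc hcc hθ
  rw [← hu, h0, h1, h2, QQ_ray] at a1
  simp only [sub_self, ne_eq, OfNat.ofNat_ne_zero, not_false_eq_true, zero_pow, mul_zero, zero_add,
    mul_one] at a1
  refine ⟨a1, ?_⟩
  have a2 := h.cut.off u.re u.im 1 zero_le_one (by rw [mul_one]; exact a1.trans h.hη)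
  rw [Complex.re_add_im, mul_one] at a2
  have a3 := h.cut.one u.re hre
  have a4 : ‖χ u - 1‖ ≤ ε + ε * Real.exp κ := by
    have := norm_add_le (χ u.re - 1) (χ u - χ u.re)
    rw [show χ u.re - 1 + (χ u - χ u.re) = χ u - 1 by ring] at this
    linarith
  have a5 := sup_bound h τ hc (n := n) (by omega) e' (φ + cc * hh K e) 0 le_rfl (Low.zero _ _ _ hc)
  rw [h0, mul_zero, sub_zero, mul_one] at a5
  have a6 : (6:ℝ) ^ n ≤ 6 ^ N := pow_le_pow_right₀ (by norm_num) (by omega)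
  set G := GG K χ τ n e' (φ + cc * hh K e) z0 z1 z2
  have a7 : ‖(χ u - 1) * G‖ ≤ 1 / 100 := by
    rw [norm_mul]
    refine le_trans ?_ h.h1
    have := h.ε_pos
    exact mul_le_mul a4 (a5.trans (mul_le_mul_of_nonneg_right a6 (Real.exp_pos _).le))
      (norm_nonneg _) (by positivity)
  have a8 : χ u * G = G + (χ u - 1) * G := by ring
  have a9 := (abs_le.1 ((Complex.abs_re_le_norm _).trans a7)).1
  rw [a8, add_re]
  linarith

lemma off_path (h : Good K χ D δ ε κ η N) {τ : ℝ} {z0 z1 z2 : ℂ} {θ : ℝ} (h0 : z0.im = 1)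
    (h1 : z1.im = θ) (h2 : z2.im = θ ^ 2) {n : ℕ} (hn : n + 1 ≤ N) {e e' : ℕ} (he : e + 1 ≤ e')
    {φ cc : ℝ} (hcc : cc = 0 ∨ cc = 1) {u : ℂ}
    (hu : u.im = lam K e * QQ z0.im z1.im z2.im φ - cc * z0.im)
    (hθ : ∀ φ' ∈ Icc (φ + cc * hh K e) (φ + cc * hh K e + 2 * hh K e'), hh K e / 2 ≤ |θ - φ'|) :
    -(1 / 100) ≤ (χ u * GG K χ τ n e' (φ + cc * hh K e) z0 z1 z2).re := by
  have hc : Cone z0.im z1.im z2.im := by rw [h0, h1, h2]; exact cone_ray θ
  have hl : Low K e' (φ + cc * hh K e) z0.im z1.im z2.im ((K : ℝ) ^ 2 / 4) := by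
    intro φ' hφ'
    rw [h0, h1, h2, QQ_ray]
    have b1 := hθ φ' hφ'
    have b2 := hh_pos h.pos e
    have b3 : (hh K e / 2) ^ 2 ≤ (θ - φ') ^ 2 := by
      rw [← sq_abs (θ - φ')]; exact pow_le_pow_left₀ (by positivity) b1 2
    have b4 := lam_ge h.pos he
    have b5 : (lam K e : ℝ) * hh K e ^ 2 = 1 := by
      have : (0:ℝ) < K := by exact_mod_cast h.pos
      rw [lam_cast]; unfold hh; field_simp
    have b6 : (K : ℝ) ^ 2 * lam K e * (hh K e / 2) ^ 2 ≤ lam K e' * (θ - φ') ^ 2 :=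
      mul_le_mul b4 b3 (by positivity) (Nat.cast_nonneg _)
    have b7 : (K : ℝ) ^ 2 * lam K e * (hh K e / 2) ^ 2 = (K : ℝ) ^ 2 / 4 := by
      linear_combination ((K : ℝ) ^ 2 / 4) * b5
    linarith
  have a1 := child_bound h (τ := τ) hc hn he hcc hu (by positivity) hl
  have a6 : (6:ℝ) ^ n ≤ 6 ^ N := pow_le_pow_right₀ (by norm_num) (by omega)
  have h4 := h.nκ hn
  push_cast at h4
  have a2 : Real.exp (2 * π * z0.im - (2 * π - (n + 1) * κ) * ((K : ℝ) ^ 2 / 4)) ≤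
      Real.exp (2 * π - π * ((K : ℝ) ^ 2 / 4)) := by
    apply Real.exp_le_exp.2
    rw [h0]
    nlinarith [sq_nonneg (K : ℝ)]
  have a3 : ‖χ u * GG K χ τ n e' (φ + cc * hh K e) z0 z1 z2‖ ≤ 1 / 100 := by
    refine a1.trans (le_trans ?_ h.h2)
    exact mul_le_mul (by linarith) a2 (Real.exp_pos _).le (by positivity)
  exact (abs_le.1 ((Complex.abs_re_le_norm _).trans a3)).1

lemma arc_mul_pos {ρ x y : ℝ} (h : 0 < arc ρ x * y) : Int.fract x < ρ ∧ 0 < y := by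
  unfold arc at h
  split_ifs at h with hx
  · exact ⟨hx, by simpa using h⟩
  · simp at h

lemma re_ph (K e : ℕ) (φ q r s t θ : ℝ) :
    (ph K e φ (q + I) (r + θ * I) (s + t + θ ^ 2 * I)).re = lam K e * s + off K e φ q r t := by
  unfold ph off
  simp [pow_two]
  ring

lemma gain_bound (h : Good K χ D δ ε κ η N) (τ q r t s : ℝ) {n : ℕ} (hn : n ≤ N) (e : ℕ)
    (φ k : ℝ) (hg : 0 < gain K τ q r t n e φ k s) :
    ∃ θ ∈ Icc φ (φ + 2 * hh K e), 0.4 * k - 0.03 * n ≤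
      (GG K χ τ n e φ (q + I) (r + θ * I) (s + t + θ ^ 2 * I)).re := by
  induction n generalizing e φ k with
  | zero =>
    refine ⟨φ, ⟨le_rfl, by linarith [hh_pos h.pos e]⟩, ?_⟩
    simp only [gain] at hg
    simp only [GG, zero_re]
    norm_num
    linarith
  | succ n ih =>
    have h1 := one_le_two_pow' n
    have hK : (1100 : ℝ) ≤ K := by exact_mod_cast h.hK
    have c1 := hh_le h.pos (show e + 1 ≤ e + 1 by omega)
    have c2 := hh_le h.pos (show e + 1 ≤ e + 2 ^ n by omega)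
    have c3 := hh_pos h.pos e
    have c4 := hh_pos h.pos (e + 1)
    have c5 := hh_pos h.pos (e + 2 ^ n)
    have c6 : 4 * hh K (e + 1) ≤ hh K e := by nlinarith
    have c7 : 4 * hh K (e + 2 ^ n) ≤ hh K e := by nlinarith
    have i0 : ∀ θ : ℝ, ((q : ℂ) + I).im = 1 := fun _ => by simp
    have i1 : ∀ θ : ℝ, ((r : ℂ) + θ * I).im = θ := fun _ => by simp
    have i2 : ∀ θ : ℝ, ((s : ℂ) + t + θ ^ 2 * I).im = θ ^ 2 := fun _ => by simp [pow_two]
    simp only [gain] at hg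
    by_cases hA : 0 < arc (1 / 2) (lam K e * s + off K e φ q r t) *
        gain K τ q r t n (e + 1) φ (k - 1) s
    · obtain ⟨ha, hg'⟩ := arc_mul_pos hA
      obtain ⟨θ, hθ, hb⟩ := ih (by omega) _ _ _ hg'
      refine ⟨θ, ⟨hθ.1, by linarith [hθ.2]⟩, ?_⟩
      have p1 := on_path h (τ := τ) (i0 θ) (i1 θ) (i2 θ) hn (e := e) (e' := e + 1) le_rfl (φ := φ)
        (Or.inl rfl) (u := ph K e φ (q + I) (r + θ * I) (s + t + θ ^ 2 * I))
        (by rw [im_ph]; ring) (by simpa using hθ) (by rw [re_ph]; exact ha)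
      have p2 := off_path h (τ := τ) (i0 θ) (i1 θ) (i2 θ) hn (e := e) (e' := e + 2 ^ n) (by omega)
        (φ := φ) (Or.inr rfl) (im_child K e φ τ _ _ _) (fun φ' hφ' => by
          rw [abs_sub_comm]
          refine le_trans ?_ (le_abs_self _)
          linarith [hφ'.1, hθ.2])
      simp only [zero_mul, add_zero, one_mul] at p1 p2
      set u := ph K e φ (q + I) (r + θ * I) (s + t + θ ^ 2 * I) with hu
      have hu0 : 0 ≤ u.im := by
        rw [hu, im_ph, i0 θ, i1, i2, QQ_ray]; positivity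
      have p3 := re_psi_ge hu0 (by rw [hu, re_ph]; exact ha)
      have p4 : 0.9 ≤ Real.exp (-(4 * π * u.im)) := by
        have d1 := Real.add_one_le_exp (-(4 * π * u.im))
        have d2 : u.im ≤ 8 / 1100 := by
          refine (le_abs_self _).trans (p1.1.trans ?_)
          exact div_le_div_of_nonneg_left (by norm_num) (by norm_num) hK
        have d3 := Real.pi_lt_d2
        nlinarith [Real.pi_pos]
      simp only [GG, add_re]
      rw [← hu]
      push_cast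
      linarith [p1.2]
    · have hB : 0 < arc (1 / 2) (lam K e * s + (off K e φ q r t - (q - τ) - 1 / 2)) *
          gain K τ q r t n (e + 2 ^ n) (φ + hh K e) k s := by linarith [not_lt.1 hA]
      obtain ⟨ha, hg'⟩ := arc_mul_pos hB
      obtain ⟨θ, hθ, hb⟩ := ih (by omega) _ _ _ hg'
      refine ⟨θ, ⟨by linarith [hθ.1], by linarith [hθ.2]⟩, ?_⟩
      have p1 := on_path h (τ := τ) (i0 θ) (i1 θ) (i2 θ) hn (e := e) (e' := e + 2 ^ n) (by omega)
        (φ := φ) (Or.inr rfl) (im_child K e φ τ _ _ _) (by simpa using hθ) (by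
          have : (ph K e φ (q + I) (r + θ * I) (s + t + θ ^ 2 * I) - (q + I) + τ - 1 / 2).re =
              lam K e * s + (off K e φ q r t - (q - τ) - 1 / 2) := by
            rw [sub_re, add_re, sub_re, re_ph]
            simp
            ring
          rw [this]; exact ha)
      have p2 := off_path h (τ := τ) (i0 θ) (i1 θ) (i2 θ) hn (e := e) (e' := e + 1) le_rfl
        (φ := φ) (Or.inl rfl) (u := ph K e φ (q + I) (r + θ * I) (s + t + θ ^ 2 * I))
        (by rw [im_ph]; ring) (fun φ' hφ' => by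
          refine le_trans ?_ (le_abs_self _)
          linarith [hφ'.2, hθ.1])
      simp only [zero_mul, add_zero, one_mul] at p1 p2
      set u := ph K e φ (q + I) (r + θ * I) (s + t + θ ^ 2 * I) with hu
      have hu1 : 1 ≤ u.im := by
        rw [hu, im_ph, i0 θ, i1, i2, QQ_ray]
        have b5 : (lam K e : ℝ) * hh K e ^ 2 = 1 := by
          have : (0:ℝ) < K := by linarith
          rw [lam_cast]; unfold hh; field_simp
        rw [← b5]
        apply mul_le_mul_of_nonneg_left _ (Nat.cast_nonneg _)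
        exact pow_le_pow_left₀ c3.le (by linarith [hθ.1]) 2
      have p3 := norm_psi_le (u := u) (by linarith)
      have p4 : Real.exp (-(2 * π * u.im)) ≤ 1 / 150 := by
        have d1 : Real.exp (-(2 * π * u.im)) ≤ Real.exp (-(2 * π)) := by
          apply Real.exp_le_exp.2
          nlinarith [Real.pi_pos]
        refine d1.trans ?_
        rw [Real.exp_neg, one_div]
        exact inv_anti₀ (by norm_num) exp_two_pi_ge
      have p5 := (abs_le.1 ((Complex.abs_re_le_norm _).trans p3)).1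
      simp only [GG, add_re]
      rw [← hu]
      push_cast
      linarith [p1.2]

end Pool.Agent.Lib.MP_442e5a_an
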